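import Mathlib

/-!
# Costs, good sets, matchings
-/

set_option autoImplicit false
set_option linter.unusedSectionVars false

namespace Pool.Agent.Lib.MP_acd470_co

open Finset

section

variable {V : Type*} [Fintype V] [DecidableEq V]

/-- A symmetric cost function with values in `[0, Zc]` and zero diagonal. -/
structure IsCost (Zc : ℝ) (z : V → V → ℝ) : Prop where
  symm : ∀ u v, z u v = z v u
  diag : ∀ v, z v v = 0
  nonneg : ∀ u v, 0 ≤ z u v
  le : ∀ u v, z u v ≤ Zc

/-- The total (ordered) cost of a set. -/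
noncomputable def cost (z : V → V → ℝ) (K : Finset V) : ℝ := ∑ u ∈ K, ∑ v ∈ K, z u v

/-- A set is good if it has `r` elements and its average cost is at most `1`. -/
def Good (r : ℕ) (z : V → V → ℝ) (K : Finset V) : Prop :=
  K.card = r ∧ cost z K ≤ (r : ℝ) * (r - 1)

/-- A collection of disjoint good subsets of `X`. -/
structure IsMatching (r : ℕ) (z : V → V → ℝ) (X : Finset V) (M : Finset (Finset V)) : Prop where
  good : ∀ K ∈ M, Good r z K
  sub : ∀ K ∈ M, K ⊆ X
  disj : ∀ K ∈ M, ∀ L ∈ M, K ≠ L → Disjoint K L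

/-- The set covered by a matching. -/
def cov (M : Finset (Finset V)) : Finset V := M.biUnion id

lemma mem_cov {M : Finset (Finset V)} {v : V} : v ∈ cov M ↔ ∃ K ∈ M, v ∈ K := by
  unfold cov; simp

/-- A set is tileable if it is a disjoint union of good sets. -/
def Tileable (r : ℕ) (z : V → V → ℝ) (T : Finset V) : Prop :=
  ∃ M, IsMatching r z T M ∧ cov M = T

lemma cost_image {ι : Type*} [Fintype ι] [DecidableEq ι] (z : V → V → ℝ) (Y : ι → V)
    (hY : Function.Injective Y) :
    cost z (Finset.univ.image Y) = ∑ i, ∑ j, z (Y i) (Y j) := by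
  unfold cost
  rw [Finset.sum_image (fun a _ b _ h => hY h)]
  apply Finset.sum_congr rfl
  intro i _
  rw [Finset.sum_image (fun a _ b _ h => hY h)]

lemma IsMatching.mono {r : ℕ} {z : V → V → ℝ} {X X' : Finset V} {M : Finset (Finset V)}
    (h : IsMatching r z X M) (hX : X ⊆ X') : IsMatching r z X' M :=
  ⟨h.good, fun K hK => (h.sub K hK).trans hX, h.disj⟩

lemma IsMatching.cov_sub {r : ℕ} {z : V → V → ℝ} {X : Finset V} {M : Finset (Finset V)}
    (h : IsMatching r z X M) : cov M ⊆ X := by
  intro v hv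
  obtain ⟨K, hK, hvK⟩ := mem_cov.mp hv
  exact h.sub K hK hvK

lemma isMatching_empty (r : ℕ) (z : V → V → ℝ) (X : Finset V) : IsMatching r z X ∅ :=
  ⟨by simp, by simp, by simp⟩

lemma cov_empty : cov (∅ : Finset (Finset V)) = ∅ := by simp [cov]

lemma cov_union (M N : Finset (Finset V)) : cov (M ∪ N) = cov M ∪ cov N := by
  ext v; simp only [mem_cov, Finset.mem_union]
  constructor
  · rintro ⟨K, hK | hK, hv⟩
    · exact Or.inl ⟨K, hK, hv⟩
    · exact Or.inr ⟨K, hK, hv⟩
  · rintro (⟨K, hK, hv⟩ | ⟨K, hK, hv⟩)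
    · exact ⟨K, Or.inl hK, hv⟩
    · exact ⟨K, Or.inr hK, hv⟩

lemma IsMatching.union {r : ℕ} {z : V → V → ℝ} {X Y : Finset V} {M N : Finset (Finset V)}
    (hM : IsMatching r z X M) (hN : IsMatching r z Y N) (hXY : Disjoint X Y) :
    IsMatching r z (X ∪ Y) (M ∪ N) := by
  refine ⟨?_, ?_, ?_⟩
  · intro K hK
    rcases Finset.mem_union.mp hK with h | h
    · exact hM.good K h
    · exact hN.good K h
  · intro K hK
    rcases Finset.mem_union.mp hK with h | h
    · exact (hM.sub K h).trans Finset.subset_union_left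
    · exact (hN.sub K h).trans Finset.subset_union_right
  · intro K hK L hL hne
    rcases Finset.mem_union.mp hK with h | h <;> rcases Finset.mem_union.mp hL with h' | h'
    · exact hM.disj K h L h' hne
    · exact Finset.disjoint_of_subset_left (hM.sub K h)
        (Finset.disjoint_of_subset_right (hN.sub L h') hXY)
    · exact (Finset.disjoint_of_subset_left (hM.sub L h')
        (Finset.disjoint_of_subset_right (hN.sub K h) hXY)).symm
    · exact hN.disj K h L h' hne

lemma isMatching_singleton {r : ℕ} {z : V → V → ℝ} {K : Finset V} (hK : Good r z K) :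
    IsMatching r z K {K} := by
  refine ⟨?_, ?_, ?_⟩
  · intro L hL; rw [Finset.mem_singleton] at hL; rwa [hL]
  · intro L hL; rw [Finset.mem_singleton] at hL; rw [hL]
  · intro L hL L' hL' hne
    rw [Finset.mem_singleton] at hL hL'
    exact absurd (hL.trans hL'.symm) hne

lemma cov_singleton (K : Finset V) : cov {K} = K := by simp [cov]

lemma tileable_empty (r : ℕ) (z : V → V → ℝ) : Tileable r z (∅ : Finset V) :=
  ⟨∅, isMatching_empty r z ∅, cov_empty⟩

lemma Good.tileable {r : ℕ} {z : V → V → ℝ} {K : Finset V} (hK : Good r z K) :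
    Tileable r z K := ⟨{K}, isMatching_singleton hK, cov_singleton K⟩

lemma Tileable.union {r : ℕ} {z : V → V → ℝ} {S T : Finset V} (hS : Tileable r z S)
    (hT : Tileable r z T) (h : Disjoint S T) : Tileable r z (S ∪ T) := by
  obtain ⟨M, hM, hMS⟩ := hS
  obtain ⟨N, hN, hNT⟩ := hT
  exact ⟨M ∪ N, hM.union hN h, by rw [cov_union, hMS, hNT]⟩

lemma IsMatching.tileable {r : ℕ} {z : V → V → ℝ} {X : Finset V} {M : Finset (Finset V)}
    (h : IsMatching r z X M) : Tileable r z (cov M) :=
  ⟨M, ⟨h.good, fun K hK _ hv => mem_cov.mpr ⟨K, hK, hv⟩, h.disj⟩, rfl⟩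

lemma IsMatching.card_cov {r : ℕ} {z : V → V → ℝ} {X : Finset V} {M : Finset (Finset V)}
    (h : IsMatching r z X M) : (cov M).card = r * M.card := by
  unfold cov
  rw [Finset.card_biUnion (t := (id : Finset V → Finset V))
    (fun K hK L hL hne => h.disj K hK L hL hne)]
  simp only [id]
  rw [Finset.sum_congr rfl (fun K hK => (h.good K hK).1), Finset.sum_const, smul_eq_mul, mul_comm]

lemma Tileable.dvd {r : ℕ} {z : V → V → ℝ} {T : Finset V} (h : Tileable r z T) :
    r ∣ T.card := by
  obtain ⟨M, hM, hMT⟩ := h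
  rw [← hMT, hM.card_cov]
  exact dvd_mul_right _ _

/-- Average of a function over a finite set (times the size). -/
lemma sum_cov {r : ℕ} {z : V → V → ℝ} {X : Finset V} {M : Finset (Finset V)}
    (h : IsMatching r z X M) (f : V → ℝ) : ∑ v ∈ cov M, f v = ∑ K ∈ M, ∑ v ∈ K, f v := by
  unfold cov
  rw [Finset.sum_biUnion (t := (id : Finset V → Finset V))
    (fun K hK L hL hne => h.disj K hK L hL hne)]
  simp

end

end Pool.Agent.Lib.MP_acd470_co
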