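import Mathlib

/-!
# Product expectations over finite sets

`PE ν f` is the expectation of `f Y` where the coordinates `Y i` are independent with
distribution `ν i`.
-/

set_option autoImplicit false
set_option linter.unusedSectionVars false

namespace Pool.Agent.Lib.MP_acd470_co

open Finset

section

variable {V ι : Type*} [Fintype V] [DecidableEq V] [Fintype ι] [DecidableEq ι]

/-- The expectation of `f` under the product of the distributions `ν i`. -/
noncomputable def PE (ν : ι → V → ℝ) (f : (ι → V) → ℝ) : ℝ :=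
  ∑ Y : ι → V, (∏ i, ν i (Y i)) * f Y

lemma PE_prod (ν h : ι → V → ℝ) :
    PE ν (fun Y => ∏ i, h i (Y i)) = ∏ i, ∑ v, ν i v * h i v := by
  unfold PE
  rw [Finset.prod_univ_sum]
  rw [Fintype.piFinset_univ]
  apply Finset.sum_congr rfl
  intro Y _
  rw [← Finset.prod_mul_distrib]

lemma PE_add (ν : ι → V → ℝ) (f g : (ι → V) → ℝ) :
    PE ν (fun Y => f Y + g Y) = PE ν f + PE ν g := by
  unfold PE
  rw [← Finset.sum_add_distrib]
  apply Finset.sum_congr rfl
  intro Y _
  ring

lemma PE_sub (ν : ι → V → ℝ) (f g : (ι → V) → ℝ) :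
    PE ν (fun Y => f Y - g Y) = PE ν f - PE ν g := by
  unfold PE
  rw [← Finset.sum_sub_distrib]
  apply Finset.sum_congr rfl
  intro Y _
  ring

lemma PE_mul (ν : ι → V → ℝ) (c : ℝ) (f : (ι → V) → ℝ) :
    PE ν (fun Y => c * f Y) = c * PE ν f := by
  unfold PE
  rw [Finset.mul_sum]
  apply Finset.sum_congr rfl
  intro Y _
  ring

lemma PE_sum {κ : Type*} (s : Finset κ) (ν : ι → V → ℝ) (f : κ → (ι → V) → ℝ) :
    PE ν (fun Y => ∑ k ∈ s, f k Y) = ∑ k ∈ s, PE ν (f k) := by
  unfold PE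
  rw [Finset.sum_comm]
  apply Finset.sum_congr rfl
  intro Y _
  rw [Finset.mul_sum]

lemma PE_const (ν : ι → V → ℝ) (hν : ∀ i, ∑ v, ν i v = 1) (c : ℝ) :
    PE ν (fun _ => c) = c := by
  have h := PE_prod ν (fun _ _ => 1)
  simp only [Finset.prod_const_one, mul_one, hν] at h
  have h2 := PE_mul ν c (fun _ => 1)
  simp only [mul_one] at h2
  rw [h2, h, mul_one]

lemma PE_single (ν : ι → V → ℝ) (hν : ∀ i, ∑ v, ν i v = 1) (i : ι) (g : V → ℝ) :
    PE ν (fun Y => g (Y i)) = ∑ v, ν i v * g v := by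
  have h := PE_prod ν (fun k v => if k = i then g v else 1)
  have h1 : (fun Y : ι → V => ∏ k, (if k = i then g (Y k) else 1)) = fun Y => g (Y i) := by
    funext Y
    rw [Finset.prod_eq_single i]
    · simp
    · intro b _ hb; simp [hb]
    · intro h; exact absurd (Finset.mem_univ _) h
  rw [h1] at h
  rw [h, Finset.prod_eq_single i]
  · simp
  · intro b _ hb; simp [hb, hν]
  · intro h; exact absurd (Finset.mem_univ _) h

lemma PE_pair (ν : ι → V → ℝ) (hν : ∀ i, ∑ v, ν i v = 1) {i j : ι} (hij : i ≠ j)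
    (g : V → V → ℝ) :
    PE ν (fun Y => g (Y i) (Y j)) = ∑ u, ∑ v, ν i u * ν j v * g u v := by
  have key : ∀ u v : V, PE ν (fun Y => (if Y i = u then 1 else 0) * (if Y j = v then 1 else 0))
      = ν i u * ν j v := by
    intro u v
    have h := PE_prod ν (fun k w => if k = i then (if w = u then 1 else 0)
      else if k = j then (if w = v then 1 else 0) else 1)
    have h1 : (fun Y : ι → V => ∏ k, (if k = i then (if Y k = u then (1 : ℝ) else 0)
      else if k = j then (if Y k = v then 1 else 0) else 1)) =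
      fun Y => (if Y i = u then 1 else 0) * (if Y j = v then 1 else 0) := by
      funext Y
      rw [Finset.prod_eq_mul i j hij]
      · simp [hij.symm]
      · intro c _ hc; simp [hc.1, hc.2]
      · intro h; exact absurd (Finset.mem_univ _) h
      · intro h; exact absurd (Finset.mem_univ _) h
    rw [h1] at h
    rw [h, Finset.prod_eq_mul i j hij]
    · simp [hij.symm]
    · intro c _ hc; simp [hc.1, hc.2, hν]
    · intro h; exact absurd (Finset.mem_univ _) h
    · intro h; exact absurd (Finset.mem_univ _) h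
  have h2 : (fun Y : ι → V => g (Y i) (Y j)) = fun Y => ∑ u, ∑ v, g u v *
      ((if Y i = u then 1 else 0) * (if Y j = v then 1 else 0)) := by
    funext Y
    rw [Finset.sum_eq_single (Y i), Finset.sum_eq_single (Y j)]
    · simp
    · intro b _ hb; simp [hb.symm]
    · intro h; exact absurd (Finset.mem_univ _) h
    · intro b _ hb
      apply Finset.sum_eq_zero
      intro x _
      simp [hb.symm]
    · intro h; exact absurd (Finset.mem_univ _) h
  rw [h2, PE_sum]
  apply Finset.sum_congr rfl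
  intro u _
  rw [PE_sum]
  apply Finset.sum_congr rfl
  intro v _
  rw [PE_mul, key]
  ring

lemma PE_mono (ν : ι → V → ℝ) (hν0 : ∀ i v, 0 ≤ ν i v) {f g : (ι → V) → ℝ}
    (h : ∀ Y, (∀ i, ν i (Y i) ≠ 0) → f Y ≤ g Y) : PE ν f ≤ PE ν g := by
  unfold PE
  apply Finset.sum_le_sum
  intro Y _
  by_cases hY : ∀ i, ν i (Y i) ≠ 0
  · exact mul_le_mul_of_nonneg_left (h Y hY) (Finset.prod_nonneg fun i _ => hν0 i _)
  · push Not at hY
    obtain ⟨i, hi⟩ := hY
    have : ∏ i, ν i (Y i) = 0 := Finset.prod_eq_zero (Finset.mem_univ i) hi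
    rw [this, zero_mul, zero_mul]

/-- General averaging lemma, for an arbitrary nonnegative function. -/
lemma average_lower_gen (ν : ι → V → ℝ) (hν0 : ∀ i v, 0 ≤ ν i v) (hν : ∀ i, ∑ v, ν i v = 1)
    (Rep : ι → V → Prop) (β : ℝ) (hβ : 0 ≤ β) (hRep : ∀ i v, Rep i v → ν i v ≤ β)
    (Forb : Finset V) (cl : V → Finset V) (c : ℕ) (hcl : ∀ v, (cl v).card ≤ c)
    (f : (ι → V) → ℝ) (hf0 : ∀ Y, 0 ≤ f Y) (R : ℝ) (hR : 0 ≤ R)
    (hall : ∀ Y : ι → V, (∀ i, ν i (Y i) ≠ 0) → (∀ i, Rep i (Y i) → Y i ∉ Forb) →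
      (∀ i j, i ≠ j → Rep i (Y i) → Rep j (Y j) → Y j ∉ cl (Y i)) →
      R ≤ f Y) :
    R * (1 - (Fintype.card ι * Forb.card * β + (Fintype.card ι) ^ 2 * c * β)) ≤ PE ν f := by
  classical
  set bad1 : ι → (ι → V) → ℝ := fun i Y => if Rep i (Y i) ∧ Y i ∈ Forb then 1 else 0 with hbad1
  set bad2 : ι → ι → (ι → V) → ℝ := fun i j Y =>
    if i ≠ j ∧ Rep j (Y j) ∧ Y j ∈ cl (Y i) then 1 else 0 with hbad2
  have hb1 : ∀ i Y, 0 ≤ bad1 i Y := by intro i Y; simp only [hbad1]; split_ifs <;> norm_num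
  have hb2 : ∀ i j Y, 0 ≤ bad2 i j Y := by intro i j Y; simp only [hbad2]; split_ifs <;> norm_num
  have hmono : PE ν (fun Y => R * (1 - (∑ i, bad1 i Y + ∑ i, ∑ j, bad2 i j Y))) ≤
      PE ν f := by
    apply PE_mono ν hν0
    intro Y hY
    have hf0 := hf0 Y
    by_cases h1 : ∃ i, Rep i (Y i) ∧ Y i ∈ Forb
    · obtain ⟨i, hi⟩ := h1
      have h2 : (1 : ℝ) ≤ ∑ i, bad1 i Y := by
        calc (1 : ℝ) = bad1 i Y := by simp only [hbad1]; rw [if_pos hi]
          _ ≤ _ := Finset.single_le_sum (f := fun i => bad1 i Y) (fun i _ => hb1 i Y)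
            (Finset.mem_univ i)
      have h3 : 0 ≤ ∑ i, ∑ j, bad2 i j Y :=
        Finset.sum_nonneg fun i _ => Finset.sum_nonneg fun j _ => hb2 _ _ _
      nlinarith
    · by_cases h4 : ∃ i j, i ≠ j ∧ Rep j (Y j) ∧ Y j ∈ cl (Y i)
      · obtain ⟨i, j, hij⟩ := h4
        have h2 : (1 : ℝ) ≤ ∑ i, ∑ j, bad2 i j Y := by
          calc (1 : ℝ) = bad2 i j Y := by simp only [hbad2]; rw [if_pos hij]
            _ ≤ ∑ j, bad2 i j Y := Finset.single_le_sum (f := fun j => bad2 i j Y)
              (fun j _ => hb2 i j Y) (Finset.mem_univ j)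
            _ ≤ _ := Finset.single_le_sum (f := fun i => ∑ j, bad2 i j Y)
              (fun i _ => Finset.sum_nonneg fun j _ => hb2 i j Y) (Finset.mem_univ i)
        have h3 : 0 ≤ ∑ i, bad1 i Y := Finset.sum_nonneg fun i _ => hb1 _ _
        nlinarith
      · push Not at h1 h4
        have h5 := hall Y hY h1 (fun i j hij _ hj => h4 i j hij hj)
        have h3 : 0 ≤ ∑ i, bad1 i Y := Finset.sum_nonneg fun i _ => hb1 _ _
        have h6 : 0 ≤ ∑ i, ∑ j, bad2 i j Y :=
          Finset.sum_nonneg fun i _ => Finset.sum_nonneg fun j _ => hb2 _ _ _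
        nlinarith
  have hL : PE ν (fun Y => R * (1 - (∑ i, bad1 i Y + ∑ i, ∑ j, bad2 i j Y))) =
      R * (1 - (∑ i, PE ν (bad1 i) + ∑ i, ∑ j, PE ν (bad2 i j))) := by
    rw [PE_mul, PE_sub, PE_const ν hν, PE_add, PE_sum, PE_sum]
    congr 4
    funext i
    rw [PE_sum]
  have hβ1 : ∀ i, PE ν (bad1 i) ≤ Forb.card * β := by
    intro i
    have h1 := PE_single ν hν i (fun v => if Rep i v ∧ v ∈ Forb then (1 : ℝ) else 0)
    simp only [hbad1]
    rw [h1]
    calc ∑ v, ν i v * (if Rep i v ∧ v ∈ Forb then (1 : ℝ) else 0)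
        ≤ ∑ v, if v ∈ Forb then β else 0 := by
          apply Finset.sum_le_sum
          intro v _
          by_cases hv : Rep i v ∧ v ∈ Forb
          · rw [if_pos hv, if_pos hv.2, mul_one]; exact hRep i v hv.1
          · rw [if_neg hv, mul_zero]; split_ifs <;> simp [hβ]
      _ = Forb.card * β := by
          rw [Finset.sum_ite_mem, Finset.univ_inter, Finset.sum_const, nsmul_eq_mul]
  have hβ2 : ∀ i j, PE ν (bad2 i j) ≤ c * β := by
    intro i j
    by_cases hij : i = j
    · have : bad2 i j = fun _ => 0 := by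
        funext Y; simp only [hbad2]; simp [hij]
      rw [this, PE_const ν hν]; positivity
    · have h1 := PE_pair ν hν hij (fun u v => if Rep j v ∧ v ∈ cl u then (1 : ℝ) else 0)
      have h2 : bad2 i j = fun Y => if Rep j (Y j) ∧ Y j ∈ cl (Y i) then (1 : ℝ) else 0 := by
        funext Y; simp only [hbad2]; simp [hij]
      rw [h2, h1]
      calc ∑ u, ∑ v, ν i u * ν j v * (if Rep j v ∧ v ∈ cl u then (1 : ℝ) else 0)
          ≤ ∑ u, ν i u * (c * β) := by
            apply Finset.sum_le_sum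
            intro u _
            have h3 : ∑ v, ν j v * (if Rep j v ∧ v ∈ cl u then (1 : ℝ) else 0) ≤ c * β := by
              calc ∑ v, ν j v * (if Rep j v ∧ v ∈ cl u then (1 : ℝ) else 0)
                  ≤ ∑ v, if v ∈ cl u then β else 0 := by
                    apply Finset.sum_le_sum
                    intro v _
                    by_cases hv : Rep j v ∧ v ∈ cl u
                    · rw [if_pos hv, if_pos hv.2, mul_one]; exact hRep j v hv.1
                    · rw [if_neg hv, mul_zero]; split_ifs <;> simp [hβ]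
                _ = (cl u).card * β := by
                    rw [Finset.sum_ite_mem, Finset.univ_inter, Finset.sum_const, nsmul_eq_mul]
                _ ≤ c * β := by
                    apply mul_le_mul_of_nonneg_right _ hβ
                    exact_mod_cast hcl u
            calc ∑ v, ν i u * ν j v * (if Rep j v ∧ v ∈ cl u then (1 : ℝ) else 0)
                = ν i u * ∑ v, ν j v * (if Rep j v ∧ v ∈ cl u then (1 : ℝ) else 0) := by
                  rw [Finset.mul_sum]; apply Finset.sum_congr rfl; intro v _; ring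
              _ ≤ ν i u * (c * β) := mul_le_mul_of_nonneg_left h3 (hν0 i u)
        _ = c * β := by rw [← Finset.sum_mul, hν, one_mul]
  refine le_trans ?_ hmono
  rw [hL]
  apply mul_le_mul_of_nonneg_left _ hR
  have s1 : ∑ i, PE ν (bad1 i) ≤ Fintype.card ι * Forb.card * β := by
    calc ∑ i, PE ν (bad1 i) ≤ ∑ _i : ι, (Forb.card * β : ℝ) :=
          Finset.sum_le_sum fun i _ => hβ1 i
      _ = _ := by rw [Finset.sum_const, nsmul_eq_mul, Finset.card_univ]; ring
  have s2 : ∑ i, ∑ j, PE ν (bad2 i j) ≤ (Fintype.card ι) ^ 2 * c * β := by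
    calc ∑ i, ∑ j, PE ν (bad2 i j) ≤ ∑ _i : ι, ∑ _j : ι, (c * β : ℝ) :=
          Finset.sum_le_sum fun i _ => Finset.sum_le_sum fun j _ => hβ2 i j
      _ = _ := by
          rw [Finset.sum_const, Finset.sum_const, nsmul_eq_mul, nsmul_eq_mul, Finset.card_univ]
          ring
  linarith

/-- General averaging lemma. -/
lemma average_lower (ν : ι → V → ℝ) (hν0 : ∀ i v, 0 ≤ ν i v) (hν : ∀ i, ∑ v, ν i v = 1)
    (Rep : ι → V → Prop) (β : ℝ) (hβ : 0 ≤ β) (hRep : ∀ i v, Rep i v → ν i v ≤ β)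
    (Forb : Finset V) (cl : V → Finset V) (c : ℕ) (hcl : ∀ v, (cl v).card ≤ c)
    (z : V → V → ℝ) (hz0 : ∀ u v, 0 ≤ z u v) (hzd : ∀ v, z v v = 0) (R : ℝ) (hR : 0 ≤ R)
    (hall : ∀ Y : ι → V, (∀ i, ν i (Y i) ≠ 0) → (∀ i, Rep i (Y i) → Y i ∉ Forb) →
      (∀ i j, i ≠ j → Rep i (Y i) → Rep j (Y j) → Y j ∉ cl (Y i)) →
      R ≤ ∑ i, ∑ j, z (Y i) (Y j)) :
    R * (1 - (Fintype.card ι * Forb.card * β + (Fintype.card ι) ^ 2 * c * β)) ≤
      ∑ i, ∑ j, if i = j then 0 else ∑ u, ∑ v, ν i u * ν j v * z u v := by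
  classical
  have hRt : PE ν (fun Y => ∑ i, ∑ j, z (Y i) (Y j)) =
      ∑ i, ∑ j, if i = j then 0 else ∑ u, ∑ v, ν i u * ν j v * z u v := by
    rw [PE_sum]
    apply Finset.sum_congr rfl
    intro i _
    rw [PE_sum]
    apply Finset.sum_congr rfl
    intro j _
    by_cases hij : i = j
    · subst hij
      rw [if_pos rfl]
      have : (fun Y : ι → V => z (Y i) (Y i)) = fun _ => 0 := by funext Y; rw [hzd]
      rw [this, PE_const ν hν]
    · rw [if_neg hij, PE_pair ν hν hij]
  rw [← hRt]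
  exact average_lower_gen ν hν0 hν Rep β hβ hRep Forb cl c hcl _
    (fun Y => Finset.sum_nonneg fun i _ => Finset.sum_nonneg fun j _ => hz0 _ _) R hR hall

/-- Mixtures of a point mass at `p i` (weight `1 - τ i`) and `μ` (weight `τ i`). -/
lemma average_mix (p : ι → V) (τ : ι → ℝ) (hτ0 : ∀ i, 0 ≤ τ i) (hτ1 : ∀ i, τ i ≤ 1)
    (S : Finset V) (μ : V → ℝ) (hμ0 : ∀ v, 0 ≤ μ v) (hμS : ∀ v, v ∉ S → μ v = 0)
    (hμ : ∑ v, μ v = 1) (β : ℝ) (hβ : ∀ v, μ v ≤ β)
    (Forb : Finset V) (cl : V → Finset V) (c : ℕ) (hcl : ∀ v, (cl v).card ≤ c)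
    (z : V → V → ℝ) (hz0 : ∀ u v, 0 ≤ z u v) (hzd : ∀ v, z v v = 0)
    (hzs : ∀ u v, z u v = z v u) (R : ℝ) (hR : 0 ≤ R)
    (hall : ∀ Y : ι → V, (∀ i, (Y i = p i ∧ τ i ≠ 1) ∨ (Y i ∈ S ∧ τ i ≠ 0)) →
      (∀ i, (Y i ≠ p i ∨ τ i = 1) → Y i ∉ Forb) →
      (∀ i j, i ≠ j → (Y i ≠ p i ∨ τ i = 1) → (Y j ≠ p j ∨ τ j = 1) → Y j ∉ cl (Y i)) →
      R ≤ ∑ i, ∑ j, z (Y i) (Y j)) :
    R * (1 - (Fintype.card ι * Forb.card * β + (Fintype.card ι) ^ 2 * c * β)) ≤
      ∑ i, ∑ j, if i = j then 0 else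
        ((1 - τ i) * (1 - τ j) * z (p i) (p j) + (1 - τ i) * τ j * (∑ u, μ u * z u (p i))
          + τ i * (1 - τ j) * (∑ u, μ u * z u (p j))
          + τ i * τ j * (∑ v, μ v * ∑ u, μ u * z u v)) := by
  classical
  have hβ0 : 0 ≤ β := by
    by_contra hneg
    push Not at hneg
    have : ∑ v, μ v = 0 := Finset.sum_eq_zero fun v _ => by
      have h1 := hμ0 v
      have h2 := hβ v
      linarith
    linarith
  set ν : ι → V → ℝ := fun i v => (1 - τ i) * (if v = p i then 1 else 0) + τ i * μ v with hνdef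
  have hν0 : ∀ i v, 0 ≤ ν i v := by
    intro i v
    have h1 : 0 ≤ 1 - τ i := by linarith [hτ1 i]
    have h2 : (0 : ℝ) ≤ if v = p i then 1 else 0 := by split_ifs <;> norm_num
    have h3 := mul_nonneg h1 h2
    have h4 := mul_nonneg (hτ0 i) (hμ0 v)
    simp only [hνdef]
    linarith
  have hν : ∀ i, ∑ v, ν i v = 1 := by
    intro i
    simp only [hνdef]
    rw [Finset.sum_add_distrib, ← Finset.mul_sum, ← Finset.mul_sum, hμ,
      Finset.sum_ite_eq' Finset.univ (p i) (fun _ => (1 : ℝ))]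
    simp
  have hmain := average_lower ν hν0 hν (fun i v => v ≠ p i ∨ τ i = 1) β hβ0 (by
    intro i v hv
    simp only [hνdef]
    have h5 := mul_le_mul (hτ1 i) (hβ v) (hμ0 v) zero_le_one
    rcases hv with hv | hv
    · rw [if_neg hv]; linarith
    · rw [hv]; linarith [hβ v]) Forb cl c hcl z hz0 hzd R hR (by
    intro Y hY h1 h2
    apply hall Y
    · intro i
      have h3 := hY i
      simp only [hνdef] at h3
      by_cases h4 : (Y i ∈ S ∧ τ i ≠ 0)
      · right; exact h4
      · left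
        have h5 : τ i * μ (Y i) = 0 := by
          by_cases h6 : τ i = 0
          · rw [h6, zero_mul]
          · rw [hμS _ (fun h7 => h4 ⟨h7, h6⟩), mul_zero]
        rw [h5, add_zero] at h3
        refine ⟨?_, ?_⟩
        · by_contra h6
          rw [if_neg h6, mul_zero] at h3
          exact h3 rfl
        · intro h6
          rw [h6, sub_self, zero_mul] at h3
          exact h3 rfl
    · exact h1
    · exact h2)
  refine le_trans hmain (le_of_eq ?_)
  apply Finset.sum_congr rfl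
  intro i _
  apply Finset.sum_congr rfl
  intro j _
  by_cases hij : i = j
  · rw [if_pos hij, if_pos hij]
  · rw [if_neg hij, if_neg hij]
    have hinner : ∀ u, ∑ v, ν j v * z u v = (1 - τ j) * z u (p j) + τ j * ∑ v, μ v * z v u := by
      intro u
      simp only [hνdef]
      calc ∑ v, ((1 - τ j) * (if v = p j then 1 else 0) + τ j * μ v) * z u v
          = ∑ v, ((1 - τ j) * (if v = p j then z u v else 0) + τ j * (μ v * z v u)) := by
            apply Finset.sum_congr rfl
            intro v _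
            rw [hzs v u]
            split_ifs <;> ring
        _ = _ := by
            rw [Finset.sum_add_distrib, ← Finset.mul_sum, ← Finset.mul_sum,
              Finset.sum_ite_eq' Finset.univ (p j) (fun v => z u v)]
            simp
    calc ∑ u, ∑ v, ν i u * ν j v * z u v = ∑ u, ν i u * ∑ v, ν j v * z u v := by
          apply Finset.sum_congr rfl; intro u _; rw [Finset.mul_sum]
          apply Finset.sum_congr rfl; intro v _; ring
      _ = ∑ u, ν i u * ((1 - τ j) * z u (p j) + τ j * ∑ v, μ v * z v u) := by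
          apply Finset.sum_congr rfl; intro u _; rw [hinner]
      _ = ∑ u, ((1 - τ i) * (if u = p i then
            ((1 - τ j) * z u (p j) + τ j * ∑ v, μ v * z v u) else 0)
          + (τ i * (1 - τ j) * (μ u * z u (p j)) + τ i * τ j * (μ u * ∑ v, μ v * z v u))) := by
          apply Finset.sum_congr rfl
          intro u _
          simp only [hνdef]
          split_ifs <;> ring
      _ = _ := by
          rw [Finset.sum_add_distrib, Finset.sum_add_distrib, ← Finset.mul_sum, ← Finset.mul_sum,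
            ← Finset.mul_sum, Finset.sum_ite_eq' Finset.univ (p i)
            (fun u => ((1 - τ j) * z u (p j) + τ j * ∑ v, μ v * z v u))]
          simp only [Finset.mem_univ, if_true]
          ring

end

end Pool.Agent.Lib.MP_acd470_co
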