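import Mathlib
import Pool.Agent.Lib.MP_acd470_co.Basic
import Pool.Agent.Lib.MP_acd470_co.Prod

/-!
# The inequality for one clique
-/

set_option autoImplicit false
set_option linter.unusedSectionVars false

namespace Pool.Agent.Lib.MP_acd470_co

open Finset

section

variable {V : Type*} [Fintype V] [DecidableEq V]

/-- The double sum coming from the replacement process, for one `p` and one `τ`. -/
lemma pair_sum_eq (z : V → V → ℝ) (hzs : ∀ u v, z u v = z v u) (hzd : ∀ v, z v v = 0)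
    (K P : Finset V) (hPK : P ⊆ K) (p : V) (hp : p ∈ P) (τ A : ℝ) (a : V → ℝ) (t : V → ℝ)
    (ht : ∀ v, t v = if v = p then 1 else if v ∈ P then 0 else τ) :
    ∑ x ∈ K, ∑ y ∈ K, (if x = y then 0 else
      ((1 - t x) * (1 - t y) * z x y + (1 - t x) * t y * a x
        + t x * (1 - t y) * a y + t x * t y * A)) =
    ((∑ x ∈ P, ∑ y ∈ P, z x y) - 2 * (∑ y ∈ P, z p y)
      + 2 * (1 - τ) * ((∑ x ∈ P, ∑ y ∈ K \ P, z x y) - ∑ y ∈ K \ P, z p y)
      + (1 - τ) ^ 2 * (∑ x ∈ K \ P, ∑ y ∈ K \ P, z x y))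
    + 2 * (((∑ x ∈ P, a x) - a p + (1 - τ) * (∑ x ∈ K \ P, a x)) * (1 + (K \ P).card * τ)
      - τ * (1 - τ) * (∑ x ∈ K \ P, a x))
    + A * ((1 + (K \ P).card * τ) ^ 2 - 1 - (K \ P).card * τ ^ 2) := by
  classical
  have hpK : p ∈ K := hPK hp
  have hsplit : ∀ g : V → ℝ, ∑ x ∈ K, g x = ∑ x ∈ P, g x + ∑ x ∈ K \ P, g x := by
    intro g
    rw [← Finset.sum_sdiff hPK]; ring
  have hT : ∀ g : V → ℝ, ∑ x ∈ K, t x * g x = g p + τ * ∑ x ∈ K \ P, g x := by
    intro g
    rw [hsplit]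
    congr 1
    · rw [Finset.sum_eq_single p]
      · rw [ht, if_pos rfl, one_mul]
      · intro b hb hbp
        rw [ht, if_neg hbp, if_pos hb, zero_mul]
      · intro h; exact absurd hp h
    · rw [Finset.mul_sum]
      apply Finset.sum_congr rfl
      intro x hx
      rw [Finset.mem_sdiff] at hx
      rw [ht, if_neg, if_neg hx.2]
      rintro rfl
      exact hx.2 hp
  have hH : ∀ g : V → ℝ, ∑ x ∈ K, (1 - t x) * g x =
      ∑ x ∈ P, g x - g p + (1 - τ) * ∑ x ∈ K \ P, g x := by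
    intro g
    have h1 : ∑ x ∈ K, (1 - t x) * g x = ∑ x ∈ K, g x - ∑ x ∈ K, t x * g x := by
      rw [← Finset.sum_sub_distrib]
      apply Finset.sum_congr rfl
      intro x _; ring
    rw [h1, hT, hsplit]; ring
  -- remove the diagonal
  have hdiag : ∑ x ∈ K, ∑ y ∈ K, (if x = y then 0 else
      ((1 - t x) * (1 - t y) * z x y + (1 - t x) * t y * a x
        + t x * (1 - t y) * a y + t x * t y * A)) =
      ∑ x ∈ K, ∑ y ∈ K, ((1 - t x) * (1 - t y) * z x y + (1 - t x) * t y * a x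
        + t x * (1 - t y) * a y + t x * t y * A)
      - ∑ x ∈ K, (2 * ((1 - t x) * (t x * a x)) + A * (t x * t x)) := by
    rw [← Finset.sum_sub_distrib]
    apply Finset.sum_congr rfl
    intro x hx
    have h2 : ∀ y ∈ K, (if x = y then 0 else
      ((1 - t x) * (1 - t y) * z x y + (1 - t x) * t y * a x
        + t x * (1 - t y) * a y + t x * t y * A)) =
        ((1 - t x) * (1 - t y) * z x y + (1 - t x) * t y * a x
        + t x * (1 - t y) * a y + t x * t y * A) -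
        (if y = x then (2 * ((1 - t x) * (t x * a x)) + A * (t x * t x)) else 0) := by
      intro y _
      by_cases hxy : x = y
      · subst hxy
        rw [if_pos rfl, if_pos rfl, hzd]; ring
      · rw [if_neg hxy, if_neg (Ne.symm hxy)]; ring
    rw [Finset.sum_congr rfl h2, Finset.sum_sub_distrib, Finset.sum_ite_eq' K x, if_pos hx]
  rw [hdiag]
  have hz2 : ∑ x ∈ K, ∑ y ∈ K, (1 - t x) * (1 - t y) * z x y =
      (∑ x ∈ P, ∑ y ∈ P, z x y) - 2 * (∑ y ∈ P, z p y)
      + 2 * (1 - τ) * ((∑ x ∈ P, ∑ y ∈ K \ P, z x y) - ∑ y ∈ K \ P, z p y)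
      + (1 - τ) ^ 2 * (∑ x ∈ K \ P, ∑ y ∈ K \ P, z x y) := by
    have h3 : ∑ x ∈ K, ∑ y ∈ K, (1 - t x) * (1 - t y) * z x y =
        ∑ x ∈ K, (1 - t x) * (∑ y ∈ P, z x y - z x p + (1 - τ) * ∑ y ∈ K \ P, z x y) := by
      apply Finset.sum_congr rfl
      intro x _
      rw [← hH (fun y => z x y), Finset.mul_sum]
      apply Finset.sum_congr rfl
      intro y _
      ring
    rw [h3, hH (fun x => (∑ y ∈ P, z x y - z x p + (1 - τ) * ∑ y ∈ K \ P, z x y))]
    rw [Finset.sum_add_distrib, Finset.sum_sub_distrib, Finset.sum_add_distrib,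
      Finset.sum_sub_distrib, ← Finset.mul_sum, ← Finset.mul_sum, hzd]
    have h4 : ∑ x ∈ P, z x p = ∑ y ∈ P, z p y := Finset.sum_congr rfl fun x _ => hzs x p
    have h5 : ∑ x ∈ K \ P, z x p = ∑ y ∈ K \ P, z p y := Finset.sum_congr rfl fun x _ => hzs x p
    have h6 : ∑ x ∈ K \ P, ∑ y ∈ P, z x y = ∑ x ∈ P, ∑ y ∈ K \ P, z x y := by
      rw [Finset.sum_comm]
      apply Finset.sum_congr rfl; intro x _
      apply Finset.sum_congr rfl; intro y _
      exact hzs y x
    rw [h4, h5, h6]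
    ring
  have hone : ∑ x ∈ K, t x * 1 = 1 + τ * ∑ x ∈ K \ P, (1 : ℝ) := hT (fun _ => 1)
  simp only [mul_one, Finset.sum_const, nsmul_eq_mul] at hone
  have hα : ∑ x ∈ K, (1 - t x) * a x = ∑ x ∈ P, a x - a p + (1 - τ) * ∑ x ∈ K \ P, a x := hH a
  have h7 : ∑ x ∈ K, ∑ y ∈ K, (1 - t x) * t y * a x =
      (∑ x ∈ K, (1 - t x) * a x) * (∑ y ∈ K, t y) := by
    rw [Finset.sum_mul_sum]
    apply Finset.sum_congr rfl; intro x _
    apply Finset.sum_congr rfl; intro y _
    ring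
  have h8 : ∑ x ∈ K, ∑ y ∈ K, t x * (1 - t y) * a y =
      (∑ x ∈ K, (1 - t x) * a x) * (∑ y ∈ K, t y) := by
    rw [mul_comm, Finset.sum_mul_sum]
    apply Finset.sum_congr rfl; intro x _
    apply Finset.sum_congr rfl; intro y _
    ring
  have h9 : ∑ x ∈ K, ∑ y ∈ K, t x * t y * A = A * (∑ y ∈ K, t y) ^ 2 := by
    rw [sq, Finset.sum_mul_sum, Finset.mul_sum]
    apply Finset.sum_congr rfl; intro x _
    rw [Finset.mul_sum]
    apply Finset.sum_congr rfl; intro y _
    ring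
  have h10 : ∑ x ∈ K, ((1 - t x) * (t x * a x)) = τ * (1 - τ) * ∑ x ∈ K \ P, a x := by
    have h11 : ∑ x ∈ K, ((1 - t x) * (t x * a x)) = ∑ x ∈ K, t x * ((1 - t x) * a x) := by
      apply Finset.sum_congr rfl; intro x _; ring
    rw [h11, hT (fun x => (1 - t x) * a x), ht p, if_pos rfl]
    have h12 : ∑ x ∈ K \ P, (1 - t x) * a x = (1 - τ) * ∑ x ∈ K \ P, a x := by
      rw [Finset.mul_sum]
      apply Finset.sum_congr rfl
      intro x hx
      rw [Finset.mem_sdiff] at hx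
      rw [ht, if_neg, if_neg hx.2]
      rintro rfl
      exact hx.2 hp
    rw [h12]; ring
  have h13 : ∑ x ∈ K, (t x * t x) = 1 + (K \ P).card * τ ^ 2 := by
    rw [hT t, ht p, if_pos rfl]
    have h14 : ∑ x ∈ K \ P, t x = (K \ P).card * τ := by
      rw [← nsmul_eq_mul, ← Finset.sum_const]
      apply Finset.sum_congr rfl
      intro x hx
      rw [Finset.mem_sdiff] at hx
      rw [ht, if_neg, if_neg hx.2]
      rintro rfl
      exact hx.2 hp
    rw [h14]; ring
  have h15 : ∑ x ∈ K, (2 * ((1 - t x) * (t x * a x)) + A * (t x * t x)) =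
      2 * (τ * (1 - τ) * ∑ x ∈ K \ P, a x) + A * (1 + (K \ P).card * τ ^ 2) := by
    rw [Finset.sum_add_distrib, ← Finset.mul_sum, ← Finset.mul_sum, h10, h13]
  rw [h15]
  simp only [Finset.sum_add_distrib]
  rw [hz2, h7, h8, h9, hα, hone]
  ring

/-- The algebraic identity behind the clique inequality. -/
lemma combine_identity (q j cPP cPZ cZZ αP αZ A : ℝ) (hq : 2 ≤ q) :
    (1 - q / (2 * (q - 1))) * ((q - 2) * cPP + 2 * (q - 1) * cPZ + q * cZZ
        + 2 * ((q - 1) * αP + q * αZ)) +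
    (q / (2 * (q - 1))) * ((q - 2) * cPP + 2 * (1 - 2 / q) * (q - 1) * cPZ
        + q * (1 - 2 / q) ^ 2 * cZZ
        + 2 * (((q - 1) * αP + q * (1 - 2 / q) * αZ) * (1 + j * (2 / q))
          - q * ((2 / q) * (1 - 2 / q)) * αZ)
        + q * A * ((1 + j * (2 / q)) ^ 2 - 1 - j * (2 / q) ^ 2)) =
    (q - 2) * (cPP + 2 * cPZ + cZZ)
      + 2 * (q + j - 1) * (αP + ((q - 2) / (q - 1)) * αZ + (j / (q - 1)) * A) := by
  have h1 : q ≠ 0 := by linarith
  have h2 : q - 1 ≠ 0 := by intro h; linarith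
  field_simp
  ring

/-- A replacement hypothesis: every allowed replacement of a part of `K` containing `p` by
vertices of `S` gives a bad set. -/
def BadRepl (r : ℕ) (z : V → V → ℝ) (cl : V → Finset V) (S K : Finset V) (p : V)
    (Forb : Finset V) : Prop :=
  ∀ D W : Finset V, p ∈ D → D ⊆ K → D.erase p ⊆ S → W ⊆ S → W.card = D.card →
    Disjoint W Forb → Disjoint W K → (∀ w ∈ W, ∀ w' ∈ W, w ≠ w' → w' ∉ cl w) →
    (r : ℝ) * (r - 1) ≤ cost z ((K \ D) ∪ W)

/-- The averaged inequality for one pair `(p, τ)`. -/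
lemma repl_average {r : ℕ} (z : V → V → ℝ) (Zc : ℝ) (hz : IsCost Zc z)
    (K P S : Finset V) (hK : K.card = r) (hPK : P ⊆ K) (hZ : K \ P ⊆ S)
    (p : V) (hp : p ∈ P) (τ : ℝ) (hτ0 : 0 ≤ τ) (hτ1 : τ ≤ 1)
    (μ : V → ℝ) (hμ0 : ∀ v, 0 ≤ μ v) (hμS : ∀ v, v ∉ S → μ v = 0)
    (hμ : ∑ v, μ v = 1) (β : ℝ) (hβ : ∀ v, μ v ≤ β)
    (cl : V → Finset V) (c : ℕ) (hcl : ∀ v, (cl v).card ≤ c) (hself : ∀ v, v ∈ cl v)
    (Forb : Finset V) (b : ℕ) (hForb : Forb.card ≤ b)
    (hbad : BadRepl r z cl S K p Forb) (hr : 1 ≤ r)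
    (t : V → ℝ) (ht : ∀ v, t v = if v = p then 1 else if v ∈ P then 0 else τ) :
    (r : ℝ) * (r - 1) * (1 - (r * (b + r) * β + r ^ 2 * c * β)) ≤
      ∑ x ∈ K, ∑ y ∈ K, (if x = y then 0 else
        ((1 - t x) * (1 - t y) * z x y + (1 - t x) * t y * (∑ u, μ u * z u x)
          + t x * (1 - t y) * (∑ u, μ u * z u y)
          + t x * t y * (∑ v, μ v * ∑ u, μ u * z u v))) := by
  classical
  have hr1 : (1 : ℝ) ≤ r := by exact_mod_cast hr
  have hR : (0 : ℝ) ≤ (r : ℝ) * (r - 1) := by nlinarith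
  have hβ0 : 0 ≤ β := (hμ0 p).trans (hβ p)
  have ht0 : ∀ v, 0 ≤ t v := by intro v; rw [ht]; split_ifs <;> linarith
  have ht1 : ∀ v, t v ≤ 1 := by intro v; rw [ht]; split_ifs <;> linarith
  have hmain := average_mix (ι := ↥K) (fun i => i.val) (fun i => t i.val) (fun i => ht0 _)
    (fun i => ht1 _) S μ hμ0 hμS hμ β hβ (Forb ∪ K) cl c hcl z hz.nonneg hz.diag hz.symm
    ((r : ℝ) * (r - 1)) hR (by
    intro Y h1 h2 h3
    set Rep : ↥K → Prop := fun i => Y i ≠ i.val ∨ t i.val = 1 with hRep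
    set D : Finset V := (Finset.univ.filter Rep).image Subtype.val with hD
    set W : Finset V := (Finset.univ.filter Rep).image Y with hW
    have hnot : ∀ i : ↥K, ¬ Rep i → Y i = i.val := by
      intro i hi
      simp only [hRep] at hi
      push Not at hi
      exact hi.1
    have hRS : ∀ i : ↥K, Rep i → Y i ∈ S := by
      intro i hi
      rcases h1 i with h4 | h4
      · rcases hi with h5 | h5
        · exact absurd h4.1 h5
        · exact absurd h5 h4.2
      · exact h4.1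
    have hRF : ∀ i : ↥K, Rep i → Y i ∉ Forb ∪ K := fun i hi => h2 i hi
    have hinj : Function.Injective Y := by
      intro i j hij
      by_contra hne
      by_cases hi : Rep i
      · by_cases hj : Rep j
        · exact h3 i j hne hi hj (by rw [← hij]; exact hself _)
        · have h4 := hRF i hi
          rw [hij, hnot j hj] at h4
          exact h4 (Finset.mem_union_right _ j.2)
      · by_cases hj : Rep j
        · have h4 := hRF j hj
          rw [← hij, hnot i hi] at h4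
          exact h4 (Finset.mem_union_right _ i.2)
        · rw [hnot i hi, hnot j hj] at hij
          exact hne (Subtype.ext hij)
    have hset : Finset.univ.image Y = (K \ D) ∪ W := by
      ext v
      simp only [Finset.mem_image, Finset.mem_univ, true_and, Finset.mem_union,
        Finset.mem_sdiff, hD, hW, Finset.mem_filter]
      constructor
      · rintro ⟨i, rfl⟩
        by_cases hi : Rep i
        · right; exact ⟨i, hi, rfl⟩
        · left
          rw [hnot i hi]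
          refine ⟨i.2, ?_⟩
          rintro ⟨j, hj, hji⟩
          rw [Subtype.ext hji] at hj
          exact hi hj
      · rintro (⟨hvK, hvD⟩ | ⟨i, _, rfl⟩)
        · refine ⟨⟨v, hvK⟩, ?_⟩
          apply hnot ⟨v, hvK⟩
          intro hi
          exact hvD ⟨⟨v, hvK⟩, hi, rfl⟩
        · exact ⟨i, rfl⟩
    rw [← cost_image z Y hinj, hset]
    apply hbad D W
    · rw [hD, Finset.mem_image]
      refine ⟨⟨p, hPK hp⟩, ?_, rfl⟩
      rw [Finset.mem_filter]
      refine ⟨Finset.mem_univ _, Or.inr ?_⟩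
      rw [ht, if_pos rfl]
    · intro v hv
      rw [hD, Finset.mem_image] at hv
      obtain ⟨i, _, rfl⟩ := hv
      exact i.2
    · intro v hv
      rw [Finset.mem_erase, hD, Finset.mem_image] at hv
      obtain ⟨hvp, i, hi, rfl⟩ := hv
      rw [Finset.mem_filter] at hi
      by_contra hvS
      have h4 : i.val ∈ P := by
        by_contra h5
        exact hvS (hZ (Finset.mem_sdiff.mpr ⟨i.2, h5⟩))
      have h5 : t i.val = 0 := by rw [ht, if_neg hvp, if_pos h4]
      rcases h1 i with h6 | h6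
      · rcases hi.2 with h7 | h7
        · exact h7 h6.1
        · exact h6.2 h7
      · exact h6.2 h5
    · intro v hv
      rw [hW, Finset.mem_image] at hv
      obtain ⟨i, hi, rfl⟩ := hv
      rw [Finset.mem_filter] at hi
      exact hRS i hi.2
    · rw [hW, hD, Finset.card_image_of_injective _ hinj,
        Finset.card_image_of_injective _ Subtype.val_injective]
    · rw [Finset.disjoint_left]
      intro v hv hvF
      rw [hW, Finset.mem_image] at hv
      obtain ⟨i, hi, rfl⟩ := hv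
      rw [Finset.mem_filter] at hi
      exact hRF i hi.2 (Finset.mem_union_left _ hvF)
    · rw [Finset.disjoint_left]
      intro v hv hvF
      rw [hW, Finset.mem_image] at hv
      obtain ⟨i, hi, rfl⟩ := hv
      rw [Finset.mem_filter] at hi
      exact hRF i hi.2 (Finset.mem_union_right _ hvF)
    · intro w hw w' hw' hne
      rw [hW, Finset.mem_image] at hw hw'
      obtain ⟨i, hi, rfl⟩ := hw
      obtain ⟨j, hj, rfl⟩ := hw'
      rw [Finset.mem_filter] at hi hj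
      exact h3 i j (fun h => hne (by rw [h])) hi.2 hj.2)
  rw [Fintype.card_coe, hK] at hmain
  have hconv : ∀ F : V → V → ℝ, ∑ i : ↥K, ∑ j : ↥K, (if i = j then 0 else F i.val j.val) =
      ∑ x ∈ K, ∑ y ∈ K, (if x = y then 0 else F x y) := by
    intro F
    rw [← Finset.sum_coe_sort K]
    apply Finset.sum_congr rfl
    intro i _
    rw [← Finset.sum_coe_sort K]
    apply Finset.sum_congr rfl
    intro j _
    by_cases hij : i = j
    · rw [if_pos hij, if_pos (by rw [hij])]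
    · rw [if_neg hij, if_neg (fun h => hij (Subtype.ext h))]
  have h20 := hconv (fun x y => ((1 - t x) * (1 - t y) * z x y
          + (1 - t x) * t y * (∑ u, μ u * z u x)
          + t x * (1 - t y) * (∑ u, μ u * z u y)
          + t x * t y * (∑ v, μ v * ∑ u, μ u * z u v)))
  rw [← h20]
  refine le_trans ?_ hmain
  have hcardU : ((Forb ∪ K).card : ℝ) ≤ b + r := by
    have h21 := Finset.card_union_le Forb K
    have h22 : (Forb ∪ K).card ≤ b + r := by omega
    exact_mod_cast h22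
  have h23 : (r : ℝ) * (Forb ∪ K).card * β ≤ r * (b + r) * β := by
    apply mul_le_mul_of_nonneg_right _ hβ0
    apply mul_le_mul_of_nonneg_left hcardU
    positivity
  apply mul_le_mul_of_nonneg_left _ hR
  linarith

/-- The clique inequality. -/
theorem clique_inequality {r : ℕ} (z : V → V → ℝ) (Zc : ℝ) (hz : IsCost Zc z)
    (K P S : Finset V) (hK : Good r z K) (hPK : P ⊆ K) (hZ : K \ P ⊆ S) (hP : 2 ≤ P.card)
    (μ : V → ℝ) (hμ0 : ∀ v, 0 ≤ μ v) (hμS : ∀ v, v ∉ S → μ v = 0)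
    (hμ : ∑ v, μ v = 1) (β : ℝ) (hβ : ∀ v, μ v ≤ β) (M : ℝ) (hM : 0 ≤ M)
    (hkkt : ∀ x ∈ S, (∑ v, μ v * ∑ u, μ u * z u v) ≤ (∑ u, μ u * z u x) + M * μ x)
    (cl : V → Finset V) (c : ℕ) (hcl : ∀ v, (cl v).card ≤ c) (hself : ∀ v, v ∈ cl v)
    (b : ℕ) (Forb : V → Finset V) (hForb : ∀ p ∈ P, (Forb p).card ≤ b)
    (hbad : ∀ p ∈ P, BadRepl r z cl S K p (Forb p)) :
    (r : ℝ) - (r : ℝ) ^ 2 / 2 * (r * (b + r) * β + r ^ 2 * c * β) - M * ∑ x ∈ K, μ x ≤
      ∑ x ∈ K, ∑ u, μ u * z u x := by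
  classical
  set a : V → ℝ := fun x => ∑ u, μ u * z u x with ha
  set A : ℝ := ∑ v, μ v * a v with hA
  set q : ℝ := (P.card : ℝ) with hq
  set j : ℝ := ((K \ P).card : ℝ) with hj
  have hq2 : (2 : ℝ) ≤ q := by rw [hq]; exact_mod_cast hP
  have hj0 : 0 ≤ j := by rw [hj]; positivity
  have hrqj : (r : ℝ) = q + j := by
    rw [hq, hj, ← hK.1, ← Finset.card_sdiff_add_card_eq_card hPK]
    push_cast; ring
  have hr1 : 1 ≤ r := by
    have := Finset.card_le_card hPK
    rw [hK.1] at this; omega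
  have hβ0 : 0 ≤ β := by
    obtain ⟨p, hp⟩ := Finset.card_pos.mp (by omega : 0 < P.card)
    exact (hμ0 p).trans (hβ p)
  set err : ℝ := r * (b + r) * β + r ^ 2 * c * β with herr
  have herr0 : 0 ≤ err := by rw [herr]; positivity
  set cPP : ℝ := ∑ x ∈ P, ∑ y ∈ P, z x y with hcPP
  set cPZ : ℝ := ∑ x ∈ P, ∑ y ∈ K \ P, z x y with hcPZ
  set cZZ : ℝ := ∑ x ∈ K \ P, ∑ y ∈ K \ P, z x y with hcZZ
  set αP : ℝ := ∑ x ∈ P, a x with hαP
  set αZ : ℝ := ∑ x ∈ K \ P, a x with hαZ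
  -- the averaged inequality, summed over `p`
  have hE : ∀ τ : ℝ, 0 ≤ τ → τ ≤ 1 → q * ((r : ℝ) * (r - 1) * (1 - err)) ≤
      (q - 2) * cPP + 2 * (1 - τ) * (q - 1) * cPZ
        + q * (1 - τ) ^ 2 * cZZ
        + 2 * (((q - 1) * αP + q * (1 - τ) * αZ) * (1 + j * τ)
          - q * (τ * (1 - τ)) * αZ)
        + q * A * ((1 + j * τ) ^ 2 - 1 - j * τ ^ 2) := by
    intro τ hτ0 hτ1
    have h1 : ∀ p ∈ P, (r : ℝ) * (r - 1) * (1 - err) ≤
        (cPP - 2 * (∑ y ∈ P, z p y)
          + 2 * (1 - τ) * (cPZ - ∑ y ∈ K \ P, z p y)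
          + (1 - τ) ^ 2 * cZZ)
        + 2 * ((αP - a p + (1 - τ) * αZ) * (1 + j * τ)
          - τ * (1 - τ) * αZ)
        + A * ((1 + j * τ) ^ 2 - 1 - j * τ ^ 2) := by
      intro p hp
      have h2 := repl_average z Zc hz K P S hK.1 hPK hZ p hp τ hτ0 hτ1 μ hμ0 hμS hμ β hβ cl c
        hcl hself (Forb p) b (hForb p hp) (hbad p hp) hr1
        (fun v => if v = p then 1 else if v ∈ P then 0 else τ) (fun v => rfl)
      rw [pair_sum_eq z hz.symm hz.diag K P hPK p hp τ _ (fun x => ∑ u, μ u * z u x) _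
        (fun v => rfl)] at h2
      exact h2
    have h1' : ∀ p ∈ P, (r : ℝ) * (r - 1) * (1 - err) ≤
        (cPP + 2 * (1 - τ) * cPZ + (1 - τ) ^ 2 * cZZ
          + 2 * ((αP + (1 - τ) * αZ) * (1 + j * τ) - τ * (1 - τ) * αZ)
          + A * ((1 + j * τ) ^ 2 - 1 - j * τ ^ 2)) -
        (2 * (∑ y ∈ P, z p y) + 2 * (1 - τ) * (∑ y ∈ K \ P, z p y) + 2 * (1 + j * τ) * a p) := by
      intro p hp
      refine (h1 p hp).trans (le_of_eq ?_)
      ring
    have h3 := Finset.sum_le_sum h1'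
    rw [Finset.sum_const, nsmul_eq_mul, Finset.sum_sub_distrib, Finset.sum_const, nsmul_eq_mul,
      Finset.sum_add_distrib, Finset.sum_add_distrib, ← Finset.mul_sum, ← Finset.mul_sum,
      ← Finset.mul_sum, ← hcPP, ← hcPZ, ← hαP, ← hq] at h3
    refine h3.trans (le_of_eq ?_)
    ring
  have hE0 := hE 0 le_rfl zero_le_one
  have hE2 := hE (2 / q) (by positivity) (by rw [div_le_one (by linarith)]; exact hq2)
  have hid := combine_identity q j cPP cPZ cZZ αP αZ A hq2
  have hq1 : 0 < q - 1 := by linarith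
  set ρ : ℝ := q / (2 * (q - 1)) with hρ
  have hρ0 : 0 ≤ ρ := by rw [hρ]; positivity
  have hρ1 : ρ ≤ 1 := by
    rw [hρ, div_le_one (by positivity)]; linarith
  have hcost : cPP + 2 * cPZ + cZZ = cost z K := by
    have hsplit : ∀ g : V → ℝ, ∑ x ∈ K, g x = ∑ x ∈ P, g x + ∑ x ∈ K \ P, g x := by
      intro g
      rw [← Finset.sum_sdiff hPK]; ring
    have h6 : ∑ x ∈ K \ P, ∑ y ∈ P, z x y = cPZ := by
      rw [hcPZ, Finset.sum_comm]
      apply Finset.sum_congr rfl; intro x _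
      apply Finset.sum_congr rfl; intro y _
      exact hz.symm y x
    unfold cost
    rw [hsplit]
    have h7 : ∀ x, ∑ y ∈ K, z x y = ∑ y ∈ P, z x y + ∑ y ∈ K \ P, z x y := fun x => hsplit _
    simp only [h7]
    rw [Finset.sum_add_distrib, Finset.sum_add_distrib, h6, ← hcPP, ← hcPZ, ← hcZZ]
    ring
  have hcomb : q * ((r : ℝ) * (r - 1) * (1 - err)) ≤
      (q - 2) * (cPP + 2 * cPZ + cZZ)
      + 2 * (q + j - 1) * (αP + ((q - 2) / (q - 1)) * αZ + (j / (q - 1)) * A) := by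
    rw [← hid]
    have h8 := mul_le_mul_of_nonneg_left hE0 (by linarith : 0 ≤ 1 - ρ)
    have h9 := mul_le_mul_of_nonneg_left hE2 hρ0
    have h10 : (1 - ρ) * (q * ((r : ℝ) * (r - 1) * (1 - err))) +
        ρ * (q * ((r : ℝ) * (r - 1) * (1 - err))) = q * ((r : ℝ) * (r - 1) * (1 - err)) := by ring
    rw [← h10]
    refine (add_le_add h8 h9).trans (le_of_eq ?_)
    ring
  rw [hcost] at hcomb
  have hgood := hK.2
  have hr2 : (2 : ℝ) ≤ r := by rw [hrqj]; linarith
  have hαZA : -(M * ∑ x ∈ K \ P, μ x) ≤ αZ - j * A := by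
    have h11 : ∑ x ∈ K \ P, (A - M * μ x) ≤ αZ := by
      rw [hαZ]
      apply Finset.sum_le_sum
      intro x hx
      have h20 : A ≤ a x + M * μ x := hkkt x (hZ hx)
      linarith
    rw [Finset.sum_sub_distrib, Finset.sum_const, nsmul_eq_mul, ← Finset.mul_sum] at h11
    linarith
  have hμK : ∑ x ∈ K \ P, μ x ≤ ∑ x ∈ K, μ x :=
    Finset.sum_le_sum_of_subset_of_nonneg Finset.sdiff_subset (fun x _ _ => hμ0 x)
  have htot : ∑ x ∈ K, a x = αP + αZ := by
    rw [← Finset.sum_sdiff hPK]; ring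
  rw [htot]
  -- `X := αP + ((q-2)/(q-1)) αZ + (j/(q-1)) A`
  set X : ℝ := αP + ((q - 2) / (q - 1)) * αZ + (j / (q - 1)) * A with hX
  have hX1 : αP + αZ = X + (αZ - j * A) / (q - 1) := by
    rw [hX]; field_simp; ring
  have hX2 : (r : ℝ) - (r : ℝ) ^ 2 / 2 * err ≤ X := by
    have h12 : (q - 2) * cost z K ≤ (q - 2) * ((r : ℝ) * (r - 1)) :=
      mul_le_mul_of_nonneg_left hgood (by linarith)
    have h13 : q + j - 1 = (r : ℝ) - 1 := by rw [hrqj]
    rw [h13] at hcomb
    have h21 : ((r : ℝ) - 1) * (2 * r - q * r * err) =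
        q * ((r : ℝ) * (r - 1) * (1 - err)) - (q - 2) * ((r : ℝ) * (r - 1)) := by ring
    have h14 : ((r : ℝ) - 1) * (2 * r - q * r * err) ≤ ((r : ℝ) - 1) * (2 * X) := by
      rw [h21]; linarith
    have h15 : 2 * r - q * r * err ≤ 2 * X := le_of_mul_le_mul_left h14 (by linarith)
    have h16 : q * r * err ≤ r * r * err := by
      apply mul_le_mul_of_nonneg_right _ herr0
      apply mul_le_mul_of_nonneg_right _ (by linarith)
      rw [hrqj]; linarith
    have h22 : (r : ℝ) ^ 2 / 2 * err = (r * r * err) / 2 := by ring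
    rw [h22]; linarith
  have hX3 : -(M * ∑ x ∈ K, μ x) ≤ (αZ - j * A) / (q - 1) := by
    have h17 : 0 ≤ M * ∑ x ∈ K \ P, μ x :=
      mul_nonneg hM (Finset.sum_nonneg fun x _ => hμ0 x)
    have h18 : M * ∑ x ∈ K \ P, μ x ≤ M * ∑ x ∈ K, μ x := mul_le_mul_of_nonneg_left hμK hM
    rw [le_div_iff₀ hq1]
    have h19 : 0 ≤ M * ∑ x ∈ K, μ x := h17.trans h18
    have h23 : M * ∑ x ∈ K, μ x ≤ (M * ∑ x ∈ K, μ x) * (q - 1) :=
      le_mul_of_one_le_right h19 (by linarith)
    linarith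
  linarith

end

end Pool.Agent.Lib.MP_acd470_co
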