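import Mathlib

/-!
# The quadratic minimiser
-/

set_option autoImplicit false
set_option linter.unusedSectionVars false

namespace Pool.Agent.Lib.MP_acd470_co

open Finset

section

variable {V : Type*} [Fintype V] [DecidableEq V]

/-- For every nonempty set `S` and `M > 0` there is a spread-out probability distribution `μ` on
`S` such that the average cost to every vertex of `S` is at least the self-average up to
`M * μ x`. -/
theorem exists_mu (z : V → V → ℝ) (hz0 : ∀ u v, 0 ≤ z u v) (hzs : ∀ u v, z u v = z v u)
    (Zc : ℝ) (hzZ : ∀ u v, z u v ≤ Zc) (S : Finset V) (hS : S.Nonempty) (M : ℝ) (hM : 0 < M) :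
    ∃ μ : V → ℝ, (∀ v, 0 ≤ μ v) ∧ (∀ v, v ∉ S → μ v = 0) ∧ (∑ v, μ v = 1) ∧
      (∀ v, μ v ≤ Zc / M + 1 / (S.card : ℝ)) ∧
      (∀ x ∈ S, (∑ v, μ v * ∑ u, μ u * z u v) ≤ (∑ u, μ u * z u x) + M * μ x) := by
  classical
  obtain ⟨x₀, hx₀⟩ := hS
  have hcard : (0 : ℝ) < S.card := by exact_mod_cast Finset.card_pos.mpr ⟨x₀, hx₀⟩
  have hZ0 : 0 ≤ Zc := (hz0 x₀ x₀).trans (hzZ x₀ x₀)
  set B : (V → ℝ) → (V → ℝ) → ℝ := fun μ ν => ∑ v, ν v * ((∑ u, μ u * z u v) + M * μ v) with hB
  set D : Set (V → ℝ) := stdSimplex ℝ V ∩ {μ | ∀ v, v ∉ S → μ v = 0} with hD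
  have hDc : IsCompact D := by
    apply (isCompact_stdSimplex ℝ V).inter_right
    have : {μ : V → ℝ | ∀ v, v ∉ S → μ v = 0} = ⋂ v ∈ {v | v ∉ S}, {μ : V → ℝ | μ v = 0} := by
      ext μ; simp
    rw [this]
    apply isClosed_biInter
    intro v _
    exact isClosed_eq (continuous_apply v) continuous_const
  set unif : V → ℝ := fun v => if v ∈ S then 1 / (S.card : ℝ) else 0 with hunif
  have hunif_sum : ∑ v, unif v = 1 := by
    simp only [hunif]
    rw [Finset.sum_ite_mem, Finset.univ_inter, Finset.sum_const, nsmul_eq_mul]
    field_simp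
  have hunif_nn : ∀ v, 0 ≤ unif v := by
    intro v; simp only [hunif]; split_ifs <;> positivity
  have hDne : D.Nonempty := by
    refine ⟨unif, ⟨hunif_nn, hunif_sum⟩, ?_⟩
    intro v hv
    simp only [hunif, if_neg hv]
  have hcont : ContinuousOn (fun μ : V → ℝ => B μ μ) D := by
    apply Continuous.continuousOn
    simp only [hB]
    fun_prop
  obtain ⟨μ, hμD, hμmin⟩ := hDc.exists_isMinOn hDne hcont
  have hμ0 : ∀ v, 0 ≤ μ v := hμD.1.1
  have hμ1 : ∑ v, μ v = 1 := hμD.1.2
  have hμS : ∀ v, v ∉ S → μ v = 0 := hμD.2
  set Q : ℝ := B μ μ with hQ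
  have hmin : ∀ ν ∈ D, Q ≤ B ν ν := fun ν hν => hμmin hν
  set b : V → ℝ := fun x => (∑ u, μ u * z u x) + M * μ x with hb
  -- first order condition
  have hkkt : ∀ x ∈ S, Q ≤ b x := by
    intro x hx
    by_contra hlt
    push Not at hlt
    set e : ℝ := z x x + M with he
    set δ : V → ℝ := fun v => if v = x then 1 else 0 with hδ
    have hexp : ∀ s : ℝ, B (fun v => (1 - s) * μ v + s * δ v) (fun v => (1 - s) * μ v + s * δ v)
        = (1 - s) ^ 2 * Q + 2 * s * (1 - s) * b x + s ^ 2 * e := by
      intro s
      have h1 : ∀ v, ∑ u, ((1 - s) * μ u + s * δ u) * z u v =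
          (1 - s) * (∑ u, μ u * z u v) + s * z x v := by
        intro v
        calc ∑ u, ((1 - s) * μ u + s * δ u) * z u v
            = ∑ u, ((1 - s) * (μ u * z u v) + s * (if u = x then z u v else 0)) := by
              apply Finset.sum_congr rfl
              intro u _
              simp only [hδ]
              split_ifs <;> ring
          _ = _ := by
              rw [Finset.sum_add_distrib, ← Finset.mul_sum, ← Finset.mul_sum,
                Finset.sum_ite_eq' Finset.univ x (fun u => z u v)]
              simp
      have h2 : ∀ g : V → ℝ, ∑ v, δ v * g v = g x := by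
        intro g
        simp only [hδ]
        calc ∑ v, (if v = x then 1 else 0) * g v = ∑ v, if v = x then g v else 0 := by
              apply Finset.sum_congr rfl; intro v _; split_ifs <;> ring
          _ = g x := by rw [Finset.sum_ite_eq' Finset.univ x g]; simp
      have h3 : ∀ g : V → ℝ, ∑ v, ((1 - s) * μ v + s * δ v) * g v =
          (1 - s) * (∑ v, μ v * g v) + s * g x := by
        intro g
        rw [← h2 g, Finset.mul_sum, Finset.mul_sum, ← Finset.sum_add_distrib]
        apply Finset.sum_congr rfl
        intro v _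
        ring
      have h4 : ∑ v, μ v * ((1 - s) * (∑ u, μ u * z u v) + s * z x v +
          M * ((1 - s) * μ v + s * δ v)) = (1 - s) * Q + s * b x := by
        calc ∑ v, μ v * ((1 - s) * (∑ u, μ u * z u v) + s * z x v +
              M * ((1 - s) * μ v + s * δ v))
            = ∑ v, ((1 - s) * (μ v * ((∑ u, μ u * z u v) + M * μ v)) +
                (s * (μ v * z v x) + s * (δ v * (M * μ v)))) := by
              apply Finset.sum_congr rfl
              intro v _
              rw [hzs x v]
              ring
          _ = _ := by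
              rw [Finset.sum_add_distrib, Finset.sum_add_distrib, ← Finset.mul_sum,
                ← Finset.mul_sum, ← Finset.mul_sum, h2 (fun v => M * μ v)]
              simp only [hQ, hB, hb]
              ring
      simp only [hB]
      rw [h3]
      simp only [h1]
      rw [h4]
      have h5 : δ x = 1 := by simp [hδ]
      rw [h5]
      simp only [hb, he]
      ring
    have hin : ∀ s : ℝ, 0 ≤ s → s ≤ 1 → (fun v => (1 - s) * μ v + s * δ v) ∈ D := by
      intro s hs0 hs1
      refine ⟨⟨?_, ?_⟩, ?_⟩
      · intro v
        have h1 : (0 : ℝ) ≤ δ v := by simp only [hδ]; split_ifs <;> norm_num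
        have h2 := mul_nonneg (by linarith : 0 ≤ 1 - s) (hμ0 v)
        have h3 := mul_nonneg hs0 h1
        show 0 ≤ (1 - s) * μ v + s * δ v
        linarith
      · rw [Finset.sum_add_distrib, ← Finset.mul_sum, ← Finset.mul_sum, hμ1]
        simp only [hδ]
        rw [Finset.sum_ite_eq' Finset.univ x (fun _ => (1 : ℝ))]
        simp
      · intro v hv
        show (1 - s) * μ v + s * δ v = 0
        have h1 : δ v = 0 := by
          simp only [hδ]
          rw [if_neg]
          rintro rfl
          exact hv hx
        rw [h1, hμS v hv]; ring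
    set C : ℝ := |Q - 2 * b x + e| + 1 with hC
    have hCpos : 0 < C := by positivity
    set s : ℝ := min 1 ((Q - b x) / C) with hs
    have hspos : 0 < s := by
      rw [hs]
      apply lt_min one_pos
      exact div_pos (by linarith) hCpos
    have hs1 : s ≤ 1 := min_le_left _ _
    have hs2 : s * C ≤ Q - b x := by
      have : s ≤ (Q - b x) / C := min_le_right _ _
      rwa [le_div_iff₀ hCpos] at this
    have h6 := hmin _ (hin s hspos.le hs1)
    rw [hexp] at h6
    have h7 : s * (Q - 2 * b x + e) ≤ s * C := by
      apply mul_le_mul_of_nonneg_left _ hspos.le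
      rw [hC]
      linarith [le_abs_self (Q - 2 * b x + e)]
    have h8 : 0 ≤ s * (-2 * (Q - b x) + s * (Q - 2 * b x + e)) := by
      nlinarith
    have h9 : -2 * (Q - b x) + s * (Q - 2 * b x + e) < 0 := by
      linarith
    nlinarith [mul_pos hspos (by linarith : 0 < -(-2 * (Q - b x) + s * (Q - 2 * b x + e)))]
  have hA : ∑ v, μ v * ∑ u, μ u * z u v ≤ Q := by
    simp only [hQ, hB]
    apply Finset.sum_le_sum
    intro v _
    apply mul_le_mul_of_nonneg_left _ (hμ0 v)
    have := mul_nonneg hM.le (hμ0 v)
    linarith
  refine ⟨μ, hμ0, hμS, hμ1, ?_, ?_⟩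
  · intro x
    by_cases hx0 : μ x = 0
    · rw [hx0]; positivity
    · have hxS : x ∈ S := by
        by_contra hx; exact hx0 (hμS x hx)
      have hsum : ∑ v, μ v * (b v - Q) = 0 := by
        have : ∑ v, μ v * (b v - Q) = ∑ v, μ v * b v - (∑ v, μ v) * Q := by
          rw [Finset.sum_mul, ← Finset.sum_sub_distrib]
          apply Finset.sum_congr rfl
          intro v _
          ring
        rw [this, hμ1, one_mul]
        simp only [hQ, hB, hb]
        ring
      have hterm : ∀ v ∈ Finset.univ, 0 ≤ μ v * (b v - Q) := by
        intro v _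
        by_cases hv : v ∈ S
        · exact mul_nonneg (hμ0 v) (by linarith [hkkt v hv])
        · rw [hμS v hv, zero_mul]
      have h1 := (Finset.sum_eq_zero_iff_of_nonneg hterm).mp hsum x (Finset.mem_univ x)
      have h2 : b x = Q := by
        rcases mul_eq_zero.mp h1 with h | h
        · exact absurd h hx0
        · linarith
      have h3 : 0 ≤ ∑ u, μ u * z u x := Finset.sum_nonneg fun u _ => mul_nonneg (hμ0 u) (hz0 u x)
      have h4 : M * μ x ≤ Q := by simp only [hb] at h2; linarith
      have h5 : Q ≤ Zc + M / S.card := by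
        have hu : unif ∈ D := ⟨⟨hunif_nn, hunif_sum⟩, fun v hv => by simp only [hunif, if_neg hv]⟩
        refine (hmin unif hu).trans ?_
        simp only [hB]
        calc ∑ v, unif v * ((∑ u, unif u * z u v) + M * unif v)
            ≤ ∑ v, unif v * (Zc + M / S.card) := by
              apply Finset.sum_le_sum
              intro v _
              apply mul_le_mul_of_nonneg_left _ (hunif_nn v)
              have h6 : ∑ u, unif u * z u v ≤ Zc := by
                calc ∑ u, unif u * z u v ≤ ∑ u, unif u * Zc :=
                      Finset.sum_le_sum fun u _ => mul_le_mul_of_nonneg_left (hzZ u v) (hunif_nn u)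
                  _ = Zc := by rw [← Finset.sum_mul, hunif_sum, one_mul]
              have h7 : M * unif v ≤ M / S.card := by
                rw [div_eq_mul_one_div]
                apply mul_le_mul_of_nonneg_left _ hM.le
                simp only [hunif]
                split_ifs
                · exact le_refl _
                · positivity
              linarith
          _ = Zc + M / S.card := by rw [← Finset.sum_mul, hunif_sum, one_mul]
      have h6 : M * μ x ≤ Zc + M / S.card := h4.trans h5
      have h7 : μ x ≤ (Zc + M / S.card) / M := by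
        rw [le_div_iff₀ hM]; linarith
      refine h7.trans (le_of_eq ?_)
      field_simp
  · intro x hx
    exact hA.trans (hkkt x hx)

end

end Pool.Agent.Lib.MP_acd470_co
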