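import Mathlib
import Pool.Agent.Lib.MP_acd470_co.KIneq
import Pool.Agent.Lib.MP_acd470_co.Mu

/-!
# The core lemma
-/

set_option autoImplicit false
set_option linter.unusedSectionVars false

namespace Pool.Agent.Lib.MP_acd470_co

open Finset

lemma core_aux1 {r ε : ℝ} (hr : 2 ≤ r) (hε : 0 < ε) : (r - 1) * (1 - ε / 10) ≤ r - 1 := by
  nlinarith

lemma core_aux2 {r ε : ℝ} (hr : 2 ≤ r) (hε1 : ε ≤ 1) :
    (1 - 1 / r) * (1 - ε / 10) ≤ 1 - ε / 10 := by
  have h1 : 0 < 1 / r := by positivity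
  nlinarith

lemma core_aux3 {r ε n : ℝ} (hr : 2 ≤ r) (hε : 0 < ε) (hn : 0 < n) :
    (1 - 1 / r) * (1 - ε / 10) * n ≥ (1 - 1 / r) * n - ε / 10 * n := by
  have h1 : 0 < 1 / r := by positivity
  have h2 : 0 ≤ 1 / r * (ε / 10) * n := by positivity
  nlinarith

section

variable {V : Type*} [Fintype V] [DecidableEq V]

/-- The core lemma: if all replacements are bad then there is a distribution on `S` of small
self-average. -/
theorem core_lemma {r : ℕ} (hr : 2 ≤ r) (ε : ℝ) (hε : 0 < ε) (z : V → V → ℝ) (Zc : ℝ)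
    (hz : IsCost Zc z) (X S Sp : Finset V) (hSne : S.Nonempty) (hSX : S ⊆ X)
    (hdeg : ∀ v ∈ X, ∑ u ∈ X, z v u ≤ (1 - 1 / (r : ℝ) - ε) * X.card)
    (hgap : ((Sp \ S).card : ℝ) ≤ ε / (10 * r) * X.card)
    (M : Finset (Finset V)) (hM : IsMatching r z X M)
    (he : (((X \ cov M) \ S).card : ℝ) ≤ ε / 10 * X.card)
    (cl : V → Finset V) (c : ℕ) (hcl : ∀ v, (cl v).card ≤ c) (hself : ∀ v, v ∈ cl v)
    (b : ℕ)
    (hbad : ∀ K ∈ M, Disjoint K (Sp \ S) → ∀ p ∈ K \ Sp,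
      ∃ Forb : Finset V, Forb.card ≤ b ∧ BadRepl r z cl S K p Forb)
    (β : ℝ) (hβ : Zc / (ε / 10 * X.card) + 1 / (S.card : ℝ) ≤ β)
    (hsmall : (r : ℝ) / 2 * (r * (b + r) * β + r ^ 2 * c * β) ≤ ε / 10) :
    ∃ μ : V → ℝ, (∀ v, 0 ≤ μ v) ∧ (∀ v, v ∉ S → μ v = 0) ∧ (∑ v, μ v = 1) ∧
      (∀ v, μ v ≤ β) ∧
      (∀ x ∈ S, (∑ v, μ v * ∑ u, μ u * z u v) ≤
        (∑ u, μ u * z u x) + (ε / 10 * X.card) * μ x) ∧
      (∑ v, μ v * ∑ u, μ u * z u v) < 1 - ε / 10 := by
  classical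
  have hXne : X.Nonempty := hSne.mono hSX
  have hn : (0 : ℝ) < X.card := by exact_mod_cast Finset.card_pos.mpr hXne
  have hr2 : (2 : ℝ) ≤ r := by exact_mod_cast hr
  have hM0 : 0 < ε / 10 * (X.card : ℝ) := by positivity
  have hr1' : 0 ≤ (r : ℝ) - 1 := by linarith only [hr2]
  obtain ⟨μ, hμ0, hμS, hμ1, hμb, hkkt⟩ := exists_mu z hz.nonneg hz.symm Zc hz.le S hSne
    (ε / 10 * X.card) hM0
  have hμβ : ∀ v, μ v ≤ β := fun v => (hμb v).trans hβ
  refine ⟨μ, hμ0, hμS, hμ1, hμβ, hkkt, ?_⟩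
  by_contra hA
  push Not at hA
  set a : V → ℝ := fun x => ∑ u, μ u * z u x with ha
  set A : ℝ := ∑ v, μ v * a v with hAdef
  set M₀ : ℝ := ε / 10 * (X.card : ℝ) with hM₀
  set err : ℝ := r * (b + r) * β + r ^ 2 * c * β with herr
  have ha0 : ∀ x, 0 ≤ a x := fun x => Finset.sum_nonneg fun u _ => mul_nonneg (hμ0 u) (hz.nonneg _ _)
  -- `ε ≤ 1`
  have hε1 : ε ≤ 1 := by
    obtain ⟨v, hv⟩ := hXne
    have h1 := hdeg v hv
    have h2 : 0 ≤ ∑ u ∈ X, z v u := Finset.sum_nonneg fun u _ => hz.nonneg _ _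
    have h3 : 0 ≤ (1 - 1 / (r : ℝ) - ε) * X.card := h2.trans h1
    have h4 : 0 ≤ 1 - 1 / (r : ℝ) - ε := by
      by_contra h; push Not at h
      exact absurd h3 (not_le.mpr (mul_neg_of_neg_of_pos h hn))
    have h5 : 0 < 1 / (r : ℝ) := by positivity
    linarith only [h4, h5]
  have herr0 : 0 ≤ err := by
    obtain ⟨x, hx⟩ := hSne
    have : 0 ≤ β := (hμ0 x).trans (hμβ x)
    rw [herr]; positivity
  set T : V → ℝ := fun v => if v ∈ Sp \ S then 1 else 0 with hT
  have hT0 : ∀ v, 0 ≤ T v := by intro v; simp only [hT]; split_ifs <;> norm_num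
  set F : V → ℝ := fun v => a v + M₀ * μ v + (r - 1) * T v with hF
  have hF0 : ∀ v, 0 ≤ F v := by
    intro v
    have h1 := ha0 v
    have h2 := mul_nonneg hM0.le (hμ0 v)
    have h3 : 0 ≤ ((r : ℝ) - 1) * T v := mul_nonneg hr1' (hT0 v)
    simp only [hF]; linarith only [h1, h2, h3]
  have hclique : ∀ K ∈ M, ((r : ℝ) - 1) * (1 - ε / 10) - (r : ℝ) ^ 2 / 2 * err ≤
      ∑ v ∈ K, F v := by
    intro K hK
    have hKg := hM.good K hK
    have hrr : 0 ≤ (r : ℝ) ^ 2 / 2 * err := by positivity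
    by_cases hdis : Disjoint K (Sp \ S)
    · have hP : K \ Sp ⊆ K := Finset.sdiff_subset
      have hZ : K \ (K \ Sp) ⊆ S := by
        intro v hv
        rw [Finset.mem_sdiff, Finset.mem_sdiff] at hv
        have h1 : v ∈ Sp := by
          by_contra h; exact hv.2 ⟨hv.1, h⟩
        by_contra h2
        exact (Finset.disjoint_left.mp hdis hv.1) (Finset.mem_sdiff.mpr ⟨h1, h2⟩)
      by_cases hq : 2 ≤ (K \ Sp).card
      · have hForb : ∃ Forb : V → Finset V, ∀ p ∈ K \ Sp, (Forb p).card ≤ b ∧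
            BadRepl r z cl S K p (Forb p) := by
          have h1 := hbad K hK hdis
          choose! Forb hF using h1
          exact ⟨Forb, hF⟩
        obtain ⟨Forb, hForb⟩ := hForb
        have h2 := clique_inequality z Zc hz K (K \ Sp) S hKg hP hZ hq μ hμ0 hμS hμ1 β hμβ M₀
          hM0.le hkkt cl c hcl hself b Forb (fun p hp => (hForb p hp).1) (fun p hp => (hForb p hp).2)
        have h3 : ∑ v ∈ K, F v = ∑ v ∈ K, a v + M₀ * ∑ v ∈ K, μ v + (r - 1) * ∑ v ∈ K, T v := by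
          simp only [hF]
          rw [Finset.sum_add_distrib, Finset.sum_add_distrib, Finset.mul_sum, Finset.mul_sum]
        have h4 : 0 ≤ ((r : ℝ) - 1) * ∑ v ∈ K, T v :=
          mul_nonneg hr1' (Finset.sum_nonneg fun v _ => hT0 v)
        have h5 : ((r : ℝ) - 1) * (1 - ε / 10) ≤ r := by
          have := core_aux1 hr2 hε
          linarith only [this]
        have h6 : (r : ℝ) - (r : ℝ) ^ 2 / 2 * err - M₀ * ∑ x ∈ K, μ x ≤ ∑ x ∈ K, a x := h2
        rw [h3]
        linarith only [h4, h5, h6]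
      · push Not at hq
        have h1 : ∑ v ∈ K \ (K \ Sp), F v ≤ ∑ v ∈ K, F v :=
          Finset.sum_le_sum_of_subset_of_nonneg Finset.sdiff_subset (fun v _ _ => hF0 v)
        have h2 : ∑ v ∈ K \ (K \ Sp), (1 - ε / 10) ≤ ∑ v ∈ K \ (K \ Sp), F v := by
          apply Finset.sum_le_sum
          intro v hv
          have h3 := hkkt v (hZ hv)
          have h4 : 0 ≤ ((r : ℝ) - 1) * T v := mul_nonneg hr1' (hT0 v)
          simp only [hF]
          linarith only [h3, h4, hA]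
        rw [Finset.sum_const, nsmul_eq_mul] at h2
        have h3 : ((r : ℝ) - 1) ≤ ((K \ (K \ Sp)).card : ℝ) := by
          have h4 := Finset.card_sdiff_add_card_eq_card hP
          rw [hKg.1] at h4
          have h5 : r ≤ (K \ (K \ Sp)).card + 1 := by omega
          have h6 : (r : ℝ) ≤ (K \ (K \ Sp)).card + 1 := by exact_mod_cast h5
          linarith only [h6]
        have h4 : ((r : ℝ) - 1) * (1 - ε / 10) ≤ ((K \ (K \ Sp)).card : ℝ) * (1 - ε / 10) :=
          mul_le_mul_of_nonneg_right h3 (by linarith only [hε1, hε])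
        linarith only [h1, h2, h4, hrr]
    · rw [Finset.not_disjoint_iff] at hdis
      obtain ⟨v, hvK, hvT⟩ := hdis
      have h1 : F v ≤ ∑ v ∈ K, F v := Finset.single_le_sum (f := F) (fun v _ => hF0 v) hvK
      have h2 : ((r : ℝ) - 1) ≤ F v := by
        have h3 : T v = 1 := by simp only [hT]; rw [if_pos hvT]
        have h4 := ha0 v
        have h5 := mul_nonneg hM0.le (hμ0 v)
        simp only [hF]; rw [h3]; linarith only [h4, h5]
      have h6 : ((r : ℝ) - 1) * (1 - ε / 10) ≤ r - 1 := core_aux1 hr2 hε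
      linarith only [h1, h2, h6, hrr]
  have hunc : ∀ v ∈ X \ cov M, (1 - 1 / (r : ℝ)) * (1 - ε / 10) ≤
      F v + (if v ∈ S then 0 else 1) := by
    intro v _
    have h3 : (1 - 1 / (r : ℝ)) * (1 - ε / 10) ≤ 1 - ε / 10 := core_aux2 hr2 hε1
    by_cases hv : v ∈ S
    · rw [if_pos hv]
      have h4 := hkkt v hv
      have h5 : 0 ≤ ((r : ℝ) - 1) * T v := mul_nonneg hr1' (hT0 v)
      simp only [hF]; linarith only [h3, h4, h5, hA]
    · rw [if_neg hv]
      have := hF0 v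
      linarith only [this, h3, hε]
  -- total lower bound
  have hcovX := hM.cov_sub
  have hsum1 : ∑ v ∈ X, F v = ∑ K ∈ M, ∑ v ∈ K, F v + ∑ v ∈ X \ cov M, F v := by
    rw [← sum_cov hM, ← Finset.sum_sdiff hcovX]; ring
  have hlow1 : (M.card : ℝ) * (((r : ℝ) - 1) * (1 - ε / 10) - (r : ℝ) ^ 2 / 2 * err) ≤
      ∑ K ∈ M, ∑ v ∈ K, F v := by
    have := Finset.sum_le_sum hclique
    rwa [Finset.sum_const, nsmul_eq_mul] at this
  have hlow2 : ((X \ cov M).card : ℝ) * ((1 - 1 / (r : ℝ)) * (1 - ε / 10)) -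
      (((X \ cov M) \ S).card : ℝ) ≤ ∑ v ∈ X \ cov M, F v := by
    have h1 := Finset.sum_le_sum hunc
    rw [Finset.sum_const, nsmul_eq_mul, Finset.sum_add_distrib] at h1
    have h2 : ∑ v ∈ X \ cov M, (if v ∈ S then (0 : ℝ) else 1) = ((X \ cov M) \ S).card := by
      rw [← Finset.sum_filter_add_sum_filter_not (X \ cov M) (fun v => v ∈ S)]
      have h3 : ∑ v ∈ (X \ cov M).filter (fun v => v ∈ S), (if v ∈ S then (0 : ℝ) else 1) = 0 := by
        apply Finset.sum_eq_zero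
        intro v hv
        rw [if_pos (Finset.mem_filter.mp hv).2]
      have h4 : ∑ v ∈ (X \ cov M).filter (fun v => ¬ v ∈ S), (if v ∈ S then (0 : ℝ) else 1) =
          ((X \ cov M) \ S).card := by
        rw [Finset.sum_congr rfl (g := fun _ => (1 : ℝ))]
        · rw [Finset.sum_const, nsmul_eq_mul, mul_one]
          congr 2
          ext v; simp
        · intro v hv
          rw [if_neg (Finset.mem_filter.mp hv).2]
      rw [h3, h4, zero_add]
    rw [h2] at h1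
    linarith only [h1]
  have hcardX : (X.card : ℝ) = r * M.card + (X \ cov M).card := by
    have h1 := Finset.card_sdiff_add_card_eq_card hcovX
    rw [hM.card_cov] at h1
    have h2 : X.card = r * M.card + (X \ cov M).card := by omega
    exact_mod_cast h2
  -- total upper bound
  have hup : ∑ v ∈ X, a v ≤ (1 - 1 / (r : ℝ) - ε) * X.card := by
    have h1 : ∑ v ∈ X, a v = ∑ u, μ u * ∑ v ∈ X, z u v := by
      simp only [ha]
      rw [Finset.sum_comm]
      apply Finset.sum_congr rfl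
      intro u _
      rw [Finset.mul_sum]
    rw [h1]
    calc ∑ u, μ u * ∑ v ∈ X, z u v ≤ ∑ u, μ u * ((1 - 1 / (r : ℝ) - ε) * X.card) := by
          apply Finset.sum_le_sum
          intro u _
          by_cases hu : u ∈ S
          · exact mul_le_mul_of_nonneg_left (hdeg u (hSX hu)) (hμ0 u)
          · rw [hμS u hu, zero_mul, zero_mul]
      _ = _ := by rw [← Finset.sum_mul, hμ1, one_mul]
  have hμX : ∑ v ∈ X, μ v ≤ 1 := by
    rw [← hμ1]
    exact Finset.sum_le_sum_of_subset_of_nonneg (Finset.subset_univ _) (fun v _ _ => hμ0 v)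
  have hTX : ∑ v ∈ X, T v ≤ ((Sp \ S).card : ℝ) := by
    simp only [hT]
    rw [Finset.sum_ite_mem, Finset.sum_const, nsmul_eq_mul, mul_one]
    exact_mod_cast Finset.card_le_card Finset.inter_subset_right
  have hFX : ∑ v ∈ X, F v = ∑ v ∈ X, a v + M₀ * ∑ v ∈ X, μ v + (r - 1) * ∑ v ∈ X, T v := by
    simp only [hF]
    rw [Finset.sum_add_distrib, Finset.sum_add_distrib, Finset.mul_sum, Finset.mul_sum]
  have e1 : M₀ * ∑ v ∈ X, μ v ≤ M₀ := by
    calc M₀ * ∑ v ∈ X, μ v ≤ M₀ * 1 := mul_le_mul_of_nonneg_left hμX hM0.le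
      _ = M₀ := mul_one _
  have e2 : ((r : ℝ) - 1) * ∑ v ∈ X, T v ≤ ε / 10 * X.card := by
    calc ((r : ℝ) - 1) * ∑ v ∈ X, T v ≤ (r - 1) * (ε / (10 * r) * X.card) :=
          mul_le_mul_of_nonneg_left (hTX.trans hgap) hr1'
      _ ≤ r * (ε / (10 * r) * X.card) := by
          apply mul_le_mul_of_nonneg_right (sub_le_self _ zero_le_one); positivity
      _ = ε / 10 * X.card := by field_simp
  have e3 : (M.card : ℝ) * ((r : ℝ) ^ 2 / 2 * err) ≤ ε / 10 * X.card := by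
    have h1 : (r : ℝ) * M.card ≤ X.card := by
      rw [hcardX]
      have : (0 : ℝ) ≤ (X \ cov M).card := by positivity
      linarith only [this]
    calc (M.card : ℝ) * ((r : ℝ) ^ 2 / 2 * err) = (r * M.card) * (r / 2 * err) := by ring
      _ ≤ X.card * (ε / 10) := mul_le_mul h1 hsmall (by positivity) (by positivity)
      _ = _ := by ring
  have e4 : (M.card : ℝ) * (((r : ℝ) - 1) * (1 - ε / 10)) +
      ((X \ cov M).card : ℝ) * ((1 - 1 / (r : ℝ)) * (1 - ε / 10)) =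
      (1 - 1 / (r : ℝ)) * (1 - ε / 10) * X.card := by
    rw [hcardX]; field_simp
  have e5 : (1 - 1 / (r : ℝ)) * (1 - ε / 10) * X.card ≥
      (1 - 1 / (r : ℝ)) * X.card - ε / 10 * X.card := core_aux3 hr2 hε hn
  have e6 : (M.card : ℝ) * (((r : ℝ) - 1) * (1 - ε / 10) - (r : ℝ) ^ 2 / 2 * err) =
      (M.card : ℝ) * (((r : ℝ) - 1) * (1 - ε / 10)) - (M.card : ℝ) * ((r : ℝ) ^ 2 / 2 * err) := by
    ring
  have e7 : (1 - 1 / (r : ℝ) - ε) * (X.card : ℝ) =
    (1 - 1 / (r : ℝ)) * X.card - ε * X.card := by ring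
  have e8 : 0 < ε * (X.card : ℝ) := by positivity
  have e9 : ε / 10 * (X.card : ℝ) = ε * X.card / 10 := by ring
  rw [hFX] at hsum1
  rw [e6] at hlow1
  rw [e7] at hup
  rw [e9] at e2 e3 e5
  rw [hM₀, e9] at e1 he hsum1
  linarith only [hsum1, hlow1, hlow2, hup, he, e1, e2, e3, e4, e5, e8]

end

end Pool.Agent.Lib.MP_acd470_co
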