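import Mathlib
import Pool.Agent.Lib.MP_acd470_co.Basic
import Pool.Agent.Lib.MP_acd470_co.Prod

/-!
# Finding good sets by averaging
-/

set_option autoImplicit false
set_option linter.unusedSectionVars false

namespace Pool.Agent.Lib.MP_acd470_co

open Finset

section

variable {V : Type*} [Fintype V] [DecidableEq V]

lemma cost_insert (z : V → V → ℝ) (hzs : ∀ u v, z u v = z v u) (hzd : ∀ v, z v v = 0)
    {p : V} {W : Finset V} (hp : p ∉ W) :
    cost z (insert p W) = cost z W + 2 * ∑ w ∈ W, z p w := by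
  unfold cost
  rw [Finset.sum_insert hp, Finset.sum_insert hp, hzd]
  have h1 : ∑ u ∈ W, ∑ v ∈ insert p W, z u v = ∑ u ∈ W, (z p u + ∑ v ∈ W, z u v) := by
    apply Finset.sum_congr rfl
    intro u _
    rw [Finset.sum_insert hp, hzs u p]
  rw [h1, Finset.sum_add_distrib]
  ring

/-- The pair sum for identically distributed coordinates. -/
lemma PE_iid_pair {ι : Type*} [Fintype ι] [DecidableEq ι] (μ : V → ℝ) (hμ : ∑ v, μ v = 1)
    (z : V → V → ℝ) (hzd : ∀ v, z v v = 0) (hzs : ∀ u v, z u v = z v u) :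
    PE (fun _ : ι => μ) (fun Y => ∑ i, ∑ j, z (Y i) (Y j)) =
      (Fintype.card ι : ℝ) * (Fintype.card ι - 1) * (∑ v, μ v * ∑ u, μ u * z u v) := by
  set A : ℝ := ∑ v, μ v * ∑ u, μ u * z u v with hA
  rw [PE_sum]
  have h1 : ∀ i : ι, PE (fun _ : ι => μ) (fun Y => ∑ j, z (Y i) (Y j)) =
      ((Fintype.card ι : ℝ) - 1) * A := by
    intro i
    rw [PE_sum]
    have h2 : ∀ j ∈ (Finset.univ : Finset ι), PE (fun _ : ι => μ) (fun Y => z (Y i) (Y j)) =
        A - (if j = i then A else 0) := by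
      intro j _
      by_cases hij : j = i
      · subst hij
        rw [if_pos rfl]
        have : (fun Y : ι → V => z (Y j) (Y j)) = fun _ => 0 := by funext Y; rw [hzd]
        rw [this, PE_const _ (fun _ => hμ)]; ring
      · rw [if_neg hij, sub_zero, PE_pair _ (fun _ => hμ) (Ne.symm hij)]
        rw [hA]
        apply Finset.sum_congr rfl
        intro u _
        rw [Finset.mul_sum]
        apply Finset.sum_congr rfl
        intro v _
        rw [hzs u v]; ring
    rw [Finset.sum_congr rfl h2, Finset.sum_sub_distrib, Finset.sum_ite_eq' Finset.univ i]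
    simp only [Finset.mem_univ, if_true, Finset.sum_const, nsmul_eq_mul, Finset.card_univ]
    ring
  rw [Finset.sum_congr rfl (fun i _ => h1 i), Finset.sum_const, nsmul_eq_mul, Finset.card_univ]
  ring

lemma PE_iid_single {ι : Type*} [Fintype ι] [DecidableEq ι] (μ : V → ℝ) (hμ : ∑ v, μ v = 1)
    (z : V → V → ℝ) (hzs : ∀ u v, z u v = z v u) (k : V) :
    PE (fun _ : ι => μ) (fun Y => ∑ i, z k (Y i)) =
      (Fintype.card ι : ℝ) * (∑ u, μ u * z u k) := by
  rw [PE_sum]
  have h1 : ∀ i : ι, PE (fun _ : ι => μ) (fun Y => z k (Y i)) = ∑ u, μ u * z u k := by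
    intro i
    rw [PE_single (fun _ : ι => μ) (fun _ => hμ) i (fun v => z k v)]
    apply Finset.sum_congr rfl
    intro u _
    rw [hzs k u]
  rw [Finset.sum_congr rfl (fun i _ => h1 i), Finset.sum_const, nsmul_eq_mul, Finset.card_univ]

/-- Structure of an allowed sample. -/
lemma allowed_image {ι : Type*} [Fintype ι] [DecidableEq ι] {S Forb : Finset V}
    {cl : V → Finset V} (hself : ∀ v, v ∈ cl v) {Y : ι → V} (h1 : ∀ i, Y i ∈ S)
    (h2 : ∀ i, Y i ∉ Forb) (h3 : ∀ i j, i ≠ j → Y j ∉ cl (Y i)) :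
    Function.Injective Y ∧ Finset.univ.image Y ⊆ S ∧
      (Finset.univ.image Y).card = Fintype.card ι ∧ Disjoint (Finset.univ.image Y) Forb ∧
      (∀ w ∈ Finset.univ.image Y, ∀ w' ∈ Finset.univ.image Y, w ≠ w' → w' ∉ cl w) := by
  have hinj : Function.Injective Y := by
    intro i j hij
    by_contra hne
    exact h3 i j hne (by rw [← hij]; exact hself _)
  refine ⟨hinj, ?_, ?_, ?_, ?_⟩
  · intro v hv
    rw [Finset.mem_image] at hv
    obtain ⟨i, _, rfl⟩ := hv
    exact h1 i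
  · rw [Finset.card_image_of_injective _ hinj, Finset.card_univ]
  · rw [Finset.disjoint_left]
    intro v hv
    rw [Finset.mem_image] at hv
    obtain ⟨i, _, rfl⟩ := hv
    exact h2 i
  · intro w hw w' hw' hne
    rw [Finset.mem_image] at hw hw'
    obtain ⟨i, _, rfl⟩ := hw
    obtain ⟨j, _, rfl⟩ := hw'
    exact h3 i j (fun h => hne (by rw [h]))

/-- If the self-average of `μ` is less than `1` we find a good allowed set in `S`. -/
theorem exists_good_of_mu {r : ℕ} (hr : 2 ≤ r) (z : V → V → ℝ) (Zc : ℝ) (hz : IsCost Zc z)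
    (S : Finset V) (μ : V → ℝ) (hμ0 : ∀ v, 0 ≤ μ v) (hμS : ∀ v, v ∉ S → μ v = 0)
    (hμ : ∑ v, μ v = 1) (β : ℝ) (hβ : ∀ v, μ v ≤ β)
    (Forb : Finset V) (cl : V → Finset V) (c : ℕ) (hcl : ∀ v, (cl v).card ≤ c)
    (hself : ∀ v, v ∈ cl v)
    (hA : (∑ v, μ v * ∑ u, μ u * z u v) < 1 - (r * Forb.card * β + r ^ 2 * c * β)) :
    ∃ W : Finset V, W ⊆ S ∧ Good r z W ∧ Disjoint W Forb ∧
      ∀ w ∈ W, ∀ w' ∈ W, w ≠ w' → w' ∉ cl w := by
  classical
  by_contra hno
  push Not at hno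
  have hr2 : (2 : ℝ) ≤ r := by exact_mod_cast hr
  have hR : (0 : ℝ) ≤ (r : ℝ) * (r - 1) := by nlinarith
  have hβ0 : 0 ≤ β := by
    by_contra hneg
    push Not at hneg
    have : ∑ v, μ v = 0 := Finset.sum_eq_zero fun v _ => by
      have h1 := hμ0 v
      have h2 := hβ v
      linarith
    linarith
  have h := average_lower_gen (ι := Fin r) (fun _ => μ) (fun _ v => hμ0 v) (fun _ => hμ)
    (fun _ _ => True) β hβ0 (fun _ v _ => hβ v) Forb cl c hcl
    (fun Y => ∑ i, ∑ j, z (Y i) (Y j))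
    (fun Y => Finset.sum_nonneg fun i _ => Finset.sum_nonneg fun j _ => hz.nonneg _ _)
    ((r : ℝ) * (r - 1)) hR (by
      intro Y h1 h2 h3
      have h1' : ∀ i, Y i ∈ S := by
        intro i
        by_contra h
        exact h1 i (hμS _ h)
      obtain ⟨hinj, hsub, hcard, hdis, hclo⟩ := allowed_image hself h1' (fun i => h2 i trivial)
        (fun i j hij => h3 i j hij trivial trivial)
      rw [← cost_image z Y hinj]
      by_contra hlt
      push Not at hlt
      rw [Fintype.card_fin] at hcard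
      obtain ⟨w, hw, w', hw', hne, hmem⟩ := hno _ hsub ⟨hcard, hlt.le⟩ hdis
      exact hclo w hw w' hw' hne hmem)
  rw [PE_iid_pair μ hμ z hz.diag hz.symm, Fintype.card_fin] at h
  have hRpos : (0 : ℝ) < (r : ℝ) * (r - 1) := by nlinarith
  have h4 := le_of_mul_le_mul_left h hRpos
  linarith

/-- Extending a vertex `p` to a good set using `μ`. -/
theorem exists_extension_of_mu {r : ℕ} (hr : 2 ≤ r) (z : V → V → ℝ) (Zc : ℝ) (hz : IsCost Zc z)
    (S : Finset V) (μ : V → ℝ) (hμ0 : ∀ v, 0 ≤ μ v) (hμS : ∀ v, v ∉ S → μ v = 0)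
    (hμ : ∑ v, μ v = 1) (β : ℝ) (hβ : ∀ v, μ v ≤ β)
    (Forb : Finset V) (cl : V → Finset V) (c : ℕ) (hcl : ∀ v, (cl v).card ≤ c)
    (hself : ∀ v, v ∈ cl v) (p : V)
    (hA : ((r : ℝ) - 2) * (∑ v, μ v * ∑ u, μ u * z u v) + 2 * (∑ u, μ u * z u p) <
      r * (1 - (r * (Forb.card + 1) * β + r ^ 2 * c * β))) :
    ∃ W : Finset V, W ⊆ S ∧ W.card = r - 1 ∧ p ∉ W ∧ Good r z (insert p W) ∧ Disjoint W Forb ∧
      ∀ w ∈ W, ∀ w' ∈ W, w ≠ w' → w' ∉ cl w := by
  classical
  by_contra hno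
  push Not at hno
  have hr2 : (2 : ℝ) ≤ r := by exact_mod_cast hr
  have hR : (0 : ℝ) ≤ (r : ℝ) * (r - 1) := by nlinarith
  have hcast : ((r - 1 : ℕ) : ℝ) = (r : ℝ) - 1 := by
    rw [Nat.cast_sub (by omega)]; simp
  have hβ0 : 0 ≤ β := by
    by_contra hneg
    push Not at hneg
    have : ∑ v, μ v = 0 := Finset.sum_eq_zero fun v _ => by
      have h1 := hμ0 v
      have h2 := hβ v
      linarith
    linarith
  have h := average_lower_gen (ι := Fin (r - 1)) (fun _ => μ) (fun _ v => hμ0 v) (fun _ => hμ)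
    (fun _ _ => True) β hβ0 (fun _ v _ => hβ v) (insert p Forb) cl c hcl
    (fun Y => ∑ i, ∑ j, z (Y i) (Y j) + 2 * ∑ i, z p (Y i))
    (fun Y => add_nonneg (Finset.sum_nonneg fun i _ => Finset.sum_nonneg fun j _ => hz.nonneg _ _)
      (mul_nonneg zero_le_two (Finset.sum_nonneg fun i _ => hz.nonneg _ _)))
    ((r : ℝ) * (r - 1)) hR (by
      intro Y h1 h2 h3
      have h1' : ∀ i, Y i ∈ S := by
        intro i
        by_contra h
        exact h1 i (hμS _ h)
      obtain ⟨hinj, hsub, hcard, hdis, hclo⟩ := allowed_image hself h1' (fun i => h2 i trivial)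
        (fun i j hij => h3 i j hij trivial trivial)
      rw [Finset.disjoint_insert_right] at hdis
      rw [Fintype.card_fin] at hcard
      have hcost : cost z (insert p (Finset.univ.image Y)) =
          ∑ i, ∑ j, z (Y i) (Y j) + 2 * ∑ i, z p (Y i) := by
        rw [cost_insert z hz.symm hz.diag hdis.1, cost_image z Y hinj,
          Finset.sum_image (fun a _ b _ h => hinj h)]
      rw [← hcost]
      by_contra hlt
      push Not at hlt
      obtain ⟨w, hw, w', hw', hne, hmem⟩ := hno _ hsub hcard hdis.1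
        ⟨by rw [Finset.card_insert_of_notMem hdis.1, hcard]; omega, hlt.le⟩ hdis.2
      exact hclo w hw w' hw' hne hmem)
  rw [PE_add, PE_mul, PE_iid_pair μ hμ z hz.diag hz.symm, PE_iid_single μ hμ z hz.symm,
    Fintype.card_fin, hcast] at h
  have hRpos : (0 : ℝ) < (r : ℝ) - 1 := by linarith
  have h5 : (((r : ℝ) - 1) * ((r : ℝ) - 1 - 1) * (∑ v, μ v * ∑ u, μ u * z u v) +
      2 * (((r : ℝ) - 1) * ∑ u, μ u * z u p)) = ((r : ℝ) - 1) *
      (((r : ℝ) - 2) * (∑ v, μ v * ∑ u, μ u * z u v) + 2 * (∑ u, μ u * z u p)) := by ring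
  rw [h5] at h
  have h6 : (r : ℝ) * (r - 1) * (1 - ((r - 1) * ((insert p Forb).card : ℝ) * β +
      ((r : ℝ) - 1) ^ 2 * c * β)) = ((r : ℝ) - 1) * (r * (1 - ((r - 1) *
      ((insert p Forb).card : ℝ) * β + ((r : ℝ) - 1) ^ 2 * c * β))) := by ring
  rw [h6] at h
  have h4 := le_of_mul_le_mul_left h hRpos
  have h7 : ((insert p Forb).card : ℝ) ≤ Forb.card + 1 := by
    exact_mod_cast Finset.card_insert_le p Forb
  have h8 : ((r : ℝ) - 1) * ((insert p Forb).card : ℝ) * β ≤ r * (Forb.card + 1) * β := by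
    apply mul_le_mul_of_nonneg_right _ hβ0
    apply mul_le_mul (by linarith) h7 (by positivity) (by positivity)
  have h9 : ((r : ℝ) - 1) ^ 2 * c * β ≤ r ^ 2 * c * β := by
    apply mul_le_mul_of_nonneg_right _ hβ0
    apply mul_le_mul_of_nonneg_right _ (by positivity)
    nlinarith
  have h10 : (r : ℝ) * (1 - (r * (Forb.card + 1) * β + r ^ 2 * c * β)) ≤
      r * (1 - ((r - 1) * ((insert p Forb).card : ℝ) * β + ((r : ℝ) - 1) ^ 2 * c * β)) := by
    apply mul_le_mul_of_nonneg_left _ (by positivity)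
    linarith
  linarith

/-- Among `r` vertices with small average cost to `X` some two extend to good sets by the same
`r - 1` vertices. -/
theorem exists_common_extension {r : ℕ} (hr : 2 ≤ r) (z : V → V → ℝ) (Zc : ℝ)
    (hz : IsCost Zc z)
    (S : Finset V) (μ : V → ℝ) (hμ0 : ∀ v, 0 ≤ μ v) (hμS : ∀ v, v ∉ S → μ v = 0)
    (hμ : ∑ v, μ v = 1) (β : ℝ) (hβ : ∀ v, μ v ≤ β)
    (Forb : Finset V) (I : Finset V) (hI : I.card = r) (d : ℝ)
    (hA : (∑ v, μ v * ∑ u, μ u * z u v) ≤ d) (hI2 : ∀ k ∈ I, (∑ u, μ u * z u k) ≤ d)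
    (hd : (r : ℝ) * d < (r - 1) * (1 - (r * (Forb.card + r) * β + r ^ 2 * β))) :
    ∃ x ∈ I, ∃ y ∈ I, x ≠ y ∧ ∃ W : Finset V, W ⊆ S ∧ W.card = r - 1 ∧ x ∉ W ∧ y ∉ W ∧
      Good r z (insert x W) ∧ Good r z (insert y W) ∧ Disjoint W Forb := by
  classical
  by_contra hno
  push Not at hno
  have hr2 : (2 : ℝ) ≤ r := by exact_mod_cast hr
  have hR : (0 : ℝ) ≤ ((r : ℝ) - 1) * ((r : ℝ) * (r - 1)) := by
    apply mul_nonneg (by linarith); nlinarith
  have hcast : ((r - 1 : ℕ) : ℝ) = (r : ℝ) - 1 := by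
    rw [Nat.cast_sub (by omega)]; simp
  have hβ0 : 0 ≤ β := by
    by_contra hneg
    push Not at hneg
    have : ∑ v, μ v = 0 := Finset.sum_eq_zero fun v _ => by
      have h1 := hμ0 v
      have h2 := hβ v
      linarith
    linarith
  have hself : ∀ v : V, v ∈ ({v} : Finset V) := fun v => Finset.mem_singleton_self v
  have h := average_lower_gen (ι := Fin (r - 1)) (fun _ => μ) (fun _ v => hμ0 v) (fun _ => hμ)
    (fun _ _ => True) β hβ0 (fun _ v _ => hβ v) (Forb ∪ I) (fun v => {v}) 1 (fun v => by simp)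
    (fun Y => ∑ k ∈ I, (∑ i, ∑ j, z (Y i) (Y j) + 2 * ∑ i, z k (Y i)))
    (fun Y => Finset.sum_nonneg fun k _ => add_nonneg
      (Finset.sum_nonneg fun i _ => Finset.sum_nonneg fun j _ => hz.nonneg _ _)
      (mul_nonneg zero_le_two (Finset.sum_nonneg fun i _ => hz.nonneg _ _)))
    (((r : ℝ) - 1) * ((r : ℝ) * (r - 1))) hR (by
      intro Y h1 h2 h3
      have h1' : ∀ i, Y i ∈ S := by
        intro i
        by_contra h
        exact h1 i (hμS _ h)
      obtain ⟨hinj, hsub, hcard, hdis, _⟩ := allowed_image hself h1' (fun i => h2 i trivial)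
        (fun i j hij => h3 i j hij trivial trivial)
      rw [Finset.disjoint_union_right] at hdis
      rw [Fintype.card_fin] at hcard
      set W : Finset V := Finset.univ.image Y with hW
      have hkW : ∀ k ∈ I, k ∉ W := fun k hk hkW => (Finset.disjoint_left.mp hdis.2 hkW) hk
      have hcost : ∀ k ∈ I, cost z (insert k W) =
          ∑ i, ∑ j, z (Y i) (Y j) + 2 * ∑ i, z k (Y i) := by
        intro k hk
        rw [cost_insert z hz.symm hz.diag (hkW k hk), hW, cost_image z Y hinj,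
          Finset.sum_image (fun a _ b _ h => hinj h)]
      have hgoodiff : ∀ k ∈ I, cost z (insert k W) ≤ (r : ℝ) * (r - 1) → Good r z (insert k W) := by
        intro k hk hc
        exact ⟨by rw [Finset.card_insert_of_notMem (hkW k hk), hcard]; omega, hc⟩
      rw [Finset.sum_congr rfl (fun k hk => (hcost k hk).symm)]
      have hnn : ∀ k, 0 ≤ cost z (insert k W) := by
        intro k
        unfold cost
        exact Finset.sum_nonneg fun i _ => Finset.sum_nonneg fun j _ => hz.nonneg _ _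
      by_cases hex : ∃ k ∈ I, cost z (insert k W) ≤ (r : ℝ) * (r - 1)
      · obtain ⟨k, hk, hkc⟩ := hex
        have hothers : ∀ l ∈ I.erase k, (r : ℝ) * (r - 1) ≤ cost z (insert l W) := by
          intro l hl
          rw [Finset.mem_erase] at hl
          by_contra hlt
          push Not at hlt
          exact hno k hk l hl.2 (Ne.symm hl.1) W hsub hcard (hkW k hk) (hkW l hl.2)
            (hgoodiff k hk hkc) (hgoodiff l hl.2 hlt.le) hdis.1
        have h4 := Finset.sum_le_sum hothers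
        rw [Finset.sum_const, nsmul_eq_mul, Finset.card_erase_of_mem hk, hI, hcast] at h4
        refine h4.trans ?_
        exact Finset.sum_le_sum_of_subset_of_nonneg (Finset.erase_subset _ _)
          (fun l _ _ => hnn l)
      · push Not at hex
        have h4 : ∑ _k ∈ I, ((r : ℝ) * (r - 1)) ≤ ∑ k ∈ I, cost z (insert k W) :=
          Finset.sum_le_sum fun k hk => (hex k hk).le
        rw [Finset.sum_const, nsmul_eq_mul, hI] at h4
        refine le_trans ?_ h4
        apply mul_le_mul_of_nonneg_right (by linarith)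
        nlinarith)
  rw [PE_sum] at h
  have h11 : ∀ k ∈ I, PE (fun _ : Fin (r - 1) => μ)
      (fun Y => ∑ i, ∑ j, z (Y i) (Y j) + 2 * ∑ i, z k (Y i)) ≤ ((r : ℝ) - 1) * (r * d) := by
    intro k hk
    rw [PE_add, PE_mul, PE_iid_pair μ hμ z hz.diag hz.symm, PE_iid_single μ hμ z hz.symm,
      Fintype.card_fin, hcast]
    have h5 : (((r : ℝ) - 1) * ((r : ℝ) - 1 - 1) * (∑ v, μ v * ∑ u, μ u * z u v) +
      2 * (((r : ℝ) - 1) * ∑ u, μ u * z u k)) = ((r : ℝ) - 1) *
      (((r : ℝ) - 2) * (∑ v, μ v * ∑ u, μ u * z u v) + 2 * (∑ u, μ u * z u k)) := by ring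
    rw [h5]
    apply mul_le_mul_of_nonneg_left _ (by linarith)
    have h6 : ((r : ℝ) - 2) * (∑ v, μ v * ∑ u, μ u * z u v) ≤ ((r : ℝ) - 2) * d :=
      mul_le_mul_of_nonneg_left hA (by linarith)
    have h7 := hI2 k hk
    linarith
  have h12 := h.trans (Finset.sum_le_sum h11)
  rw [Finset.sum_const, nsmul_eq_mul, hI, Fintype.card_fin, hcast] at h12
  have h13 : (0 : ℝ) < (r : ℝ) * (r - 1) := by nlinarith
  have h14 : (r : ℝ) * (((r : ℝ) - 1) * (r * d)) = ((r : ℝ) * (r - 1)) * (r * d) := by ring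
  have h15 : ((r : ℝ) - 1) * ((r : ℝ) * (r - 1)) * (1 - ((r - 1) * ((Forb ∪ I).card : ℝ) * β +
      ((r : ℝ) - 1) ^ 2 * ((1 : ℕ) : ℝ) * β)) = ((r : ℝ) * (r - 1)) * ((r - 1) * (1 - ((r - 1) *
      ((Forb ∪ I).card : ℝ) * β + ((r : ℝ) - 1) ^ 2 * β))) := by push_cast; ring
  rw [h14, h15] at h12
  have h16 := le_of_mul_le_mul_left h12 h13
  have h17 : ((Forb ∪ I).card : ℝ) ≤ Forb.card + r := by
    rw [← hI]; exact_mod_cast Finset.card_union_le Forb I
  have h18 : ((r : ℝ) - 1) * ((Forb ∪ I).card : ℝ) * β ≤ r * (Forb.card + r) * β := by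
    apply mul_le_mul_of_nonneg_right _ hβ0
    apply mul_le_mul (by linarith) h17 (by positivity) (by positivity)
  have h19 : ((r : ℝ) - 1) ^ 2 * β ≤ r ^ 2 * β := by
    apply mul_le_mul_of_nonneg_right _ hβ0
    nlinarith
  have h20 : ((r : ℝ) - 1) * (1 - (r * (Forb.card + r) * β + r ^ 2 * β)) ≤
      (r - 1) * (1 - ((r - 1) * ((Forb ∪ I).card : ℝ) * β + ((r : ℝ) - 1) ^ 2 * β)) := by
    apply mul_le_mul_of_nonneg_left _ (by linarith)
    linarith
  linarith

end

end Pool.Agent.Lib.MP_acd470_co
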