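import Mathlib
import Pool.Agent.Lib.MP_acd470_co.Basic
import Pool.Agent.Lib.MP_acd470_co.Extend

/-!
# Links
-/

set_option autoImplicit false
set_option linter.unusedSectionVars false

namespace Pool.Agent.Lib.MP_acd470_co

open Finset

section

variable {V : Type*} [Fintype V] [DecidableEq V]

/-- `T` links `x` and `y`. -/
structure Link (r : ℕ) (z : V → V → ℝ) (X T : Finset V) (x y : V) : Prop where
  sub : T ⊆ X
  notx : x ∉ T
  noty : y ∉ T
  ne : x ≠ y
  tx : Tileable r z (insert x T)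
  ty : Tileable r z (insert y T)

lemma Link.symm {r : ℕ} {z : V → V → ℝ} {X T : Finset V} {x y : V} (h : Link r z X T x y) :
    Link r z X T y x := ⟨h.sub, h.noty, h.notx, h.ne.symm, h.ty, h.tx⟩

/-- `x` and `y` are robustly linked. -/
def Linked (r : ℕ) (z : V → V → ℝ) (X : Finset V) (b c : ℕ) (x y : V) : Prop :=
  ∀ Y : Finset V, Y.card ≤ b → x ∉ Y → y ∉ Y →
    ∃ T, Link r z X T x y ∧ T.card ≤ c ∧ Disjoint T Y

lemma Linked.symm {r : ℕ} {z : V → V → ℝ} {X : Finset V} {b c : ℕ} {x y : V}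
    (h : Linked r z X b c x y) : Linked r z X b c y x := by
  intro Y hY hy hx
  obtain ⟨T, h1, h2, h3⟩ := h Y hY hx hy
  exact ⟨T, h1.symm, h2, h3⟩

lemma Linked.mono {r : ℕ} {z : V → V → ℝ} {X : Finset V} {b c b' c' : ℕ} {x y : V}
    (h : Linked r z X b c x y) (hb : b' ≤ b) (hc : c ≤ c') : Linked r z X b' c' x y := by
  intro Y hY hx hy
  obtain ⟨T, h1, h2, h3⟩ := h Y (hY.trans hb) hx hy
  exact ⟨T, h1, h2.trans hc, h3⟩

/-- `p` is robustly linked to the seed set `S₀`. -/
def ToSeed (r : ℕ) (z : V → V → ℝ) (X S₀ : Finset V) (b c : ℕ) (p : V) : Prop :=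
  p ∈ X ∧ ∀ Y : Finset V, Y.card ≤ b → p ∉ Y →
    ∃ w ∈ S₀, w ∉ Y ∧ ∃ T, Link r z X T p w ∧ T.card ≤ c ∧ Disjoint T Y

lemma ToSeed.mono {r : ℕ} {z : V → V → ℝ} {X S₀ : Finset V} {b c b' c' : ℕ} {p : V}
    (h : ToSeed r z X S₀ b c p) (hb : b' ≤ b) (hc : c ≤ c') : ToSeed r z X S₀ b' c' p := by
  refine ⟨h.1, fun Y hY hp => ?_⟩
  obtain ⟨w, h1, h2, T, h3, h4, h5⟩ := h.2 Y (hY.trans hb) hp
  exact ⟨w, h1, h2, T, h3, h4.trans hc, h5⟩

/-- Joining three links. -/
lemma link_join {r : ℕ} {z : V → V → ℝ} {X T₁ T₂ T₃ : Finset V} {p w w' p' : V}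
    (h1 : Link r z X T₁ p w) (h2 : Link r z X T₂ w w') (h3 : Link r z X T₃ w' p')
    (hwX : w ∈ X) (hw'X : w' ∈ X) (hpp' : p ≠ p') (hpw' : p ≠ w') (hwp' : w ≠ p')
    (d12 : Disjoint T₁ T₂) (d13 : Disjoint T₁ T₃) (d23 : Disjoint T₂ T₃)
    (hp2 : p ∉ T₂) (hp3 : p ∉ T₃) (hw3 : w ∉ T₃) (hw'1 : w' ∉ T₁) (hp'1 : p' ∉ T₁)
    (hp'2 : p' ∉ T₂) :
    Link r z X (T₁ ∪ (insert w T₂) ∪ (insert w' T₃)) p p' := by
  have hpw := h1.ne
  have hww' := h2.ne
  have hw'p' := h3.ne
  have a1 := h1.notx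
  have a2 := h1.noty
  have a3 := h2.notx
  have a4 := h2.noty
  have a5 := h3.notx
  have a6 := h3.noty
  refine ⟨?_, ?_, ?_, hpp', ?_, ?_⟩
  · intro v hv
    simp only [Finset.mem_union, Finset.mem_insert] at hv
    rcases hv with (h | h | h) | h | h
    · exact h1.sub h
    · rw [h]; exact hwX
    · exact h2.sub h
    · rw [h]; exact hw'X
    · exact h3.sub h
  · simp only [Finset.mem_union, Finset.mem_insert]
    push Not
    exact ⟨⟨a1, hpw, hp2⟩, hpw', hp3⟩
  · simp only [Finset.mem_union, Finset.mem_insert]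
    push Not
    exact ⟨⟨hp'1, hwp'.symm, hp'2⟩, hw'p'.symm, a6⟩
  · have e1 : insert p (T₁ ∪ (insert w T₂) ∪ (insert w' T₃)) =
        (insert p T₁ ∪ insert w T₂) ∪ insert w' T₃ := by
      rw [Finset.insert_union, Finset.insert_union]
    rw [e1]
    apply (h1.tx.union h2.tx _).union h3.tx _
    · rw [Finset.disjoint_insert_left, Finset.disjoint_insert_right, Finset.mem_insert]
      push Not
      exact ⟨⟨hpw, hp2⟩, a2, d12⟩
    · rw [Finset.disjoint_union_left, Finset.disjoint_insert_left, Finset.disjoint_insert_right,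
        Finset.disjoint_insert_left, Finset.disjoint_insert_right, Finset.mem_insert,
        Finset.mem_insert]
      push Not
      exact ⟨⟨⟨hpw', hp3⟩, hw'1, d13⟩, ⟨hww', hw3⟩, a4, d23⟩
  · have e1 : insert p' (T₁ ∪ (insert w T₂) ∪ (insert w' T₃)) =
        (insert w T₁ ∪ insert w' T₂) ∪ insert p' T₃ := by
      ext v
      simp only [Finset.mem_union, Finset.mem_insert]
      tauto
    rw [e1]
    apply (h1.ty.union h2.ty _).union h3.ty _
    · rw [Finset.disjoint_insert_left, Finset.disjoint_insert_right, Finset.mem_insert]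
      push Not
      exact ⟨⟨hww', a3⟩, hw'1, d12⟩
    · rw [Finset.disjoint_union_left, Finset.disjoint_insert_left, Finset.disjoint_insert_right,
        Finset.disjoint_insert_left, Finset.disjoint_insert_right, Finset.mem_insert,
        Finset.mem_insert]
      push Not
      exact ⟨⟨⟨hwp', hw3⟩, hp'1, d13⟩, ⟨hw'p', a5⟩, hp'2, d23⟩

/-- Two vertices linked to the seed are linked to each other. -/
lemma linked_of_toSeed {r : ℕ} {z : V → V → ℝ} {X S₀ : Finset V} (hS₀X : S₀ ⊆ X)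
    {b₀ c₀ : ℕ} (hS₀ : ∀ x ∈ S₀, ∀ y ∈ S₀, x ≠ y → Linked r z X b₀ c₀ x y) {b c b' : ℕ}
    {p p' : V} (hpp' : p ≠ p') (hp : ToSeed r z X S₀ b c p) (hp' : ToSeed r z X S₀ b c p')
    (hb : b' + c + 2 ≤ b) (hb₀ : b' + 2 * c + 2 ≤ b₀) :
    Linked r z X b' (2 * c + c₀ + 2) p p' := by
  classical
  intro Y hY hpY hp'Y
  obtain ⟨w, hwS, hwY, T₁, hT₁, hT₁c, hT₁Y⟩ := hp.2 (insert p' Y) (by
    have := Finset.card_insert_le p' Y
    omega) (by rw [Finset.mem_insert]; push Not; exact ⟨hpp', hpY⟩)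
  rw [Finset.mem_insert] at hwY
  push Not at hwY
  rw [Finset.disjoint_insert_right] at hT₁Y
  obtain ⟨w', hw'S, hw'Y, T₃, hT₃, hT₃c, hT₃Y⟩ := hp'.2 (insert p (insert w (Y ∪ T₁))) (by
    have h1 := Finset.card_insert_le p (insert w (Y ∪ T₁))
    have h2 := Finset.card_insert_le w (Y ∪ T₁)
    have h3 := Finset.card_union_le Y T₁
    omega) (by
      rw [Finset.mem_insert, Finset.mem_insert, Finset.mem_union]
      push Not
      exact ⟨hpp'.symm, hwY.1.symm, hp'Y, hT₁Y.1⟩)
  rw [Finset.mem_insert, Finset.mem_insert, Finset.mem_union] at hw'Y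
  push Not at hw'Y
  obtain ⟨hw'p, hw'w, hw'Y, hw'T₁⟩ := hw'Y
  rw [Finset.disjoint_insert_right, Finset.disjoint_insert_right,
    Finset.disjoint_union_right] at hT₃Y
  obtain ⟨hpT₃, hwT₃, hT₃Y, hT₃T₁⟩ := hT₃Y
  obtain ⟨T₂, hT₂, hT₂c, hT₂Y⟩ := hS₀ w hwS w' hw'S hw'w.symm
    (insert p (insert p' (Y ∪ T₁ ∪ T₃))) (by
    have h1 := Finset.card_insert_le p (insert p' (Y ∪ T₁ ∪ T₃))
    have h2 := Finset.card_insert_le p' (Y ∪ T₁ ∪ T₃)
    have h3 := Finset.card_union_le (Y ∪ T₁) T₃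
    have h4 := Finset.card_union_le Y T₁
    omega) (by
      rw [Finset.mem_insert, Finset.mem_insert, Finset.mem_union, Finset.mem_union]
      push Not
      exact ⟨hT₁.ne.symm, hwY.1, ⟨hwY.2, hT₁.noty⟩, hwT₃⟩) (by
      rw [Finset.mem_insert, Finset.mem_insert, Finset.mem_union, Finset.mem_union]
      push Not
      exact ⟨hw'p, hT₃.ne.symm, ⟨hw'Y, hw'T₁⟩, hT₃.noty⟩)
  rw [Finset.disjoint_insert_right, Finset.disjoint_insert_right,
    Finset.disjoint_union_right, Finset.disjoint_union_right] at hT₂Y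
  obtain ⟨hpT₂, hp'T₂, ⟨hT₂Y, hT₂T₁⟩, hT₂T₃⟩ := hT₂Y
  refine ⟨T₁ ∪ (insert w T₂) ∪ (insert w' T₃), ?_, ?_, ?_⟩
  · exact link_join hT₁ hT₂ hT₃.symm (hS₀X hwS) (hS₀X hw'S) hpp' hw'p.symm hwY.1
      hT₂T₁.symm hT₃T₁.symm hT₂T₃ hpT₂ hpT₃ hwT₃ hw'T₁ hT₁Y.1 hp'T₂
  · have h1 := Finset.card_union_le (T₁ ∪ (insert w T₂)) (insert w' T₃)
    have h2 := Finset.card_union_le T₁ (insert w T₂)
    have h3 := Finset.card_insert_le w T₂
    have h4 := Finset.card_insert_le w' T₃
    omega
  · rw [Finset.disjoint_union_left, Finset.disjoint_union_left, Finset.disjoint_insert_left,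
      Finset.disjoint_insert_left]
    exact ⟨⟨hT₁Y.2, hwY.2, hT₂Y⟩, hw'Y, hT₃Y⟩

/-- Linking sets of equal size. -/
lemma set_link {r : ℕ} {z : V → V → ℝ} {X : Finset V} {b c : ℕ} (D : Finset V) :
    ∀ W : Finset V, W.card = D.card → Disjoint D W →
    (∀ d ∈ D, ∀ w ∈ W, Linked r z X b c d w) →
    ∀ Y : Finset V, Y.card + D.card * (c + 2) ≤ b → Disjoint Y D → Disjoint Y W →
    ∃ T, T ⊆ X ∧ T.card ≤ D.card * c ∧ Disjoint T Y ∧ Disjoint T D ∧ Disjoint T W ∧
      Tileable r z (T ∪ D) ∧ Tileable r z (T ∪ W) := by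
  classical
  induction D using Finset.induction_on with
  | empty =>
    intro W hW _ _ Y _ _ _
    rw [Finset.card_empty, Finset.card_eq_zero] at hW
    subst hW
    exact ⟨∅, by simp, by simp, by simp, by simp, by simp, by simpa using tileable_empty r z,
      by simpa using tileable_empty r z⟩
  | insert d D hd ih =>
    intro W hW hDW hlink Y hY hYD hYW
    rw [Finset.card_insert_of_notMem hd] at hW hY
    have hWne : W.Nonempty := by rw [← Finset.card_pos]; omega
    obtain ⟨w, hw⟩ := hWne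
    have hmul : (D.card + 1) * (c + 2) = D.card * (c + 2) + c + 2 := by ring
    rw [hmul] at hY
    have hWe : (W.erase w).card = D.card := by rw [Finset.card_erase_of_mem hw]; omega
    rw [Finset.disjoint_insert_left] at hDW
    rw [Finset.disjoint_insert_right] at hYD
    have hD2 : D.card * 2 ≤ D.card * (c + 2) := Nat.mul_le_mul_left _ (by omega)
    obtain ⟨T₁, hT₁, hT₁c, hT₁Y⟩ := hlink d (Finset.mem_insert_self _ _) w hw
      (Y ∪ D ∪ W.erase w) (by
        have h1 := Finset.card_union_le (Y ∪ D) (W.erase w)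
        have h2 := Finset.card_union_le Y D
        omega) (by
        rw [Finset.mem_union, Finset.mem_union]
        push Not
        exact ⟨⟨hYD.1, hd⟩, fun h => hDW.1 (Finset.mem_of_mem_erase h)⟩) (by
        rw [Finset.mem_union, Finset.mem_union]
        push Not
        exact ⟨⟨fun h => Finset.disjoint_left.mp hYW h hw,
          fun h => Finset.disjoint_left.mp hDW.2 h hw⟩, Finset.notMem_erase w W⟩)
    rw [Finset.disjoint_union_right, Finset.disjoint_union_right] at hT₁Y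
    obtain ⟨⟨hT₁Y, hT₁D⟩, hT₁W⟩ := hT₁Y
    obtain ⟨T₂, hT₂X, hT₂c, hT₂Y, hT₂D, hT₂W, hT₂tD, hT₂tW⟩ := ih (W.erase w) hWe
      (Finset.disjoint_of_subset_right (Finset.erase_subset _ _) hDW.2)
      (fun a ha a' ha' => hlink a (Finset.mem_insert_of_mem ha) a' (Finset.mem_of_mem_erase ha'))
      (insert d (insert w (Y ∪ T₁))) (by
        have h1 := Finset.card_insert_le d (insert w (Y ∪ T₁))
        have h2 := Finset.card_insert_le w (Y ∪ T₁)
        have h3 := Finset.card_union_le Y T₁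
        omega) (by
        rw [Finset.disjoint_insert_left, Finset.disjoint_insert_left, Finset.disjoint_union_left]
        exact ⟨hd, fun h => Finset.disjoint_left.mp hDW.2 h hw, hYD.2, hT₁D⟩) (by
        rw [Finset.disjoint_insert_left, Finset.disjoint_insert_left, Finset.disjoint_union_left]
        exact ⟨fun h => hDW.1 (Finset.mem_of_mem_erase h), Finset.notMem_erase w W,
          Finset.disjoint_of_subset_right (Finset.erase_subset _ _) hYW, hT₁W⟩)
    rw [Finset.disjoint_insert_right, Finset.disjoint_insert_right,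
      Finset.disjoint_union_right] at hT₂Y
    obtain ⟨hdT₂, hwT₂, hT₂Y, hT₂T₁⟩ := hT₂Y
    refine ⟨T₁ ∪ T₂, Finset.union_subset hT₁.sub hT₂X, ?_, ?_, ?_, ?_, ?_, ?_⟩
    · rw [Finset.card_insert_of_notMem hd]
      have h1 := Finset.card_union_le T₁ T₂
      have h2 : (D.card + 1) * c = D.card * c + c := by ring
      rw [h2]; omega
    · rw [Finset.disjoint_union_left]; exact ⟨hT₁Y, hT₂Y⟩
    · rw [Finset.disjoint_insert_right, Finset.disjoint_union_left, Finset.mem_union]
      push Not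
      exact ⟨⟨hT₁.notx, hdT₂⟩, hT₁D, hT₂D⟩
    · have e1 : W = insert w (W.erase w) := (Finset.insert_erase hw).symm
      rw [e1, Finset.disjoint_insert_right, Finset.disjoint_union_left, Finset.mem_union]
      push Not
      exact ⟨⟨hT₁.noty, hwT₂⟩, hT₁W, hT₂W⟩
    · have e1 : T₁ ∪ T₂ ∪ insert d D = insert d T₁ ∪ (T₂ ∪ D) := by
        ext v; simp only [Finset.mem_union, Finset.mem_insert]; tauto
      rw [e1]
      apply hT₁.tx.union hT₂tD
      rw [Finset.disjoint_insert_left, Finset.disjoint_union_right, Finset.mem_union]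
      push Not
      exact ⟨⟨hdT₂, hd⟩, hT₂T₁.symm, hT₁D⟩
    · have e1 : T₁ ∪ T₂ ∪ W = insert w T₁ ∪ (T₂ ∪ W.erase w) := by
        have e2 : W = insert w (W.erase w) := (Finset.insert_erase hw).symm
        conv_lhs => rw [e2]
        ext v; simp only [Finset.mem_union, Finset.mem_insert]; tauto
      rw [e1]
      apply hT₁.ty.union hT₂tW
      rw [Finset.disjoint_insert_left, Finset.disjoint_union_right, Finset.mem_union]
      push Not
      exact ⟨⟨hwT₂, Finset.notMem_erase w W⟩, hT₂T₁.symm, hT₁W⟩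

/-- The closure rule. -/
lemma closure_rule {r : ℕ} {z : V → V → ℝ} {X S₀ : Finset V}
    {b c b'' c'' : ℕ} (F : Finset V)
    (hF : ∀ v ∈ F, ToSeed r z X S₀ b c v)
    (hFF : ∀ x ∈ F, ∀ y ∈ F, x ≠ y → Linked r z X b'' c'' x y)
    {K : Finset V} (hK : Good r z K) (hKX : K ⊆ X) {p : V} (hp : p ∈ K) {Y : Finset V}
    (hKY : Disjoint K Y) {D W : Finset V} (hpD : p ∈ D) (hDK : D ⊆ K) (hDF : D.erase p ⊆ F)
    (hWF : W ⊆ F) (hWD : W.card = D.card) (hWY : Disjoint W Y) (hWK : Disjoint W K)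
    (hgood : cost z ((K \ D) ∪ W) ≤ (r : ℝ) * (r - 1))
    (hb : Y.card + 2 * r ≤ b) (hb'' : Y.card + r + 2 + c + r * (c'' + 2) ≤ b'') :
    ∃ w ∈ S₀, w ∉ Y ∧ ∃ T, Link r z X T p w ∧ T.card ≤ 2 * r + r * c'' + c ∧ Disjoint T Y := by
  classical
  have hDr : D.card ≤ r := by rw [← hK.1]; exact Finset.card_le_card hDK
  have hWne : W.Nonempty := by
    rw [← Finset.card_pos, hWD, Finset.card_pos]; exact ⟨p, hpD⟩
  obtain ⟨w₀, hw₀⟩ := hWne
  set W' : Finset V := W.erase w₀ with hW'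
  set D' : Finset V := D.erase p with hD'
  have hW'W : W' ⊆ W := Finset.erase_subset _ _
  have hD'D : D' ⊆ D := Finset.erase_subset _ _
  have hD'K : D' ⊆ K := hD'D.trans hDK
  have hcards : W'.card = D'.card := by
    rw [hW', hD', Finset.card_erase_of_mem hw₀, Finset.card_erase_of_mem hpD, hWD]
  have hD'r : D'.card ≤ r := (Finset.card_le_card hD'D).trans hDr
  have hKnW : ∀ v ∈ K, v ∉ W := fun v hv hvW => Finset.disjoint_left.mp hWK hvW hv
  have hw₀W' : w₀ ∉ W' := Finset.notMem_erase w₀ W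
  obtain ⟨w, hwS, hwY₀, T₀, hT₀, hT₀c, hT₀Y⟩ := (hF w₀ (hWF hw₀)).2 (Y ∪ K ∪ W') (by
    have h1 := Finset.card_union_le (Y ∪ K) W'
    have h2 := Finset.card_union_le Y K
    rw [hK.1] at h2
    omega) (by
    rw [Finset.mem_union, Finset.mem_union]
    push Not
    exact ⟨⟨fun h => Finset.disjoint_left.mp hWY hw₀ h,
      fun h => hKnW _ h hw₀⟩, hw₀W'⟩)
  rw [Finset.mem_union, Finset.mem_union] at hwY₀
  push Not at hwY₀
  obtain ⟨⟨hwY, hwK⟩, hwW'⟩ := hwY₀
  rw [Finset.disjoint_union_right, Finset.disjoint_union_right] at hT₀Y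
  obtain ⟨⟨hT₀Y, hT₀K⟩, hT₀W'⟩ := hT₀Y
  have hD'W' : Disjoint D' W' :=
    Finset.disjoint_of_subset_left hD'K (Finset.disjoint_of_subset_right hW'W hWK.symm)
  have hlink : ∀ d ∈ D', ∀ w ∈ W', Linked r z X b'' c'' d w := by
    intro d hd w hw
    apply hFF d (hDF hd) w (hWF (hW'W hw))
    rintro rfl
    exact Finset.disjoint_left.mp hD'W' hd hw
  obtain ⟨T', hT'X, hT'c, hT'Y, hT'D, hT'W, hT'tD, hT'tW⟩ := set_link D' W' hcards hD'W' hlink
    (Y ∪ (K \ D') ∪ insert w₀ (insert w T₀)) (by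
      have h1 := Finset.card_union_le (Y ∪ (K \ D')) (insert w₀ (insert w T₀))
      have h2 := Finset.card_union_le Y (K \ D')
      have h3 := Finset.card_insert_le w₀ (insert w T₀)
      have h4 := Finset.card_insert_le w T₀
      have h5 : (K \ D').card ≤ r := by
        rw [← hK.1]; exact Finset.card_le_card Finset.sdiff_subset
      have h6 : D'.card * (c'' + 2) ≤ r * (c'' + 2) := Nat.mul_le_mul_right _ hD'r
      omega) (by
      rw [Finset.disjoint_union_left, Finset.disjoint_union_left, Finset.disjoint_insert_left,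
        Finset.disjoint_insert_left]
      refine ⟨⟨?_, Finset.sdiff_disjoint⟩, ?_, ?_, ?_⟩
      · exact Finset.disjoint_of_subset_right hD'K hKY.symm
      · exact fun h => hKnW _ (hD'K h) hw₀
      · exact fun h => hwK (hD'K h)
      · exact Finset.disjoint_of_subset_right hD'K hT₀K) (by
      rw [Finset.disjoint_union_left, Finset.disjoint_union_left, Finset.disjoint_insert_left,
        Finset.disjoint_insert_left]
      refine ⟨⟨?_, ?_⟩, hw₀W', hwW', hT₀W'⟩
      · exact Finset.disjoint_of_subset_right hW'W hWY.symm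
      · exact Finset.disjoint_of_subset_left Finset.sdiff_subset
          (Finset.disjoint_of_subset_right hW'W hWK.symm))
  rw [Finset.disjoint_union_right, Finset.disjoint_union_right, Finset.disjoint_insert_right,
    Finset.disjoint_insert_right] at hT'Y
  obtain ⟨⟨hT'Y, hT'KD⟩, hw₀T', hwT', hT'T₀⟩ := hT'Y
  have hWX : W ⊆ X := fun v hv => (hF v (hWF hv)).1
  have hT'K : Disjoint T' K := by
    rw [Finset.disjoint_left]
    intro v hv hvK
    by_cases hvD : v ∈ D'
    · exact Finset.disjoint_left.mp hT'D hv hvD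
    · exact Finset.disjoint_left.mp hT'KD hv (Finset.mem_sdiff.mpr ⟨hvK, hvD⟩)
  have hww₀ : w ≠ w₀ := hT₀.ne.symm
  have hwW : w ∉ W := by
    intro h
    exact hwW' (Finset.mem_erase.mpr ⟨hww₀, h⟩)
  have hT'Wd : Disjoint T' W := by
    rw [← Finset.insert_erase hw₀, Finset.disjoint_insert_right]
    exact ⟨hw₀T', hT'W⟩
  have hT₀Wd : Disjoint T₀ W := by
    rw [← Finset.insert_erase hw₀, Finset.disjoint_insert_right]
    exact ⟨hT₀.notx, hT₀W'⟩
  have hpT' : p ∉ T' := fun h => Finset.disjoint_left.mp hT'K h hp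
  have hpT₀ : p ∉ T₀ := fun h => Finset.disjoint_left.mp hT₀K h hp
  refine ⟨w, hwS, hwY, K.erase p ∪ W ∪ T' ∪ T₀, ⟨?_, ?_, ?_, ?_, ?_, ?_⟩, ?_, ?_⟩
  · exact Finset.union_subset (Finset.union_subset (Finset.union_subset
      ((Finset.erase_subset _ _).trans hKX) hWX) hT'X) hT₀.sub
  · simp only [Finset.mem_union]
    push Not
    exact ⟨⟨⟨Finset.notMem_erase p K, hKnW p hp⟩, hpT'⟩, hpT₀⟩
  · simp only [Finset.mem_union]
    push Not
    exact ⟨⟨⟨fun h => hwK (Finset.mem_of_mem_erase h), hwW⟩, hwT'⟩, hT₀.noty⟩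
  · rintro rfl; exact hwK hp
  · have e1 : insert p (K.erase p ∪ W ∪ T' ∪ T₀) = (K ∪ (T' ∪ W')) ∪ insert w₀ T₀ := by
      conv_lhs => rw [← Finset.insert_erase hw₀]
      conv_rhs => rw [← Finset.insert_erase hp]
      ext v; simp only [Finset.mem_union, Finset.mem_insert]; tauto
    rw [e1]
    apply (hK.tileable.union hT'tW _).union hT₀.tx _
    · rw [Finset.disjoint_union_right]
      exact ⟨hT'K.symm, Finset.disjoint_of_subset_right hW'W hWK.symm⟩
    · rw [Finset.disjoint_insert_right, Finset.disjoint_union_left, Finset.disjoint_union_left]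
      simp only [Finset.mem_union]
      push Not
      exact ⟨⟨fun h => hKnW _ h hw₀, hw₀T', hw₀W'⟩, hT₀K.symm, hT'T₀, hT₀W'.symm⟩
  · have e1 : insert w (K.erase p ∪ W ∪ T' ∪ T₀) = (((K \ D) ∪ W) ∪ (T' ∪ D')) ∪
        insert w T₀ := by
      ext v
      simp only [Finset.mem_union, Finset.mem_insert, Finset.mem_erase, Finset.mem_sdiff, hD']
      constructor
      · rintro (h | ((h | h) | h) | h)
        · exact Or.inr (Or.inl h)
        · by_cases hvD : v ∈ D
          · exact Or.inl (Or.inr (Or.inr ⟨h.1, hvD⟩))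
          · exact Or.inl (Or.inl (Or.inl ⟨h.2, hvD⟩))
        · exact Or.inl (Or.inl (Or.inr h))
        · exact Or.inl (Or.inr (Or.inl h))
        · exact Or.inr (Or.inr h)
      · rintro (((h | h) | (h | h)) | (h | h))
        · right; left; left; left
          refine ⟨?_, h.1⟩
          rintro rfl
          exact h.2 hpD
        · exact Or.inr (Or.inl (Or.inl (Or.inr h)))
        · exact Or.inr (Or.inl (Or.inr h))
        · exact Or.inr (Or.inl (Or.inl (Or.inl ⟨h.1, hDK h.2⟩)))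
        · exact Or.inl h
        · exact Or.inr (Or.inr h)
    rw [e1]
    have hg : Good r z ((K \ D) ∪ W) := by
      refine ⟨?_, hgood⟩
      have hd : Disjoint (K \ D) W :=
        Finset.disjoint_of_subset_left Finset.sdiff_subset hWK.symm
      rw [Finset.card_union_of_disjoint hd, hWD]
      have := Finset.card_sdiff_add_card_eq_card hDK
      rw [hK.1] at this
      exact this
    apply (hg.tileable.union hT'tD _).union hT₀.ty _
    · rw [Finset.disjoint_union_left, Finset.disjoint_union_right, Finset.disjoint_union_right]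
      refine ⟨⟨?_, ?_⟩, ?_, ?_⟩
      · exact Finset.disjoint_of_subset_left Finset.sdiff_subset hT'K.symm
      · exact Finset.disjoint_of_subset_right hD'D Finset.sdiff_disjoint
      · exact hT'Wd.symm
      · exact Finset.disjoint_of_subset_right hD'K hWK
    · rw [Finset.disjoint_insert_right, Finset.disjoint_union_left, Finset.disjoint_union_left,
        Finset.disjoint_union_left]
      simp only [Finset.mem_union, Finset.mem_sdiff]
      push Not
      refine ⟨⟨⟨fun h => absurd h hwK, hwW⟩, hwT', fun h => hwK (hD'K h)⟩, ⟨?_, hT₀Wd.symm⟩,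
        hT'T₀, ?_⟩
      · exact Finset.disjoint_of_subset_left Finset.sdiff_subset hT₀K.symm
      · exact Finset.disjoint_of_subset_left hD'K hT₀K.symm
  · have h1 := Finset.card_union_le (K.erase p ∪ W ∪ T') T₀
    have h2 := Finset.card_union_le (K.erase p ∪ W) T'
    have h3 := Finset.card_union_le (K.erase p) W
    have h4 : (K.erase p).card ≤ r := by
      rw [← hK.1]; exact Finset.card_le_card (Finset.erase_subset _ _)
    have h5 : D'.card * c'' ≤ r * c'' := Nat.mul_le_mul_right _ hD'r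
    omega
  · rw [Finset.disjoint_union_left, Finset.disjoint_union_left, Finset.disjoint_union_left]
    exact ⟨⟨⟨Finset.disjoint_of_subset_left (Finset.erase_subset _ _) hKY, hWY⟩, hT'Y⟩, hT₀Y⟩

end

end Pool.Agent.Lib.MP_acd470_co
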