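import Mathlib
import Pool.Agent.Lib.MP_acd470_co.Core
import Pool.Agent.Lib.MP_acd470_co.Extend

/-!
# Near-perfect matchings
-/

set_option autoImplicit false
set_option linter.unusedSectionVars false

namespace Pool.Agent.Lib.MP_acd470_co

open Finset

section

variable {V : Type*} [Fintype V] [DecidableEq V]

/-- The closure of a vertex with respect to a matching. -/
def clos (M : Finset (Finset V)) (v : V) : Finset V :=
  insert v ((M.filter (fun K => v ∈ K)).biUnion id)

lemma mem_clos {M : Finset (Finset V)} {v w : V} :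
    w ∈ clos M v ↔ w = v ∨ ∃ K ∈ M, v ∈ K ∧ w ∈ K := by
  unfold clos
  simp [and_assoc]

lemma self_mem_clos (M : Finset (Finset V)) (v : V) : v ∈ clos M v :=
  mem_clos.mpr (Or.inl rfl)

lemma clos_symm {M : Finset (Finset V)} {v w : V} (h : w ∈ clos M v) : v ∈ clos M w := by
  rw [mem_clos] at h ⊢
  rcases h with h | ⟨K, hK, hv, hw⟩
  · exact Or.inl h.symm
  · exact Or.inr ⟨K, hK, hw, hv⟩

lemma clos_trans {r : ℕ} {z : V → V → ℝ} {X : Finset V} {M : Finset (Finset V)}
    (hM : IsMatching r z X M) {u v w : V} (h : v ∈ clos M u) (h' : w ∈ clos M v) :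
    w ∈ clos M u := by
  rw [mem_clos] at h h' ⊢
  rcases h with rfl | ⟨K, hK, hu, hv⟩
  · exact h'
  · rcases h' with rfl | ⟨L, hL, hv', hw⟩
    · exact Or.inr ⟨K, hK, hu, hv⟩
    · have : K = L := by
        by_contra hne
        exact Finset.disjoint_left.mp (hM.disj K hK L hL hne) hv hv'
      subst this
      exact Or.inr ⟨K, hK, hu, hw⟩

lemma clos_eq_of_mem {r : ℕ} {z : V → V → ℝ} {X : Finset V} {M : Finset (Finset V)}
    (hM : IsMatching r z X M) {K : Finset V} (hK : K ∈ M) {v : V} (hv : v ∈ K) :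
    clos M v = K := by
  ext w
  rw [mem_clos]
  constructor
  · rintro (rfl | ⟨L, hL, hvL, hw⟩)
    · exact hv
    · have : K = L := by
        by_contra hne
        exact Finset.disjoint_left.mp (hM.disj K hK L hL hne) hv hvL
      subst this
      exact hw
  · intro hw
    exact Or.inr ⟨K, hK, hv, hw⟩

lemma clos_eq_of_not_mem {M : Finset (Finset V)} {v : V} (hv : v ∉ cov M) :
    clos M v = {v} := by
  ext w
  rw [mem_clos, Finset.mem_singleton]
  constructor
  · rintro (h | ⟨L, hL, hvL, _⟩)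
    · exact h
    · exact absurd (mem_cov.mpr ⟨L, hL, hvL⟩) hv
  · exact Or.inl

lemma clos_card {r : ℕ} (hr : 1 ≤ r) {z : V → V → ℝ} {X : Finset V} {M : Finset (Finset V)}
    (hM : IsMatching r z X M) (v : V) : (clos M v).card ≤ r := by
  by_cases hv : v ∈ cov M
  · obtain ⟨K, hK, hvK⟩ := mem_cov.mp hv
    rw [clos_eq_of_mem hM hK hvK, (hM.good K hK).1]
  · rw [clos_eq_of_not_mem hv, Finset.card_singleton]; exact hr

/-- `C` is a union of closures. -/
def MClosed (M : Finset (Finset V)) (C : Finset V) : Prop := ∀ K ∈ M, ∀ v ∈ K, v ∈ C → K ⊆ C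

/-- The free vertices. -/
def Free (r : ℕ) (z : V → V → ℝ) (X : Finset V) (M : Finset (Finset V)) (b c : ℕ) (v : V) :
    Prop :=
  v ∈ X ∧ ∀ Y : Finset V, Y.card ≤ b → Disjoint Y (clos M v) →
    ∃ C : Finset V, C ⊆ X ∧ MClosed M C ∧ v ∈ C ∧ C.card ≤ c ∧ Disjoint C Y ∧
      ∃ N, IsMatching r z (C.erase v) N ∧ (M.filter (fun K => K ⊆ C)).card ≤ N.card

lemma Free.mono {r : ℕ} {z : V → V → ℝ} {X : Finset V} {M : Finset (Finset V)} {b c b' c' : ℕ}
    {v : V} (h : Free r z X M b c v) (hb : b' ≤ b) (hc : c ≤ c') : Free r z X M b' c' v := by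
  refine ⟨h.1, fun Y hY hd => ?_⟩
  obtain ⟨C, h1, h2, h3, h4, h5, h6⟩ := h.2 Y (hY.trans hb) hd
  exact ⟨C, h1, h2, h3, h4.trans hc, h5, h6⟩

lemma matching_disjoint {r : ℕ} (hr : 1 ≤ r) {z : V → V → ℝ} {X Y : Finset V}
    {M N : Finset (Finset V)} (hM : IsMatching r z X M) (hN : IsMatching r z Y N)
    (hXY : Disjoint X Y) : Disjoint M N := by
  rw [Finset.disjoint_left]
  intro K hK hK'
  have h1 := hM.sub K hK
  have h2 := hN.sub K hK'
  have h3 : K.Nonempty := by
    rw [← Finset.card_pos, (hM.good K hK).1]; omega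
  obtain ⟨v, hv⟩ := h3
  exact Finset.disjoint_left.mp hXY (h1 hv) (h2 hv)

/-- Simultaneous freeing. -/
lemma simul_free {r : ℕ} (hr : 1 ≤ r) {z : V → V → ℝ} {X : Finset V} {M : Finset (Finset V)}
    (hM : IsMatching r z X M) {b c : ℕ} (W : Finset V) :
    (∀ w ∈ W, Free r z X M b c w) → (∀ w ∈ W, ∀ w' ∈ W, w ≠ w' → w' ∉ clos M w) →
    ∀ Y : Finset V, (∀ w ∈ W, Disjoint Y (clos M w)) → Y.card + W.card * (r + c) ≤ b →
    ∃ C : Finset V, C ⊆ X ∧ MClosed M C ∧ W ⊆ C ∧ C.card ≤ W.card * c ∧ Disjoint C Y ∧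
      ∃ N, IsMatching r z (C \ W) N ∧ (M.filter (fun K => K ⊆ C)).card ≤ N.card := by
  classical
  induction W using Finset.induction_on with
  | empty =>
    intro _ _ Y _ _
    refine ⟨∅, by simp, ?_, by simp, by simp, by simp, ∅, isMatching_empty _ _ _, ?_⟩
    · intro K _ v _ hv
      simp at hv
    · rw [Finset.card_empty, Nat.le_zero, Finset.card_eq_zero, Finset.filter_eq_empty_iff]
      intro K hK hsub
      have h1 := (hM.good K hK).1
      rw [Finset.subset_empty.mp hsub, Finset.card_empty] at h1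
      omega
  | insert w W hw ih =>
    intro hfree hcl Y hY hcard
    rw [Finset.card_insert_of_notMem hw] at hcard
    have hmul : (W.card + 1) * (r + c) = W.card * (r + c) + (r + c) := by ring
    rw [hmul] at hcard
    have hWr : W.card * r ≤ W.card * (r + c) := Nat.mul_le_mul_left _ (by omega)
    have hfw := hfree w (Finset.mem_insert_self _ _)
    set Y₁ : Finset V := Y ∪ W.biUnion (clos M) with hY₁
    have hY₁c : Y₁.card ≤ b := by
      have h1 : (W.biUnion (clos M)).card ≤ W.card * r :=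
        Finset.card_biUnion_le_card_mul _ _ _ (fun v _ => clos_card hr hM v)
      have h2 := Finset.card_union_le Y (W.biUnion (clos M))
      rw [← hY₁] at h2
      omega
    have hclosdis : ∀ w' ∈ W, Disjoint (clos M w') (clos M w) := by
      intro w' hw'
      rw [Finset.disjoint_left]
      intro v hv hv'
      have h1 : w' ∈ clos M w := clos_trans hM hv' (clos_symm hv)
      have hne : w ≠ w' := by rintro rfl; exact hw hw'
      exact hcl w (Finset.mem_insert_self _ _) w' (Finset.mem_insert_of_mem hw') hne h1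
    have hY₁d : Disjoint Y₁ (clos M w) := by
      rw [hY₁, Finset.disjoint_union_left]
      refine ⟨hY w (Finset.mem_insert_self _ _), ?_⟩
      rw [Finset.disjoint_biUnion_left]
      exact hclosdis
    obtain ⟨C₁, hC₁X, hC₁M, hwC₁, hC₁c, hC₁Y, N₁, hN₁, hN₁c⟩ := hfw.2 Y₁ hY₁c hY₁d
    have hC₁clos : ∀ w' ∈ W, Disjoint C₁ (clos M w') := by
      intro w' hw'
      apply Finset.disjoint_of_subset_right _ hC₁Y
      exact (Finset.subset_biUnion_of_mem (clos M) hw').trans Finset.subset_union_right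
    obtain ⟨C₂, hC₂X, hC₂M, hWC₂, hC₂c, hC₂Y, N₂, hN₂, hN₂c⟩ := ih
      (fun w' hw' => hfree w' (Finset.mem_insert_of_mem hw'))
      (fun a ha a' ha' => hcl a (Finset.mem_insert_of_mem ha) a' (Finset.mem_insert_of_mem ha'))
      (Y ∪ C₁) (fun w' hw' => by
        rw [Finset.disjoint_union_left]
        exact ⟨hY w' (Finset.mem_insert_of_mem hw'), hC₁clos w' hw'⟩)
      (by
        have h2 := Finset.card_union_le Y C₁
        omega)
    rw [Finset.disjoint_union_right] at hC₂Y
    have hdis : Disjoint C₁ C₂ := hC₂Y.2.symm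
    have hWC₁ : ∀ w' ∈ W, w' ∉ C₁ := fun w' hw' h =>
      Finset.disjoint_left.mp (hC₁clos w' hw') h (self_mem_clos M w')
    have hwC₂ : w ∉ C₂ := fun h => Finset.disjoint_left.mp hdis hwC₁ h
    have hsub1 : C₁.erase w ⊆ C₁ := Finset.erase_subset _ _
    have hsub2 : C₂ \ W ⊆ C₂ := Finset.sdiff_subset
    have hdis' : Disjoint (C₁.erase w) (C₂ \ W) :=
      Finset.disjoint_of_subset_left hsub1 (Finset.disjoint_of_subset_right hsub2 hdis)
    refine ⟨C₁ ∪ C₂, Finset.union_subset hC₁X hC₂X, ?_, ?_, ?_, ?_, N₁ ∪ N₂, ?_, ?_⟩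
    · intro K hK v hv hvC
      rcases Finset.mem_union.mp hvC with h | h
      · exact (hC₁M K hK v hv h).trans Finset.subset_union_left
      · exact (hC₂M K hK v hv h).trans Finset.subset_union_right
    · intro v hv
      rcases Finset.mem_insert.mp hv with rfl | h
      · exact Finset.mem_union_left _ hwC₁
      · exact Finset.mem_union_right _ (hWC₂ h)
    · rw [Finset.card_insert_of_notMem hw]
      have h1 := Finset.card_union_le C₁ C₂
      have h2 : (W.card + 1) * c = W.card * c + c := by ring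
      rw [h2]; omega
    · rw [Finset.disjoint_union_left]
      refine ⟨?_, hC₂Y.1⟩
      exact Finset.disjoint_of_subset_right Finset.subset_union_left hC₁Y
    · apply (hN₁.union hN₂ hdis').mono
      intro v hv
      rw [Finset.mem_sdiff, Finset.mem_insert]
      rcases Finset.mem_union.mp hv with h | h
      · rw [Finset.mem_erase] at h
        refine ⟨Finset.mem_union_left _ h.2, ?_⟩
        rintro (h1 | h1)
        · exact h.1 h1
        · exact hWC₁ v h1 h.2
      · rw [Finset.mem_sdiff] at h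
        refine ⟨Finset.mem_union_right _ h.1, ?_⟩
        rintro (h1 | h1)
        · rw [h1] at h; exact hwC₂ h.1
        · exact h.2 h1
    · rw [Finset.card_union_of_disjoint (matching_disjoint hr hN₁ hN₂ hdis')]
      have h1 : M.filter (fun K => K ⊆ C₁ ∪ C₂) ⊆
          M.filter (fun K => K ⊆ C₁) ∪ M.filter (fun K => K ⊆ C₂) := by
        intro K hK
        rw [Finset.mem_filter] at hK
        rw [Finset.mem_union, Finset.mem_filter, Finset.mem_filter]
        have h3 : K.Nonempty := by
          rw [← Finset.card_pos, (hM.good K hK.1).1]; omega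
        obtain ⟨v, hv⟩ := h3
        rcases Finset.mem_union.mp (hK.2 hv) with h | h
        · exact Or.inl ⟨hK.1, hC₁M K hK.1 v hv h⟩
        · exact Or.inr ⟨hK.1, hC₂M K hK.1 v hv h⟩
      have h2 := (Finset.card_le_card h1).trans (Finset.card_union_le _ _)
      omega

/-- Augmenting a matching. -/
lemma augment {r : ℕ} (hr : 1 ≤ r) {z : V → V → ℝ} {X : Finset V} {M : Finset (Finset V)}
    (hM : IsMatching r z X M) {C : Finset V} (hCX : C ⊆ X) (hC : MClosed M C)
    {N : Finset (Finset V)} (hN : IsMatching r z C N)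
    (hlt : (M.filter (fun K => K ⊆ C)).card < N.card) :
    ∃ M', IsMatching r z X M' ∧ M.card < M'.card := by
  classical
  have hM' : IsMatching r z (X \ C) (M.filter (fun K => ¬ K ⊆ C)) := by
    refine ⟨?_, ?_, ?_⟩
    · intro K hK
      exact hM.good K (Finset.mem_filter.mp hK).1
    · intro K hK v hv
      rw [Finset.mem_filter] at hK
      rw [Finset.mem_sdiff]
      refine ⟨hM.sub K hK.1 hv, fun hvC => hK.2 (hC K hK.1 v hv hvC)⟩
    · intro K hK L hL hne
      exact hM.disj K (Finset.mem_filter.mp hK).1 L (Finset.mem_filter.mp hL).1 hne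
  have hdis : Disjoint (X \ C) C := Finset.sdiff_disjoint
  refine ⟨M.filter (fun K => ¬ K ⊆ C) ∪ N, (hM'.union hN hdis).mono ?_, ?_⟩
  · exact Finset.union_subset Finset.sdiff_subset hCX
  · rw [Finset.card_union_of_disjoint (matching_disjoint hr hM' hN hdis)]
    have h1 := Finset.card_filter_add_card_filter_not (s := M) (fun K => K ⊆ C)
    omega

/-- (a): no good set of free vertices with distinct closures. -/
lemma no_good_free {r : ℕ} (hr : 1 ≤ r) {z : V → V → ℝ} {X : Finset V} {M : Finset (Finset V)}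
    (hM : IsMatching r z X M) (hmax : ∀ N, IsMatching r z X N → N.card ≤ M.card) {b c : ℕ}
    (hb : r * (r + c) ≤ b) (W : Finset V) (hW : Good r z W)
    (hfree : ∀ w ∈ W, Free r z X M b c w)
    (hcl : ∀ w ∈ W, ∀ w' ∈ W, w ≠ w' → w' ∉ clos M w) : False := by
  classical
  obtain ⟨C, hCX, hCM, hWC, _, _, N, hN, hNc⟩ := simul_free hr hM W hfree hcl ∅
    (fun w _ => Finset.disjoint_empty_left _) (by rw [Finset.card_empty, hW.1]; omega)
  have hdis : Disjoint (C \ W) W := Finset.sdiff_disjoint
  have hN' : IsMatching r z C (N ∪ {W}) := by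
    apply (hN.union (isMatching_singleton hW) hdis).mono
    exact Finset.union_subset Finset.sdiff_subset hWC
  have hcard : (N ∪ {W}).card = N.card + 1 := by
    rw [Finset.card_union_of_disjoint (matching_disjoint hr hN (isMatching_singleton hW) hdis),
      Finset.card_singleton]
  obtain ⟨M', hM', hlt⟩ := augment hr hM hCX hCM hN' (by rw [hcard]; omega)
  have := hmax M' hM'
  omega

/-- (b): replacements are bad for non-free vertices. -/
lemma bad_of_not_free {r : ℕ} (hr : 1 ≤ r) {z : V → V → ℝ} {X : Finset V}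
    {M : Finset (Finset V)}
    (hM : IsMatching r z X M) {b c b' c' : ℕ} (S : Finset V)
    (hS : ∀ v ∈ S, Free r z X M b c v)
    (hb : b' + r + r * (r + c) ≤ b) (hc : r * c + r ≤ c') {K : Finset V} (hK : K ∈ M) {p : V}
    (hp : p ∈ K) (hnf : ¬ Free r z X M b' c' p) :
    ∃ Forb : Finset V, Forb.card ≤ b' * r ∧ BadRepl r z (clos M) S K p Forb := by
  classical
  have hpX : p ∈ X := hM.sub K hK hp
  have h1 : ∃ Y : Finset V, Y.card ≤ b' ∧ Disjoint Y (clos M p) ∧
      ¬ ∃ C : Finset V, C ⊆ X ∧ MClosed M C ∧ p ∈ C ∧ C.card ≤ c' ∧ Disjoint C Y ∧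
      ∃ N, IsMatching r z (C.erase p) N ∧ (M.filter (fun K => K ⊆ C)).card ≤ N.card := by
    by_contra hno
    apply hnf
    refine ⟨hpX, fun Y hY hd => ?_⟩
    by_contra hno2
    exact hno ⟨Y, hY, hd, hno2⟩
  obtain ⟨Y, hY, hYd, hno⟩ := h1
  rw [clos_eq_of_mem hM hK hp] at hYd
  refine ⟨Y.biUnion (clos M), (Finset.card_biUnion_le_card_mul _ _ _
    (fun v _ => clos_card hr hM v)).trans (Nat.mul_le_mul_right _ hY), ?_⟩
  intro D W hpD hDK _ hWS hWD hWF hWK hcl
  by_contra hlt
  push Not at hlt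
  apply hno
  have hWr : W.card ≤ r := by
    rw [hWD, ← (hM.good K hK).1]; exact Finset.card_le_card hDK
  have hdisKW : Disjoint (K \ D) W := by
    apply Finset.disjoint_of_subset_left Finset.sdiff_subset hWK.symm
  have hgood : Good r z ((K \ D) ∪ W) := by
    refine ⟨?_, hlt.le⟩
    rw [Finset.card_union_of_disjoint hdisKW, hWD]
    have := Finset.card_sdiff_add_card_eq_card hDK
    rw [(hM.good K hK).1] at this
    exact this
  obtain ⟨C, hCX, hCM, hWC, hCc, hCY, N, hN, hNc⟩ := simul_free hr hM W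
    (fun w hw => hS w (hWS hw)) hcl (Y ∪ K) (by
      intro w hw
      rw [Finset.disjoint_union_left]
      constructor
      · rw [Finset.disjoint_left]
        intro y hy hyw
        exact Finset.disjoint_left.mp hWF hw
          (Finset.mem_biUnion.mpr ⟨y, hy, clos_symm hyw⟩)
      · rw [Finset.disjoint_left]
        intro y hy hyw
        have h2 := clos_symm hyw
        rw [clos_eq_of_mem hM hK hy] at h2
        exact Finset.disjoint_left.mp hWK hw h2)
    (by
      have h2 := Finset.card_union_le Y K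
      rw [(hM.good K hK).1] at h2
      have h3 : W.card * (r + c) ≤ r * (r + c) := Nat.mul_le_mul_right _ hWr
      omega)
  rw [Finset.disjoint_union_right] at hCY
  have hCK := hCY.2
  have hdisN : Disjoint (C \ W) ((K \ D) ∪ W) := by
    rw [Finset.disjoint_union_right]
    refine ⟨?_, Finset.sdiff_disjoint⟩
    exact Finset.disjoint_of_subset_left Finset.sdiff_subset
      (Finset.disjoint_of_subset_right Finset.sdiff_subset hCK)
  refine ⟨C ∪ K, Finset.union_subset hCX (hM.sub K hK), ?_, Finset.mem_union_right _ hp, ?_, ?_,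
    N ∪ {(K \ D) ∪ W}, ?_, ?_⟩
  · intro L hL v hv hvC
    rcases Finset.mem_union.mp hvC with h | h
    · exact (hCM L hL v hv h).trans Finset.subset_union_left
    · have : L = K := by
        by_contra hne
        exact Finset.disjoint_left.mp (hM.disj L hL K hK hne) hv h
      rw [this]; exact Finset.subset_union_right
  · have h2 := Finset.card_union_le C K
    rw [(hM.good K hK).1] at h2
    have h3 : W.card * c ≤ r * c := Nat.mul_le_mul_right _ hWr
    omega
  · rw [Finset.disjoint_union_left]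
    exact ⟨hCY.1, hYd.symm⟩
  · apply (hN.union (isMatching_singleton hgood) hdisN).mono
    intro v hv
    rw [Finset.mem_erase, Finset.mem_union]
    rcases Finset.mem_union.mp hv with h | h
    · rw [Finset.mem_sdiff] at h
      refine ⟨?_, Or.inl h.1⟩
      rintro rfl
      exact Finset.disjoint_left.mp hCK h.1 hp
    · rcases Finset.mem_union.mp h with h | h
      · rw [Finset.mem_sdiff] at h
        refine ⟨?_, Or.inr h.1⟩
        rintro rfl
        exact h.2 hpD
      · refine ⟨?_, Or.inl (hWC h)⟩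
        rintro rfl
        exact Finset.disjoint_left.mp hWK h hp
  · rw [Finset.card_union_of_disjoint (matching_disjoint hr hN (isMatching_singleton hgood) hdisN),
      Finset.card_singleton]
    have h1 : M.filter (fun L => L ⊆ C ∪ K) ⊆ M.filter (fun L => L ⊆ C) ∪ {K} := by
      intro L hL
      rw [Finset.mem_filter] at hL
      rw [Finset.mem_union, Finset.mem_filter, Finset.mem_singleton]
      by_cases hLK : L = K
      · exact Or.inr hLK
      · left
        refine ⟨hL.1, fun v hv => ?_⟩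
        rcases Finset.mem_union.mp (hL.2 hv) with h | h
        · exact h
        · exact absurd h (Finset.disjoint_left.mp (hM.disj L hL.1 K hK hLK) hv)
    have h2 := (Finset.card_le_card h1).trans (Finset.card_union_le _ _)
    rw [Finset.card_singleton] at h2
    omega

/-- Pigeonhole for an increasing chain of subsets. -/
lemma chain_pigeon (F : ℕ → Finset V) (hmono : ∀ k, F k ⊆ F (k + 1)) (X : Finset V)
    (hX : ∀ k, F k ⊆ X) (hne : X.Nonempty) (η : ℝ) (L : ℕ) (hL : 1 ≤ L * η)
    (hL0 : 0 < L) :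
    ∃ k < L, ((F (k + 1) \ F k).card : ℝ) ≤ η * X.card := by
  by_contra hno
  push Not at hno
  have hn : (0 : ℝ) < X.card := by exact_mod_cast Finset.card_pos.mpr hne
  have h1 : ∀ k : ℕ, k < L → (((k + 1 : ℕ) : ℝ)) * (η * X.card) < (F (k + 1)).card := by
    intro k
    induction k with
    | zero =>
      intro h0
      have h2 := hno 0 h0
      have h3 : ((F (0 + 1) \ F 0).card : ℝ) ≤ (F (0 + 1)).card := by
        exact_mod_cast Finset.card_le_card Finset.sdiff_subset
      push_cast
      linarith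
    | succ k ih =>
      intro hk
      have h2 := ih (by omega)
      have h3 := hno (k + 1) hk
      have h4 := Finset.card_sdiff_add_card_eq_card (hmono (k + 1))
      have h5 : ((F (k + 1 + 1) \ F (k + 1)).card : ℝ) + (F (k + 1)).card =
          (F (k + 1 + 1)).card := by exact_mod_cast h4
      push_cast at h2 ⊢
      linarith
  have h2 := h1 (L - 1) (by omega)
  have h3 : L - 1 + 1 = L := by omega
  rw [h3] at h2
  have h4 : ((F L).card : ℝ) ≤ X.card := by exact_mod_cast Finset.card_le_card (hX L)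
  nlinarith

end

/-- The sizes of the augmenting structures. -/
def cc (r : ℕ) : ℕ → ℕ
  | 0 => 1
  | k + 1 => r * cc r k + r

/-- The sizes of the avoided sets. -/
def bb (r L : ℕ) (k : ℕ) : ℕ := ∑ i ∈ Finset.Ico k L, (r + r * (r + cc r i))

lemma bb_succ (r L k : ℕ) (hk : k < L) : bb r L (k + 1) + r + r * (r + cc r k) = bb r L k := by
  unfold bb
  rw [Finset.sum_eq_sum_Ico_succ_bot hk]
  ring

lemma bb_anti (r L k : ℕ) : bb r L k ≤ bb r L 0 := by
  unfold bb
  apply Finset.sum_le_sum_of_subset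
  intro i hi
  rw [Finset.mem_Ico] at hi ⊢
  exact ⟨Nat.zero_le _, hi.2⟩

lemma bb_succ_le (r L k : ℕ) : bb r L (k + 1) ≤ bb r L k := by
  unfold bb
  apply Finset.sum_le_sum_of_subset
  intro i hi
  rw [Finset.mem_Ico] at hi ⊢
  exact ⟨by omega, hi.2⟩

/-- **Near-perfect matching theorem.** -/
theorem near_perfect (r : ℕ) (hr : 2 ≤ r) (ε : ℝ) (hε : 0 < ε) (Zc : ℝ) (hZc : 0 ≤ Zc) :
    ∃ s₀ : ℕ, ∀ (V : Type) [Fintype V] [DecidableEq V] (z : V → V → ℝ), IsCost Zc z →
      ∀ X : Finset V, (∀ v ∈ X, ∑ u ∈ X, z v u ≤ (1 - 1 / (r : ℝ) - ε) * X.card) →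
      ∃ M, IsMatching r z X M ∧ (X \ cov M).card ≤ s₀ := by
  classical
  have hr1 : 1 ≤ r := by omega
  have hr2 : (2 : ℝ) ≤ r := by exact_mod_cast hr
  -- the number of steps
  obtain ⟨L, hL⟩ := exists_nat_ge (10 * r / ε)
  have hL0 : 0 < L := by
    rcases Nat.eq_zero_or_pos L with h | h
    · rw [h] at hL
      have : 0 < 10 * r / ε := by positivity
      simp at hL; linarith
    · exact h
  have hLη : 1 ≤ (L : ℝ) * (ε / (10 * r)) := by
    rw [div_le_iff₀ hε] at hL
    rw [mul_div_assoc', le_div_iff₀ (by positivity)]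
    linarith
  set B : ℕ := bb r L 0 * r with hB
  set C₁ : ℝ := (r : ℝ) / 2 * (r * (B + r) + r ^ 2 * r) with hC₁
  obtain ⟨s, hs⟩ := exists_nat_ge (C₁ * (10 * Zc / ε + 1) * (10 / ε) + 1)
  refine ⟨s, ?_⟩
  intro V _ _ z hz X hdeg
  -- maximum matching
  obtain ⟨M, hM, hmax⟩ : ∃ M, IsMatching r z X M ∧ ∀ N, IsMatching r z X N → N.card ≤ M.card := by
    have h1 : ((Finset.univ : Finset (Finset (Finset V))).filter (IsMatching r z X)).Nonempty :=
      ⟨∅, by simp [isMatching_empty]⟩
    obtain ⟨M, hM, hmax⟩ := Finset.exists_max_image _ Finset.card h1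
    rw [Finset.mem_filter] at hM
    exact ⟨M, hM.2, fun N hN => hmax N (by rw [Finset.mem_filter]; exact ⟨Finset.mem_univ _, hN⟩)⟩
  refine ⟨M, hM, ?_⟩
  by_contra hbig
  push Not at hbig
  set F : ℕ → Finset V := fun k => X.filter (fun v => Free r z X M (bb r L k) (cc r k) v) with hF
  have hFmem : ∀ k v, v ∈ F k ↔ Free r z X M (bb r L k) (cc r k) v := by
    intro k v
    simp only [hF, Finset.mem_filter]
    exact ⟨fun h => h.2, fun h => ⟨h.1, h⟩⟩
  have hccle : ∀ k, cc r k ≤ cc r (k + 1) := by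
    intro k
    show cc r k ≤ r * cc r k + r
    have : 1 * cc r k ≤ r * cc r k := Nat.mul_le_mul_right _ hr1
    omega
  have hFmono : ∀ k, F k ⊆ F (k + 1) := by
    intro k v hv
    rw [hFmem] at hv ⊢
    exact hv.mono (bb_succ_le r L k) (hccle k)
  have hFX : ∀ k, F k ⊆ X := fun k => Finset.filter_subset _ _
  -- uncovered vertices are free
  have hU0 : X \ cov M ⊆ F 0 := by
    intro v hv
    rw [Finset.mem_sdiff] at hv
    rw [hFmem]
    refine ⟨hv.1, fun Y _ hd => ⟨{v}, by simpa using hv.1, ?_, by simp, ?_, ?_, ∅,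
      isMatching_empty _ _ _, ?_⟩⟩
    · intro K hK w hw hwv
      rw [Finset.mem_singleton] at hwv
      rw [hwv] at hw
      exact absurd (mem_cov.mpr ⟨K, hK, hw⟩) hv.2
    · simp [cc]
    · rw [clos_eq_of_not_mem hv.2] at hd
      exact hd.symm
    · rw [Finset.card_empty, Nat.le_zero, Finset.card_eq_zero, Finset.filter_eq_empty_iff]
      intro K hK hsub
      have h1 : K.Nonempty := by
        rw [← Finset.card_pos, (hM.good K hK).1]; omega
      obtain ⟨w, hw⟩ := h1
      have h2 := Finset.mem_singleton.mp (hsub hw)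
      rw [h2] at hw
      exact hv.2 (mem_cov.mpr ⟨K, hK, hw⟩)
  have hU : ∀ k, X \ cov M ⊆ F k := by
    intro k
    induction k with
    | zero => exact hU0
    | succ k ih => exact ih.trans (hFmono k)
  have hXne : X.Nonempty := by
    have h1 : 0 < (X \ cov M).card := by omega
    obtain ⟨v, hv⟩ := Finset.card_pos.mp h1
    exact ⟨v, (Finset.mem_sdiff.mp hv).1⟩
  have hn : (0 : ℝ) < X.card := by exact_mod_cast Finset.card_pos.mpr hXne
  obtain ⟨k, hkL, hk⟩ := chain_pigeon F hFmono X hFX hXne (ε / (10 * r)) L hLη hL0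
  have hScard : (s : ℝ) ≤ (F k).card := by
    have h1 := Finset.card_le_card (hU k)
    have h2 : s ≤ (F k).card := by omega
    exact_mod_cast h2
  have hSX : ((F k).card : ℝ) ≤ X.card := by exact_mod_cast Finset.card_le_card (hFX k)
  have hC₁0 : 0 < C₁ := by rw [hC₁]; positivity
  have hspos : (1 : ℝ) ≤ s := by
    have : 0 ≤ C₁ * (10 * Zc / ε + 1) * (10 / ε) := by positivity
    linarith
  set β : ℝ := (10 * Zc / ε + 1) / s with hβ
  have hβ0 : 0 ≤ β := by rw [hβ]; positivity
  have hβ1 : Zc / (ε / 10 * X.card) + 1 / ((F k).card : ℝ) ≤ β := by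
    have h1 : Zc / (ε / 10 * X.card) ≤ (10 * Zc / ε) / s := by
      have h2 : Zc / (ε / 10 * X.card) = (10 * Zc / ε) / X.card := by field_simp
      rw [h2]
      apply div_le_div_of_nonneg_left (by positivity) (by linarith) (by linarith)
    have h3 : 1 / ((F k).card : ℝ) ≤ 1 / s :=
      one_div_le_one_div_of_le (by linarith) hScard
    rw [hβ, add_div]
    linarith
  have hCβ : C₁ * β ≤ ε / 10 := by
    rw [hβ, mul_div_assoc', div_le_iff₀ (by linarith)]
    have h1 : C₁ * (10 * Zc / ε + 1) = (C₁ * (10 * Zc / ε + 1) * (10 / ε)) * (ε / 10) := by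
      field_simp
    rw [h1]
    have h2 : C₁ * (10 * Zc / ε + 1) * (10 / ε) ≤ s := by linarith
    calc C₁ * (10 * Zc / ε + 1) * (10 / ε) * (ε / 10) ≤ s * (ε / 10) :=
          mul_le_mul_of_nonneg_right h2 (by positivity)
      _ = ε / 10 * s := by ring
  have hFk1 : ∀ p, p ∉ F (k + 1) → ¬ Free r z X M (bb r L (k + 1)) (cc r (k + 1)) p := by
    intro p hp hfree
    exact hp ((hFmem _ _).mpr hfree)
  obtain ⟨μ, hμ0, hμS, hμ1, hμβ, _, hA⟩ := core_lemma hr ε hε z Zc hz X (F k) (F (k + 1))
    (by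
      rw [← Finset.card_pos]
      have h1 : (0 : ℝ) < (F k).card := by linarith
      exact_mod_cast h1)
    (hFX k) hdeg hk M hM (by
      have h1 : (X \ cov M) \ F k = ∅ := Finset.sdiff_eq_empty_iff_subset.mpr (hU k)
      rw [h1]; simp; positivity)
    (clos M) r (clos_card hr1 hM) (self_mem_clos M) B
    (by
      intro K hK _ p hp
      rw [Finset.mem_sdiff] at hp
      obtain ⟨Forb, h1, h2⟩ := bad_of_not_free hr1 hM (b := bb r L k) (c := cc r k)
        (b' := bb r L (k + 1)) (c' := cc r (k + 1)) (F k) (fun v hv => (hFmem k v).mp hv)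
        (bb_succ r L k hkL).le (le_of_eq rfl) hK hp.1 (hFk1 p hp.2)
      refine ⟨Forb, h1.trans ?_, h2⟩
      rw [hB]
      exact Nat.mul_le_mul_right _ (bb_anti r L (k + 1)))
    β hβ1 (by
      have h1 : (r : ℝ) / 2 * (r * (B + r) * β + r ^ 2 * r * β) = C₁ * β := by
        rw [hC₁]; ring
      rw [h1]; exact hCβ)
  obtain ⟨W, hWS, hW, _, hcl⟩ := exists_good_of_mu hr z Zc hz (F k) μ hμ0 hμS hμ1 β hμβ ∅
    (clos M) r (clos_card hr1 hM) (self_mem_clos M) (by
      refine lt_of_lt_of_le hA ?_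
      have h1 : (r : ℝ) * ((∅ : Finset V).card : ℝ) * β + r ^ 2 * r * β ≤ C₁ * β := by
        rw [Finset.card_empty, ← add_mul]
        apply mul_le_mul_of_nonneg_right _ hβ0
        rw [hC₁]
        have h2 : (0 : ℝ) ≤ (r : ℝ) / 2 * (r * (B + r)) := by positivity
        have h3 : (r : ℝ) ^ 2 * r ≤ (r : ℝ) / 2 * (r ^ 2 * r) := by
          have : (0 : ℝ) ≤ (r : ℝ) ^ 2 * r := by positivity
          nlinarith
        push_cast
        linarith
      linarith)
  exact no_good_free hr1 hM hmax (b := bb r L k) (c := cc r k) (by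
    have := bb_succ r L k hkL
    omega) W hW (fun w hw => (hFmem k w).mp (hWS hw)) hcl

end Pool.Agent.Lib.MP_acd470_co
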