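import Mathlib
import Pool.Agent.Lib.MP_acd470_co.Link1
import Pool.Agent.Lib.MP_acd470_co.NearPerfect

/-!
# Seeds and conflict-free matchings
-/

set_option autoImplicit false
set_option linter.unusedSectionVars false

namespace Pool.Agent.Lib.MP_acd470_co

open Finset

section

variable {V : Type*} [Fintype V] [DecidableEq V]

/-- The uniform distribution on `S`. -/
noncomputable def unif (S : Finset V) : V → ℝ := fun v => if v ∈ S then 1 / (S.card : ℝ) else 0

lemma unif_nonneg (S : Finset V) (v : V) : 0 ≤ unif S v := by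
  unfold unif; split_ifs <;> positivity

lemma unif_supp (S : Finset V) (v : V) (hv : v ∉ S) : unif S v = 0 := by
  unfold unif; rw [if_neg hv]

lemma unif_le (S : Finset V) (v : V) : unif S v ≤ 1 / (S.card : ℝ) := by
  unfold unif; split_ifs
  · exact le_refl _
  · positivity

lemma unif_sum_mul (S : Finset V) (g : V → ℝ) :
    ∑ v, unif S v * g v = (∑ v ∈ S, g v) / S.card := by
  unfold unif
  calc ∑ v, (if v ∈ S then 1 / (S.card : ℝ) else 0) * g v
      = ∑ v, if v ∈ S then (1 / (S.card : ℝ) * g v) else 0 := by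
        apply Finset.sum_congr rfl; intro v _; split_ifs <;> ring
    _ = ∑ v ∈ S, 1 / (S.card : ℝ) * g v := by
        rw [Finset.sum_ite_mem, Finset.univ_inter]
    _ = _ := by rw [← Finset.mul_sum]; ring

lemma unif_sum (S : Finset V) (hS : S.Nonempty) : ∑ v, unif S v = 1 := by
  have h := unif_sum_mul S (fun _ => 1)
  simp only [mul_one, Finset.sum_const, nsmul_eq_mul] at h
  rw [h]
  have : (S.card : ℝ) ≠ 0 := by
    have := Finset.card_pos.mpr hS
    positivity
  field_simp

lemma unif_avg_le {z : V → V → ℝ} {S : Finset V} (hS : S.Nonempty) {d : ℝ} {k : V}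
    (hk : ∑ u ∈ S, z u k ≤ d * S.card) : ∑ u, unif S u * z u k ≤ d := by
  rw [unif_sum_mul S (fun u => z u k)]
  have : (0 : ℝ) < S.card := by exact_mod_cast Finset.card_pos.mpr hS
  rw [div_le_iff₀ this]
  exact hk

lemma unif_self_le {z : V → V → ℝ} {S : Finset V} (hS : S.Nonempty) {d : ℝ}
    (hk : ∀ v ∈ S, ∑ u ∈ S, z u v ≤ d * S.card) :
    ∑ v, unif S v * ∑ u, unif S u * z u v ≤ d := by
  rw [unif_sum_mul S]
  have : (0 : ℝ) < S.card := by exact_mod_cast Finset.card_pos.mpr hS
  rw [div_le_iff₀ this]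
  calc ∑ v ∈ S, ∑ u, unif S u * z u v ≤ ∑ _v ∈ S, d :=
        Finset.sum_le_sum fun v hv => unif_avg_le hS (hk v hv)
    _ = d * S.card := by rw [Finset.sum_const, nsmul_eq_mul]; ring

end

/-- Among any `r` vertices of `X` some two are robustly linked. -/
theorem seed_pair (r : ℕ) (hr : 2 ≤ r) (ε : ℝ) (hε : 0 < ε) (b₀ : ℕ) :
    ∃ n₀ : ℕ, ∀ (V : Type) [Fintype V] [DecidableEq V] (z : V → V → ℝ) (Zc : ℝ), IsCost Zc z →
      ∀ X : Finset V, (∀ v ∈ X, ∑ u ∈ X, z v u ≤ (1 - 1 / (r : ℝ) - ε) * X.card) →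
      n₀ ≤ X.card → ∀ I ⊆ X, I.card = r →
      ∃ x ∈ I, ∃ y ∈ I, x ≠ y ∧ Linked r z X b₀ (r - 1) x y := by
  classical
  have hr2 : (2 : ℝ) ≤ r := by exact_mod_cast hr
  obtain ⟨n₀, hn₀⟩ := exists_nat_gt (((r : ℝ) * (r * r * b₀ + r) + r ^ 2) / ε)
  refine ⟨n₀, ?_⟩
  intro V _ _ z Zc hz X hdeg hX I hIX hI
  by_contra hno
  push Not at hno
  have hch : ∀ x y : V, ∃ Y : Finset V, Y.card ≤ b₀ ∧ (x ∈ I → y ∈ I → x ≠ y →
      x ∉ Y ∧ y ∉ Y ∧ ∀ T, Link r z X T x y → T.card ≤ r - 1 → ¬ Disjoint T Y) := by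
    intro x y
    by_cases h : x ∈ I ∧ y ∈ I ∧ x ≠ y
    · have h1 := hno x h.1 y h.2.1 h.2.2
      unfold Linked at h1
      push Not at h1
      obtain ⟨Y, h2, h3, h4, h5⟩ := h1
      exact ⟨Y, h2, fun _ _ _ => ⟨h3, h4, h5⟩⟩
    · exact ⟨∅, by simp, fun h1 h2 h3 => absurd ⟨h1, h2, h3⟩ h⟩
  choose Yf hYf using hch
  set Forb : Finset V := I.biUnion (fun x => I.biUnion (fun y => Yf x y)) with hForb
  have hForbc : Forb.card ≤ r * r * b₀ := by
    have h1 : ∀ x ∈ I, (I.biUnion (fun y => Yf x y)).card ≤ r * b₀ := by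
      intro x _
      have := Finset.card_biUnion_le_card_mul I (fun y => Yf x y) b₀ (fun y _ => (hYf x y).1)
      rwa [hI] at this
    have h2 := Finset.card_biUnion_le_card_mul I (fun x => I.biUnion (fun y => Yf x y)) (r * b₀) h1
    rw [hI] at h2
    calc Forb.card ≤ r * (r * b₀) := h2
      _ = r * r * b₀ := by ring
  have hXne : X.Nonempty := by
    obtain ⟨x, hx⟩ := Finset.card_pos.mp (by omega : 0 < I.card)
    exact ⟨x, hIX hx⟩
  have hn : (0 : ℝ) < X.card := by exact_mod_cast Finset.card_pos.mpr hXne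
  have hdeg' : ∀ v ∈ X, ∑ u ∈ X, z u v ≤ (1 - 1 / (r : ℝ) - ε) * X.card := by
    intro v hv
    rw [Finset.sum_congr rfl (fun u _ => hz.symm u v)]
    exact hdeg v hv
  obtain ⟨x, hx, y, hy, hxy, W, hWX, hWc, hxW, hyW, hgx, hgy, hWF⟩ :=
    exists_common_extension hr z Zc hz X (unif X) (unif_nonneg X) (unif_supp X)
    (unif_sum X hXne) (1 / (X.card : ℝ)) (unif_le X) Forb I hI (1 - 1 / (r : ℝ) - ε)
    (unif_self_le hXne hdeg') (fun k hk => unif_avg_le hXne (hdeg' k (hIX hk))) (by
      have h1 : (r : ℝ) * (1 - 1 / (r : ℝ) - ε) = (r - 1) - r * ε := by field_simp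
      rw [h1]
      have h2 : ((r : ℝ) * (Forb.card + r) * (1 / (X.card : ℝ)) + r ^ 2 * (1 / (X.card : ℝ))) < ε := by
        have h3 : ((r : ℝ) * (Forb.card + r) * (1 / (X.card : ℝ)) + r ^ 2 * (1 / (X.card : ℝ))) =
            ((r : ℝ) * (Forb.card + r) + r ^ 2) / X.card := by field_simp
        rw [h3, div_lt_iff₀ hn]
        rw [div_lt_iff₀ hε] at hn₀
        have h4 : (n₀ : ℝ) ≤ X.card := by exact_mod_cast hX
        have h5 : (Forb.card : ℝ) ≤ r * r * b₀ := by exact_mod_cast hForbc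
        have h6 : (r : ℝ) * (Forb.card + r) ≤ r * (r * r * b₀ + r) :=
          mul_le_mul_of_nonneg_left (by linarith) (by linarith)
        have h7 : (n₀ : ℝ) * ε ≤ X.card * ε := mul_le_mul_of_nonneg_right h4 hε.le
        linarith
      nlinarith)
  have h8 := (hYf x y).2 hx hy hxy
  apply h8.2.2 W ⟨hWX, hxW, hyW, hxy, hgx.tileable, hgy.tileable⟩ hWc.le
  apply Finset.disjoint_of_subset_right _ hWF
  intro v hv
  rw [hForb, Finset.mem_biUnion]
  exact ⟨x, hx, Finset.mem_biUnion.mpr ⟨y, hy, hv⟩⟩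

/-- A simple Ramsey-type statement. -/
theorem ramsey_like (r : ℕ) (s : ℕ) : ∃ N : ℕ, ∀ (V : Type) [DecidableEq V]
    (Rl : V → V → Prop), (∀ x y, Rl x y → Rl y x) → ∀ X : Finset V, N ≤ X.card →
    (∀ I ⊆ X, I.card = r → ∃ x ∈ I, ∃ y ∈ I, x ≠ y ∧ Rl x y) →
    ∃ S ⊆ X, S.card = s ∧ ∀ x ∈ S, ∀ y ∈ S, x ≠ y → Rl x y := by
  classical
  induction s with
  | zero =>
    refine ⟨0, ?_⟩
    intro V _ Rl _ X _ _
    exact ⟨∅, by simp, by simp, by simp⟩
  | succ s ih =>
    obtain ⟨N, hN⟩ := ih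
    refine ⟨r * N + r, ?_⟩
    intro V _ Rl hsymm X hX hind
    set P : Finset (Finset V) := X.powerset.filter
      (fun I => ∀ x ∈ I, ∀ y ∈ I, x ≠ y → ¬ Rl x y) with hP
    have hPne : P.Nonempty := ⟨∅, by simp [hP]⟩
    obtain ⟨I, hI, hmax⟩ := Finset.exists_max_image P Finset.card hPne
    rw [hP, Finset.mem_filter, Finset.mem_powerset] at hI
    obtain ⟨hIX, hIind⟩ := hI
    have hIr : I.card < r := by
      by_contra hge
      push Not at hge
      obtain ⟨J, hJI, hJ⟩ := Finset.exists_subset_card_eq hge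
      obtain ⟨x, hx, y, hy, hxy, hR⟩ := hind J (hJI.trans hIX) hJ
      exact hIind x (hJI hx) y (hJI hy) hxy hR
    have hadj : ∀ v ∈ X \ I, ∃ u ∈ I, Rl u v := by
      intro v hv
      rw [Finset.mem_sdiff] at hv
      by_contra hno
      push Not at hno
      have h1 : insert v I ∈ P := by
        rw [hP, Finset.mem_filter, Finset.mem_powerset]
        refine ⟨Finset.insert_subset hv.1 hIX, ?_⟩
        intro x hx y hy hxy
        rw [Finset.mem_insert] at hx hy
        rcases hx with rfl | hx <;> rcases hy with rfl | hy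
        · exact absurd rfl hxy
        · exact fun h => hno y hy (hsymm _ _ h)
        · exact hno x hx
        · exact hIind x hx y hy hxy
      have h2 := hmax _ h1
      rw [Finset.card_insert_of_notMem hv.2] at h2
      omega
    have hex : ∃ u ∈ I, N ≤ ((X \ I).filter (fun v => Rl u v)).card := by
      by_contra hno
      push Not at hno
      have h1 : X \ I ⊆ I.biUnion (fun u => (X \ I).filter (fun v => Rl u v)) := by
        intro v hv
        obtain ⟨u, hu, hR⟩ := hadj v hv
        rw [Finset.mem_biUnion]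
        exact ⟨u, hu, Finset.mem_filter.mpr ⟨hv, hR⟩⟩
      have h2 := (Finset.card_le_card h1).trans
        (Finset.card_biUnion_le_card_mul I _ N (fun u hu => (hno u hu).le))
      have h3 := Finset.card_sdiff_add_card_eq_card hIX
      have h4 : I.card * N ≤ r * N := Nat.mul_le_mul_right _ hIr.le
      omega
    obtain ⟨u, hu, hN'⟩ := hex
    have hsub : (X \ I).filter (fun v => Rl u v) ⊆ X :=
      (Finset.filter_subset _ _).trans Finset.sdiff_subset
    obtain ⟨S, hSX, hSc, hS⟩ := hN V Rl hsymm ((X \ I).filter (fun v => Rl u v)) hN'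
      (fun J hJ hJc => hind J (hJ.trans hsub) hJc)
    have huS : u ∉ S := by
      intro h
      have h1 := hSX h
      rw [Finset.mem_filter, Finset.mem_sdiff] at h1
      exact h1.1.2 hu
    refine ⟨insert u S, Finset.insert_subset (hIX hu) (hSX.trans hsub), ?_, ?_⟩
    · rw [Finset.card_insert_of_notMem huS, hSc]
    · intro x hx y hy hxy
      rw [Finset.mem_insert] at hx hy
      rcases hx with rfl | hx <;> rcases hy with rfl | hy
      · exact absurd rfl hxy
      · exact (Finset.mem_filter.mp (hSX hy)).2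
      · exact hsymm _ _ (Finset.mem_filter.mp (hSX hx)).2
      · exact hS x hx y hy hxy

/-- A near-perfect matching avoiding conflicts. -/
theorem conflict_matching {V : Type} [Fintype V] [DecidableEq V] {r : ℕ} (hr : 2 ≤ r) (ε : ℝ)
    (hε : 0 < ε) (z : V → V → ℝ) (Zc : ℝ) (hz : IsCost Zc z) (hZc : (r : ℝ) ^ 2 ≤ Zc) (s₀ : ℕ)
    (hs₀ : ∀ (z' : V → V → ℝ), IsCost Zc z' →
      ∀ X : Finset V, (∀ v ∈ X, ∑ u ∈ X, z' v u ≤ (1 - 1 / (r : ℝ) - ε / 2) * X.card) →
      ∃ M, IsMatching r z' X M ∧ (X \ cov M).card ≤ s₀)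
    (X : Finset V) (hdeg : ∀ v ∈ X, ∑ u ∈ X, z v u ≤ (1 - 1 / (r : ℝ) - ε) * X.card)
    (B : ℕ) (Y : V → Finset V) (hYc : ∀ v, (Y v).card ≤ B) (hYs : ∀ v, v ∉ Y v)
    (hXne : X.Nonempty)
    (h1 : Zc * B ≤ ε / 8 * X.card) (h2 : 8 * Zc * B / ε ≤ ε / 8 * X.card)
    (h3 : s₀ + 8 * Zc * B / ε ≤ ε / 10 * X.card) :
    ∃ M, IsMatching r z X M ∧ (∀ K ∈ M, ∀ x ∈ K, Disjoint K (Y x)) ∧
      ((X \ cov M).card : ℝ) ≤ ε / 10 * X.card := by
  classical
  have hn : (0 : ℝ) < X.card := by exact_mod_cast Finset.card_pos.mpr hXne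
  have hr2 : (2 : ℝ) ≤ r := by exact_mod_cast hr
  have hZpos : 0 < Zc := by nlinarith
  set z' : V → V → ℝ := fun x y => if y ∈ Y x ∨ x ∈ Y y then Zc else z x y with hz'
  have hz'c : IsCost Zc z' := by
    refine ⟨?_, ?_, ?_, ?_⟩
    · intro u v
      simp only [hz']
      by_cases h : v ∈ Y u ∨ u ∈ Y v
      · rw [if_pos h, if_pos (Or.symm h)]
      · rw [if_neg h, if_neg (fun h' => h (Or.symm h')), hz.symm]
    · intro v
      simp only [hz']
      rw [if_neg, hz.diag]
      rintro (h | h) <;> exact hYs v h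
    · intro u v
      simp only [hz']
      split_ifs
      · exact hZpos.le
      · exact hz.nonneg _ _
    · intro u v
      simp only [hz']
      split_ifs
      · exact le_refl _
      · exact hz.le _ _
  set θ : ℝ := ε / (8 * Zc) with hθ
  have hθpos : 0 < θ := by rw [hθ]; positivity
  set indeg : V → ℝ := fun y => ((X.filter (fun x => y ∈ Y x)).card : ℝ) with hindeg
  set Q : Finset V := X.filter (fun y => θ * X.card < indeg y) with hQ
  have hsumin : ∑ y ∈ X, indeg y ≤ B * X.card := by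
    simp only [hindeg]
    have e1 : ∀ y, ((X.filter (fun x => y ∈ Y x)).card : ℝ) =
        ∑ x ∈ X, if y ∈ Y x then (1 : ℝ) else 0 := by
      intro y
      rw [Finset.sum_ite, Finset.sum_const_zero, add_zero, Finset.sum_const, nsmul_eq_mul, mul_one]
    simp only [e1]
    rw [Finset.sum_comm]
    calc ∑ x ∈ X, ∑ y ∈ X, (if y ∈ Y x then (1 : ℝ) else 0) ≤ ∑ _x ∈ X, (B : ℝ) := by
          apply Finset.sum_le_sum
          intro x _
          rw [Finset.sum_ite_mem, Finset.sum_const, nsmul_eq_mul, mul_one]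
          exact_mod_cast (Finset.card_le_card Finset.inter_subset_right).trans (hYc x)
      _ = B * X.card := by rw [Finset.sum_const, nsmul_eq_mul]; ring
  have hQc : (Q.card : ℝ) ≤ 8 * Zc * B / ε := by
    have e1 : (Q.card : ℝ) * (θ * X.card) ≤ B * X.card := by
      calc (Q.card : ℝ) * (θ * X.card) = ∑ _y ∈ Q, θ * X.card := by
            rw [Finset.sum_const, nsmul_eq_mul]
        _ ≤ ∑ y ∈ Q, indeg y := by
            apply Finset.sum_le_sum
            intro y hy
            exact (Finset.mem_filter.mp hy).2.le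
        _ ≤ ∑ y ∈ X, indeg y := by
            apply Finset.sum_le_sum_of_subset_of_nonneg (Finset.filter_subset _ _)
            intro y _ _
            simp only [hindeg]; positivity
        _ ≤ _ := hsumin
    have e2 : (Q.card : ℝ) * θ ≤ B := by
      have : ((Q.card : ℝ) * θ) * X.card ≤ B * X.card := by linarith
      exact le_of_mul_le_mul_right this hn
    rw [le_div_iff₀ hε]
    rw [hθ] at e2
    have e3 : (Q.card : ℝ) * (ε / (8 * Zc)) = (Q.card * ε) / (8 * Zc) := by ring
    rw [e3, div_le_iff₀ (by positivity)] at e2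
    linarith
  have hQX : Q ⊆ X := Finset.filter_subset _ _
  have hρ : 0 ≤ 1 - 1 / (r : ℝ) - ε := by
    obtain ⟨v, hv⟩ := hXne
    have e1 := hdeg v hv
    have e2 : 0 ≤ ∑ u ∈ X, z v u := Finset.sum_nonneg fun u _ => hz.nonneg _ _
    by_contra h; push Not at h
    nlinarith
  have hρ1 : 0 < 1 / (r : ℝ) := by positivity
  obtain ⟨M, hM, hMc⟩ := hs₀ z' hz'c (X \ Q) (by
    intro v hv
    rw [Finset.mem_sdiff] at hv
    have e1 : ∑ u ∈ X \ Q, z' v u ≤ ∑ u ∈ X, (z v u + Zc * (if u ∈ Y v then 1 else 0)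
        + Zc * (if v ∈ Y u then 1 else 0)) := by
      calc ∑ u ∈ X \ Q, z' v u ≤ ∑ u ∈ X, z' v u :=
            Finset.sum_le_sum_of_subset_of_nonneg Finset.sdiff_subset
              (fun u _ _ => hz'c.nonneg _ _)
        _ ≤ _ := by
            apply Finset.sum_le_sum
            intro u _
            have e2 := hz.nonneg v u
            simp only [hz']
            by_cases ha : u ∈ Y v <;> by_cases hb : v ∈ Y u
            · simp only [ha, hb, or_self, if_true, mul_one]; linarith
            · simp only [ha, hb, or_false, if_true, if_false, mul_one, mul_zero]; linarith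
            · simp only [ha, hb, false_or, if_true, if_false, mul_one, mul_zero]; linarith
            · simp only [ha, hb, or_self, if_false, mul_zero]; linarith
    have e3 : ∑ u ∈ X, (z v u + Zc * (if u ∈ Y v then 1 else 0)
        + Zc * (if v ∈ Y u then 1 else 0)) ≤
        (1 - 1 / (r : ℝ) - ε) * X.card + Zc * B + Zc * (θ * X.card) := by
      rw [Finset.sum_add_distrib, Finset.sum_add_distrib, ← Finset.mul_sum, ← Finset.mul_sum]
      have e4 : ∑ u ∈ X, (if u ∈ Y v then (1 : ℝ) else 0) ≤ B := by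
        rw [Finset.sum_ite_mem, Finset.sum_const, nsmul_eq_mul, mul_one]
        exact_mod_cast (Finset.card_le_card Finset.inter_subset_right).trans (hYc v)
      have e5 : ∑ u ∈ X, (if v ∈ Y u then (1 : ℝ) else 0) ≤ θ * X.card := by
        rw [Finset.sum_ite, Finset.sum_const_zero, add_zero, Finset.sum_const, nsmul_eq_mul,
          mul_one]
        by_contra hlt
        push Not at hlt
        exact hv.2 (Finset.mem_filter.mpr ⟨hv.1, hlt⟩)
      have e6 := hdeg v hv.1
      have e7 := mul_le_mul_of_nonneg_left e4 hZpos.le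
      have e8 := mul_le_mul_of_nonneg_left e5 hZpos.le
      linarith
    have e9 : Zc * (θ * X.card) = ε / 8 * X.card := by rw [hθ]; field_simp
    have e10 : ((X \ Q).card : ℝ) = X.card - Q.card := by
      have := Finset.card_sdiff_add_card_eq_card hQX
      have e11 : ((X \ Q).card : ℝ) + Q.card = X.card := by exact_mod_cast this
      linarith
    rw [e10]
    have e12 : (1 - 1 / (r : ℝ) - ε / 2) * Q.card ≤ 1 * Q.card := by
      apply mul_le_mul_of_nonneg_right (by linarith) (by positivity)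
    nlinarith)
  have hzz' : ∀ x y, z x y ≤ z' x y := by
    intro x y
    simp only [hz']
    split_ifs
    · exact hz.le _ _
    · exact le_refl _
  refine ⟨M, ⟨?_, ?_, hM.disj⟩, ?_, ?_⟩
  · intro K hK
    have h := hM.good K hK
    refine ⟨h.1, le_trans ?_ h.2⟩
    unfold cost
    exact Finset.sum_le_sum fun u _ => Finset.sum_le_sum fun v _ => hzz' u v
  · intro K hK
    exact (hM.sub K hK).trans Finset.sdiff_subset
  · intro K hK x hx
    rw [Finset.disjoint_left]
    intro y hy hyY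
    have h := (hM.good K hK).2
    have hxy : x ≠ y := by rintro rfl; exact hYs x hyY
    have e1 : z' x y + z' y x ≤ cost z' K := by
      unfold cost
      have e2 : ∑ v ∈ K, z' x v + ∑ v ∈ K, z' y v ≤ ∑ u ∈ K, ∑ v ∈ K, z' u v := by
        have a1 := Finset.add_sum_erase K (fun u => ∑ v ∈ K, z' u v) hx
        have a2 := Finset.add_sum_erase (K.erase x) (fun u => ∑ v ∈ K, z' u v)
          (Finset.mem_erase.mpr ⟨hxy.symm, hy⟩)
        have : 0 ≤ ∑ u ∈ (K.erase x).erase y, ∑ v ∈ K, z' u v :=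
          Finset.sum_nonneg fun u _ => Finset.sum_nonneg fun v _ => hz'c.nonneg _ _
        linarith
      have e3 : z' x y ≤ ∑ v ∈ K, z' x v :=
        Finset.single_le_sum (f := fun v => z' x v) (fun v _ => hz'c.nonneg _ _) hy
      have e4 : z' y x ≤ ∑ v ∈ K, z' y v :=
        Finset.single_le_sum (f := fun v => z' y v) (fun v _ => hz'c.nonneg _ _) hx
      linarith
    have e5 : z' x y = Zc := by simp only [hz']; rw [if_pos (Or.inl hyY)]
    have e6 : z' y x = Zc := by rw [hz'c.symm, e5]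
    rw [e5, e6] at e1
    nlinarith
  · have e1 : X \ cov M ⊆ ((X \ Q) \ cov M) ∪ Q := by
      intro v hv
      rw [Finset.mem_sdiff] at hv
      rw [Finset.mem_union, Finset.mem_sdiff, Finset.mem_sdiff]
      by_cases hvQ : v ∈ Q
      · exact Or.inr hvQ
      · exact Or.inl ⟨⟨hv.1, hvQ⟩, hv.2⟩
    have e2 : (X \ cov M).card ≤ s₀ + Q.card :=
      ((Finset.card_le_card e1).trans (Finset.card_union_le _ _)).trans (by omega)
    have e3 : ((X \ cov M).card : ℝ) ≤ s₀ + Q.card := by exact_mod_cast e2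
    linarith

end Pool.Agent.Lib.MP_acd470_co
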