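import Mathlib
import Pool.Agent.Lib.MP_acd470_co.Link2

/-!
# The linking theorem
-/

set_option autoImplicit false
set_option linter.unusedSectionVars false

namespace Pool.Agent.Lib.MP_acd470_co

open Finset

lemma numeric1 (R n f A : ℝ) (hA : A ≤ 1) (hf : R * f ≤ (R - 2) * n) :
    n ≤ f * A + (n - f) * ((R - (R - 2) * A) / 2) := by
  have h : f * A + (n - f) * ((R - (R - 2) * A) / 2) - n = (1 - A) * ((R - 2) * n - R * f) / 2 := by
    ring
  have h2 : 0 ≤ (1 - A) * ((R - 2) * n - R * f) := mul_nonneg (by linarith) (by linarith)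
  linarith

lemma numeric2 (R n f A : ℝ) (hR : 3 ≤ R) (hn : 0 < n) (hf0 : 0 ≤ f)
    (hf : (R - 2) * n < R * f)
    (hI : f * A + (n - f) * ((R - (R - 2) * A) / 2) ≤ (1 - 1 / R) * n)
    (hII : f * ((R - (R - 2) * A) / 2) ≤ (1 - 1 / R) * n) : False := by
  have hRpos : 0 < R := by linarith
  set P1 : ℝ := (R - 2) * f * ((1 - 1 / R) * n -
    (f * A + (n - f) * ((R - (R - 2) * A) / 2))) with hP1
  set P2 : ℝ := (R * f - (R - 2) * n) * ((1 - 1 / R) * n -
    f * ((R - (R - 2) * A) / 2)) with hP2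
  have h1 : 0 ≤ P1 := mul_nonneg (mul_nonneg (by linarith) hf0) (by linarith)
  have h2 : 0 ≤ P2 := mul_nonneg (by linarith) (by linarith)
  have h3 : (P1 + P2) * R ^ 3 = -((R ^ 2 * f - (R - 1) ^ 2 * n) ^ 2 +
      n ^ 2 * ((R - 1) * (R ^ 2 - 3 * R + 1))) := by
    rw [hP1, hP2]; field_simp; ring
  have h4 : 0 ≤ (P1 + P2) * R ^ 3 := by positivity
  have h5 : 0 < (R - 1) * (R ^ 2 - 3 * R + 1) := by
    apply mul_pos (by linarith)
    nlinarith
  have h6 : 0 < n ^ 2 * ((R - 1) * (R ^ 2 - 3 * R + 1)) := by positivity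
  have h7 : 0 ≤ (R ^ 2 * f - (R - 1) ^ 2 * n) ^ 2 := sq_nonneg _
  linarith

/-- All replacements are bad. -/
def NoRepl {V : Type} [DecidableEq V] (r : ℕ) (z : V → V → ℝ) (X F : Finset V) (p : V)
    (Y : Finset V) : Prop :=
  ∀ K D W : Finset V, Good r z K → K ⊆ X → p ∈ K → Disjoint K Y → p ∈ D → D ⊆ K →
    D.erase p ⊆ F → W ⊆ F → W.card = D.card → Disjoint W Y → Disjoint W K →
    (r : ℝ) * (r - 1) < cost z ((K \ D) ∪ W)

/-- The averaged inequality (I). -/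
lemma avg_ineq {V : Type} [Fintype V] [DecidableEq V] {r : ℕ} (hr : 2 ≤ r) (ε : ℝ)
    (hε : 0 < ε) (z : V → V → ℝ) (Zc : ℝ) (hz : IsCost Zc z)
    (X F Fp : Finset V) (hFX : F ⊆ X)
    (hdeg : ∀ v ∈ X, ∑ u ∈ X, z v u ≤ (1 - 1 / (r : ℝ) - ε) * X.card)
    (hgap : ((Fp \ F).card : ℝ) ≤ ε / (10 * r) * X.card)
    (ν : V → ℝ) (hν0 : ∀ v, 0 ≤ ν v) (hνF : ∀ v, v ∉ F → ν v = 0) (hν1 : ∑ v, ν v = 1)
    (A : ℝ) (hA0 : 0 ≤ A)
    (hlow : F.card * A - ε / 10 * X.card ≤ ∑ v ∈ F, ∑ u, ν u * z u v)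
    (hp : ∀ p ∈ X, p ∉ Fp → ((r : ℝ) - (r - 2) * A) / 2 - ε / 10 ≤ ∑ u, ν u * z u p) :
    F.card * A + (X.card - F.card) * (((r : ℝ) - (r - 2) * A) / 2) ≤
      (1 - 1 / (r : ℝ) - ε / 2) * X.card := by
  classical
  have hr2 : (2 : ℝ) ≤ r := by exact_mod_cast hr
  set a : V → ℝ := fun x => ∑ u, ν u * z u x with ha
  have ha0 : ∀ x, 0 ≤ a x := fun x => Finset.sum_nonneg fun u _ => mul_nonneg (hν0 u) (hz.nonneg _ _)
  have hup : ∑ v ∈ X, a v ≤ (1 - 1 / (r : ℝ) - ε) * X.card := by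
    have h1 : ∑ v ∈ X, a v = ∑ u, ν u * ∑ v ∈ X, z u v := by
      simp only [ha]
      rw [Finset.sum_comm]
      apply Finset.sum_congr rfl
      intro u _
      rw [Finset.mul_sum]
    rw [h1]
    calc ∑ u, ν u * ∑ v ∈ X, z u v ≤ ∑ u, ν u * ((1 - 1 / (r : ℝ) - ε) * X.card) := by
          apply Finset.sum_le_sum
          intro u _
          by_cases hu : u ∈ F
          · exact mul_le_mul_of_nonneg_left (hdeg u (hFX hu)) (hν0 u)
          · rw [hνF u hu, zero_mul, zero_mul]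
      _ = _ := by rw [← Finset.sum_mul, hν1, one_mul]
  set g : ℝ := ((r : ℝ) - (r - 2) * A) / 2 - ε / 10 with hg
  have hgr : g ≤ r / 2 := by
    have : 0 ≤ ((r : ℝ) - 2) * A := mul_nonneg (by linarith) hA0
    rw [hg]; linarith
  have hout : ((X \ F).card : ℝ) * g - (r : ℝ) / 2 * (Fp \ F).card ≤ ∑ v ∈ X \ F, a v := by
    have h1 : ∀ v ∈ X \ F, g - (r : ℝ) / 2 * (if v ∈ Fp then 1 else 0) ≤ a v := by
      intro v hv
      rw [Finset.mem_sdiff] at hv
      by_cases hvp : v ∈ Fp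
      · rw [if_pos hvp]; linarith [ha0 v]
      · rw [if_neg hvp]; have := hp v hv.1 hvp; linarith
    have h2 := Finset.sum_le_sum h1
    rw [Finset.sum_sub_distrib, Finset.sum_const, nsmul_eq_mul, ← Finset.mul_sum,
      Finset.sum_ite_mem, Finset.sum_const, nsmul_eq_mul, mul_one] at h2
    have h3 : (((X \ F) ∩ Fp).card : ℝ) ≤ (Fp \ F).card := by
      have : (X \ F) ∩ Fp ⊆ Fp \ F := by
        intro v hv
        rw [Finset.mem_inter, Finset.mem_sdiff] at hv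
        exact Finset.mem_sdiff.mpr ⟨hv.2, hv.1.2⟩
      exact_mod_cast Finset.card_le_card this
    have h4 : (r : ℝ) / 2 * ((X \ F) ∩ Fp).card ≤ (r : ℝ) / 2 * (Fp \ F).card :=
      mul_le_mul_of_nonneg_left h3 (by positivity)
    linarith
  have hsplit : ∑ v ∈ X, a v = ∑ v ∈ F, a v + ∑ v ∈ X \ F, a v := by
    rw [← Finset.sum_sdiff hFX]; ring
  have hcard : ((X \ F).card : ℝ) = X.card - F.card := by
    have := Finset.card_sdiff_add_card_eq_card hFX
    have e11 : ((X \ F).card : ℝ) + F.card = X.card := by exact_mod_cast this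
    linarith
  rw [hcard] at hout
  have h5 : (r : ℝ) / 2 * (Fp \ F).card ≤ ε / 20 * X.card := by
    calc (r : ℝ) / 2 * (Fp \ F).card ≤ (r : ℝ) / 2 * (ε / (10 * r) * X.card) :=
          mul_le_mul_of_nonneg_left hgap (by positivity)
      _ = ε / 20 * X.card := by field_simp; ring
  have hFXc : (F.card : ℝ) ≤ X.card := by exact_mod_cast Finset.card_le_card hFX
  have h6 : ((X.card : ℝ) - F.card) * g = (X.card - F.card) * (((r : ℝ) - (r - 2) * A) / 2) -
      (X.card - F.card) * (ε / 10) := by rw [hg]; ring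
  have h7 : ((X.card : ℝ) - F.card) * (ε / 10) ≤ ε / 10 * X.card := by
    have : 0 ≤ (F.card : ℝ) * (ε / 10) := by positivity
    linarith
  have hlow' : F.card * A - ε / 10 * X.card ≤ ∑ v ∈ F, a v := hlow
  have h8 : 0 ≤ ε * X.card := by positivity
  nlinarith

/-- One step of the linking argument. -/
theorem link_step {V : Type} [Fintype V] [DecidableEq V] {r : ℕ} (hr : 2 ≤ r) (ε : ℝ)
    (hε : 0 < ε) (z : V → V → ℝ) (Zc : ℝ) (hz : IsCost Zc z) (hZc : (r : ℝ) ^ 2 ≤ Zc) (s₀ : ℕ)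
    (hs₀ : ∀ (z' : V → V → ℝ), IsCost Zc z' →
      ∀ X : Finset V, (∀ v ∈ X, ∑ u ∈ X, z' v u ≤ (1 - 1 / (r : ℝ) - ε / 2) * X.card) →
      ∃ M, IsMatching r z' X M ∧ (X \ cov M).card ≤ s₀)
    (X F Fp : Finset V) (hFne : F.Nonempty) (hFFp : F ⊆ Fp) (hFpX : Fp ⊆ X)
    (hdeg : ∀ v ∈ X, ∑ u ∈ X, z v u ≤ (1 - 1 / (r : ℝ) - ε) * X.card)
    (hgap : ((Fp \ F).card : ℝ) ≤ ε / (10 * r) * X.card) (B : ℕ)
    (H : ∀ p ∈ X, p ∉ Fp → ∃ Y : Finset V, Y.card ≤ B ∧ p ∉ Y ∧ NoRepl r z X F p Y)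
    (h1 : Zc * B ≤ ε / 8 * X.card) (h2 : 8 * Zc * B / ε ≤ ε / 8 * X.card)
    (h3 : s₀ + 8 * Zc * B / ε ≤ ε / 10 * X.card)
    (β : ℝ) (hβ : Zc / (ε / 10 * X.card) + 1 / (F.card : ℝ) ≤ β)
    (hCβ : (r : ℝ) / 2 * (r * (B + 2 * r + 1) + r ^ 2) * β ≤ ε / 10) : Fp = X := by
  classical
  have hr2 : (2 : ℝ) ≤ r := by exact_mod_cast hr
  have hr1 : 1 ≤ r := by omega
  have hFX : F ⊆ X := hFFp.trans hFpX
  have hXne : X.Nonempty := hFne.mono hFX
  have hn : (0 : ℝ) < X.card := by exact_mod_cast Finset.card_pos.mpr hXne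
  have hf : (0 : ℝ) < F.card := by exact_mod_cast Finset.card_pos.mpr hFne
  have hZpos : 0 < Zc := by nlinarith
  by_contra hne
  obtain ⟨p₀, hp₀X, hp₀⟩ : ∃ p ∈ X, p ∉ Fp := by
    by_contra hno
    push Not at hno
    exact hne (Finset.Subset.antisymm hFpX hno)
  have hch : ∀ x : V, ∃ Y : Finset V, Y.card ≤ B ∧ x ∉ Y ∧ (x ∈ X → x ∉ Fp →
      NoRepl r z X F x Y) := by
    intro x
    by_cases h : x ∈ X ∧ x ∉ Fp
    · obtain ⟨Y, h4, h5, h6⟩ := H x h.1 h.2
      exact ⟨Y, h4, h5, fun _ _ => h6⟩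
    · exact ⟨∅, by simp, by simp, fun h4 h5 => absurd ⟨h4, h5⟩ h⟩
  choose Yf hYc hYs hYN using hch
  obtain ⟨M, hM, hMY, hMu⟩ := conflict_matching hr ε hε z Zc hz hZc s₀ hs₀ X hdeg B Yf hYc hYs
    hXne h1 h2 h3
  have hβ0 : 0 ≤ β := by
    have : 0 ≤ Zc / (ε / 10 * X.card) + 1 / (F.card : ℝ) := by positivity
    linarith
  have hcl1 : ∀ v : V, (({v} : Finset V)).card ≤ 1 := fun v => by simp
  have hself : ∀ v : V, v ∈ ({v} : Finset V) := fun v => Finset.mem_singleton_self v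
  set C₁ : ℝ := (r : ℝ) / 2 * (r * (B + 2 * r + 1) + r ^ 2) with hC₁
  have hBr : (0 : ℝ) ≤ r * (B + 2 * r + 1) + r ^ 2 := by positivity
  have hhalf : (r * (B + 2 * r + 1) + (r : ℝ) ^ 2) * β ≤ ε / 10 := by
    refine le_trans ?_ hCβ
    apply mul_le_mul_of_nonneg_right _ hβ0
    rw [hC₁]
    nlinarith
  obtain ⟨μ, hμ0, hμS, hμ1, hμβ, hkkt, hA⟩ := core_lemma hr ε hε z Zc hz X F Fp hFne hFX hdeg
    hgap M hM (le_trans (by exact_mod_cast Finset.card_le_card Finset.sdiff_subset) hMu)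
    (fun v => {v}) 1 hcl1 hself B (by
      intro K hK _ p hp
      rw [Finset.mem_sdiff] at hp
      refine ⟨Yf p, hYc p, ?_⟩
      intro D W hpD hDK hDF hWF hWD hWY hWK _
      exact (hYN p (hM.sub K hK hp.1) hp.2 K D W (hM.good K hK) (hM.sub K hK) hp.1
        (hMY K hK p hp.1) hpD hDK hDF hWF hWD hWY hWK).le) β hβ (by
      refine le_trans ?_ hCβ
      rw [hC₁]
      have e1 : (r : ℝ) / 2 * (r * (B + r) * β + r ^ 2 * ((1 : ℕ) : ℝ) * β) =
        (r : ℝ) / 2 * (r * (B + r) + r ^ 2) * β := by push_cast; ring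
      rw [e1]
      apply mul_le_mul_of_nonneg_right _ hβ0
      apply mul_le_mul_of_nonneg_left _ (by positivity)
      nlinarith)
  set Aμ : ℝ := ∑ v, μ v * ∑ u, μ u * z u v with hAμ
  -- robust good sets
  have hrobust : ∀ Forb : Finset V, Forb.card ≤ B + r → ∃ W : Finset V, W ⊆ F ∧ Good r z W ∧
      Disjoint W Forb := by
    intro Forb hForb
    obtain ⟨W, hW1, hW2, hW3, _⟩ := exists_good_of_mu hr z Zc hz F μ hμ0 hμS hμ1 β hμβ Forb
      (fun v => {v}) 1 hcl1 hself (by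
        refine lt_of_lt_of_le hA ?_
        have e1 : (Forb.card : ℝ) ≤ B + r := by exact_mod_cast hForb
        have e2 : (r : ℝ) * Forb.card * β + r ^ 2 * ((1 : ℕ) : ℝ) * β ≤
            (r * (B + 2 * r + 1) + (r : ℝ) ^ 2) * β := by
          have e3 : (r : ℝ) * Forb.card * β + r ^ 2 * ((1 : ℕ) : ℝ) * β =
            (r * Forb.card + r ^ 2) * β := by push_cast; ring
          rw [e3]
          apply mul_le_mul_of_nonneg_right _ hβ0
          have e4 : (r : ℝ) * Forb.card ≤ r * (B + 2 * r + 1) :=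
            mul_le_mul_of_nonneg_left (by linarith) (by linarith)
          linarith
        exact sub_le_sub_left (e2.trans hhalf) 1)
    exact ⟨W, hW1, hW2, hW3⟩
  -- no extensions of vertices outside `Fp`
  have hnoext : ∀ p ∈ X, p ∉ Fp → ∀ W' : Finset V, W' ⊆ F → W'.card = r - 1 → p ∉ W' →
      Good r z (insert p W') → Disjoint W' (Yf p) → False := by
    intro p hpX hp W' hW'F hW'c hpW' hg hdis
    obtain ⟨W, hWF, hWg, hWd⟩ := hrobust (insert p W' ∪ Yf p) (by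
      have e1 := Finset.card_union_le (insert p W') (Yf p)
      have e2 := hYc p
      rw [hg.1] at e1
      omega)
    rw [Finset.disjoint_union_right] at hWd
    have e1 := hYN p hpX hp (insert p W') (insert p W') W hg
      (Finset.insert_subset hpX (hW'F.trans hFX)) (Finset.mem_insert_self _ _)
      (by rw [Finset.disjoint_insert_left]; exact ⟨hYs p, hdis⟩) (Finset.mem_insert_self _ _)
      (Finset.Subset.refl _) (by rw [Finset.erase_insert hpW']; exact hW'F) hWF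
      (by rw [hWg.1, hg.1]) hWd.2 hWd.1
    rw [Finset.sdiff_self, Finset.empty_union] at e1
    exact absurd hWg.2 (not_le.mpr e1)
  -- the inequality for outside vertices
  have hout : ∀ ν : V → ℝ, (∀ v, 0 ≤ ν v) → (∀ v, v ∉ F → ν v = 0) → (∑ v, ν v = 1) →
      (∀ v, ν v ≤ β) → ∀ p ∈ X, p ∉ Fp →
      ((r : ℝ) - (r - 2) * (∑ v, ν v * ∑ u, ν u * z u v)) / 2 - ε / 10 ≤ ∑ u, ν u * z u p := by
    intro ν hν0 hνF hν1 hνβ p hpX hp
    by_contra hlt
    push Not at hlt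
    obtain ⟨W', hW'1, hW'2, hW'3, hW'4, hW'5, _⟩ := exists_extension_of_mu hr z Zc hz F ν hν0
      hνF hν1 β hνβ (Yf p) (fun v => {v}) 1 hcl1 hself p (by
        have e1 : ((Yf p).card : ℝ) ≤ B := by exact_mod_cast hYc p
        have e2 : (r : ℝ) * ((Yf p).card + 1) * β + r ^ 2 * ((1 : ℕ) : ℝ) * β ≤
            (r * (B + 2 * r + 1) + (r : ℝ) ^ 2) * β := by
          have e3 : (r : ℝ) * ((Yf p).card + 1) * β + r ^ 2 * ((1 : ℕ) : ℝ) * β =
            (r * ((Yf p).card + 1) + r ^ 2) * β := by push_cast; ring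
          rw [e3]
          apply mul_le_mul_of_nonneg_right _ hβ0
          have e4 : (r : ℝ) * ((Yf p).card + 1) ≤ r * (B + 2 * r + 1) :=
            mul_le_mul_of_nonneg_left (by linarith) (by linarith)
          linarith
        have e5 : (r : ℝ) * ((r : ℝ) * ((Yf p).card + 1) * β + r ^ 2 * ((1 : ℕ) : ℝ) * β) ≤
            r * ((r * (B + 2 * r + 1) + (r : ℝ) ^ 2) * β) :=
          mul_le_mul_of_nonneg_left e2 (by linarith)
        have e6 : (r : ℝ) * ((r * (B + 2 * r + 1) + (r : ℝ) ^ 2) * β) = 2 * (C₁ * β) := by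
          rw [hC₁]; ring
        have e7 : (r : ℝ) * (1 - ((r : ℝ) * ((Yf p).card + 1) * β + r ^ 2 * ((1 : ℕ) : ℝ) * β)) =
          r - (r : ℝ) * ((r : ℝ) * ((Yf p).card + 1) * β + r ^ 2 * ((1 : ℕ) : ℝ) * β) := by ring
        rw [e7]
        linarith)
    exact hnoext p hpX hp W' hW'1 hW'2 hW'3 hW'4 hW'5
  have hA0 : ∀ ν : V → ℝ, (∀ v, 0 ≤ ν v) → 0 ≤ ∑ v, ν v * ∑ u, ν u * z u v := fun ν hν =>
    Finset.sum_nonneg fun v _ => mul_nonneg (hν v)
      (Finset.sum_nonneg fun u _ => mul_nonneg (hν u) (hz.nonneg _ _))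
  have hρ : 0 < 1 / (r : ℝ) := by positivity
  by_cases hcase : (r : ℝ) * F.card ≤ (r - 2) * X.card
  · have e1 := avg_ineq hr ε hε z Zc hz X F Fp hFX hdeg hgap μ hμ0 hμS hμ1 Aμ (hA0 μ hμ0) (by
      have e2 : ∀ v ∈ F, Aμ - (ε / 10 * X.card) * μ v ≤ ∑ u, μ u * z u v := by
        intro v hv
        have := hkkt v hv
        linarith
      have e3 := Finset.sum_le_sum e2
      rw [Finset.sum_sub_distrib, Finset.sum_const, nsmul_eq_mul, ← Finset.mul_sum] at e3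
      have e4 : ∑ v ∈ F, μ v ≤ 1 := by
        rw [← hμ1]
        exact Finset.sum_le_sum_of_subset_of_nonneg (Finset.subset_univ _) (fun v _ _ => hμ0 v)
      have e5 : (ε / 10 * (X.card : ℝ)) * ∑ v ∈ F, μ v ≤ (ε / 10 * X.card) * 1 :=
        mul_le_mul_of_nonneg_left e4 (by positivity)
      linarith) (hout μ hμ0 hμS hμ1 hμβ)
    have e6 := numeric1 (r : ℝ) X.card F.card Aμ (by linarith) hcase
    have e7 : (1 - 1 / (r : ℝ) - ε / 2) * (X.card : ℝ) < 1 * X.card := by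
      apply mul_lt_mul_of_pos_right _ hn
      linarith
    linarith
  · push Not at hcase
    set ν : V → ℝ := unif F with hν
    have hνβ : ∀ v, ν v ≤ β := by
      intro v
      refine (unif_le F v).trans (le_trans ?_ hβ)
      have : 0 ≤ Zc / (ε / 10 * X.card) := by positivity
      linarith
    have houtν := hout ν (unif_nonneg F) (unif_supp F) (unif_sum F hFne) hνβ
    set Aν : ℝ := ∑ v, ν v * ∑ u, ν u * z u v with hAν
    have e1 := avg_ineq hr ε hε z Zc hz X F Fp hFX hdeg hgap ν (unif_nonneg F) (unif_supp F)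
      (unif_sum F hFne) Aν (hA0 ν (unif_nonneg F)) (by
      have e2 : (F.card : ℝ) * Aν = ∑ v ∈ F, ∑ u, ν u * z u v := by
        rw [hAν, hν, unif_sum_mul F]
        field_simp
      rw [e2]
      have : 0 ≤ ε / 10 * (X.card : ℝ) := by positivity
      linarith) houtν
    have e3 : (F.card : ℝ) * (∑ u, ν u * z u p₀) ≤ (1 - 1 / (r : ℝ) - ε) * X.card := by
      have e4 : (F.card : ℝ) * (∑ u, ν u * z u p₀) = ∑ u ∈ F, z u p₀ := by
        rw [hν, unif_sum_mul F (fun u => z u p₀)]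
        field_simp
      rw [e4]
      calc ∑ u ∈ F, z u p₀ ≤ ∑ u ∈ X, z u p₀ :=
            Finset.sum_le_sum_of_subset_of_nonneg hFX (fun u _ _ => hz.nonneg _ _)
        _ = ∑ u ∈ X, z p₀ u := Finset.sum_congr rfl fun u _ => hz.symm u p₀
        _ ≤ _ := hdeg p₀ hp₀X
    have e5 := mul_le_mul_of_nonneg_left (houtν p₀ hp₀X hp₀) hf.le
    have hFXc : (F.card : ℝ) ≤ X.card := by exact_mod_cast Finset.card_le_card hFX
    have e6 : (F.card : ℝ) * (((r : ℝ) - (r - 2) * Aν) / 2) ≤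
        (1 - 1 / (r : ℝ) - ε / 2) * X.card := by
      have e7 : (F.card : ℝ) * (((r : ℝ) - (r - 2) * Aν) / 2 - ε / 10) =
        (F.card : ℝ) * (((r : ℝ) - (r - 2) * Aν) / 2) - F.card * (ε / 10) := by ring
      rw [e7] at e5
      have e8 : (F.card : ℝ) * (ε / 10) ≤ X.card * (ε / 10) :=
        mul_le_mul_of_nonneg_right hFXc (by positivity)
      have e9 : 0 < ε * (X.card : ℝ) := by positivity
      linarith
    have e10 : 0 < ε / 2 * (X.card : ℝ) := by positivity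
    have e11 : (1 - 1 / (r : ℝ) - ε / 2) * (X.card : ℝ) = (1 - 1 / (r : ℝ)) * X.card -
      ε / 2 * X.card := by ring
    rw [e11] at e1 e6
    rcases Nat.lt_or_ge 2 r with h3r | h2r
    · have h3r' : (3 : ℝ) ≤ r := by exact_mod_cast h3r
      exact numeric2 (r : ℝ) X.card F.card Aν h3r' hn hf.le hcase (by linarith) (by linarith)
    · have h2 : (r : ℝ) = 2 := by
        have : r = 2 := le_antisymm h2r hr
        rw [this]; norm_num
      rw [h2] at e1 e6
      have e12 : 0 ≤ (F.card : ℝ) * Aν := mul_nonneg hf.le (hA0 ν (unif_nonneg F))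
      norm_num at e1 e6
      linarith

end Pool.Agent.Lib.MP_acd470_co
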