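import Mathlib
import Pool.Agent.Lib.MP_acd470_co.Link3

/-!
# The linking theorem
-/

set_option autoImplicit false
set_option linter.unusedSectionVars false

namespace Pool.Agent.Lib.MP_acd470_co

open Finset

/-- Sizes of links. -/
def lc (r : ℕ) : ℕ → ℕ
  | 0 => r - 1
  | k + 1 => 2 * r + r * (2 * lc r k + (r - 1) + 2) + lc r k

lemma lc_mono (r : ℕ) : Monotone (lc r) := by
  apply monotone_nat_of_le_succ
  intro k
  show lc r k ≤ 2 * r + r * (2 * lc r k + (r - 1) + 2) + lc r k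
  omega

/-- Sizes of avoided sets. -/
def lb (r L b : ℕ) (k : ℕ) : ℕ :=
  (b + lc r L + 2) + ∑ i ∈ Finset.Ico k L,
    (3 * r + 4 + 2 * lc r i + r * (2 * lc r i + (r - 1) + 2 + 2))

lemma lb_succ (r L b k : ℕ) (hk : k < L) : lb r L b k = lb r L b (k + 1) +
    (3 * r + 4 + 2 * lc r k + r * (2 * lc r k + (r - 1) + 2 + 2)) := by
  unfold lb
  rw [Finset.sum_eq_sum_Ico_succ_bot hk]
  ring

lemma lb_anti (r L b k : ℕ) : lb r L b k ≤ lb r L b 0 := by
  unfold lb
  apply Nat.add_le_add_left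
  apply Finset.sum_le_sum_of_subset
  intro i hi
  rw [Finset.mem_Ico] at hi ⊢
  exact ⟨Nat.zero_le _, hi.2⟩

lemma lb_succ_le (r L b k : ℕ) : lb r L b (k + 1) ≤ lb r L b k := by
  unfold lb
  apply Nat.add_le_add_left
  apply Finset.sum_le_sum_of_subset
  intro i hi
  rw [Finset.mem_Ico] at hi ⊢
  exact ⟨by omega, hi.2⟩

lemma lb_L (r L b : ℕ) : lb r L b L = b + lc r L + 2 := by
  unfold lb
  simp

/-- **The linking theorem.** -/
theorem linking (r : ℕ) (hr : 2 ≤ r) (ε : ℝ) (hε : 0 < ε) (Zc : ℝ) (hZc : (r : ℝ) ^ 2 ≤ Zc) :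
    ∃ c : ℕ, ∀ b : ℕ, ∃ n₀ : ℕ, ∀ (V : Type) [Fintype V] [DecidableEq V] (z : V → V → ℝ),
      IsCost Zc z →
      ∀ X : Finset V, (∀ v ∈ X, ∑ u ∈ X, z v u ≤ (1 - 1 / (r : ℝ) - ε) * X.card) →
      n₀ ≤ X.card → ∀ x ∈ X, ∀ y ∈ X, x ≠ y → Linked r z X b c x y := by
  classical
  have hr1 : 1 ≤ r := by omega
  have hr2 : (2 : ℝ) ≤ r := by exact_mod_cast hr
  have hZpos : 0 < Zc := by nlinarith
  -- the number of steps
  obtain ⟨L, hL⟩ := exists_nat_ge (10 * r / ε)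
  have hL0 : 0 < L := by
    rcases Nat.eq_zero_or_pos L with h | h
    · rw [h] at hL
      have : 0 < 10 * r / ε := by positivity
      simp at hL; linarith
    · exact h
  have hLη : 1 ≤ (L : ℝ) * (ε / (10 * r)) := by
    rw [div_le_iff₀ hε] at hL
    rw [mul_div_assoc', le_div_iff₀ (by positivity)]
    linarith
  refine ⟨2 * lc r L + (r - 1) + 2, ?_⟩
  intro b
  obtain ⟨s₀, hs₀⟩ := near_perfect r hr (ε / 2) (by positivity) Zc hZpos.le
  set B : ℕ := lb r L b 0 with hB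
  set B₀ : ℕ := B + 2 * lc r L + 2 with hB₀
  set C₁ : ℝ := (r : ℝ) / 2 * (r * (B + 2 * r + 1) + r ^ 2) with hC₁
  have hC₁0 : 0 < C₁ := by rw [hC₁]; positivity
  obtain ⟨s, hs⟩ := exists_nat_ge (C₁ * (10 * Zc / ε + 1) * (10 / ε) + (B + 2))
  obtain ⟨n₁, hn₁⟩ := seed_pair r hr ε hε B₀
  obtain ⟨n₂, hn₂⟩ := ramsey_like r s
  obtain ⟨n₃, hn₃⟩ := exists_nat_ge (8 / ε * (Zc * B) + 8 / ε * (8 * Zc * B / ε) +
    10 / ε * (s₀ + 8 * Zc * B / ε))
  refine ⟨n₁ + n₂ + n₃ + 1, ?_⟩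
  intro V _ _ z hz X hdeg hX
  have hXne : X.Nonempty := by rw [← Finset.card_pos]; omega
  have hn : (0 : ℝ) < X.card := by exact_mod_cast Finset.card_pos.mpr hXne
  obtain ⟨S₀, hS₀X, hS₀c, hS₀⟩ := hn₂ V (fun x y => Linked r z X B₀ (r - 1) x y)
    (fun x y h => h.symm) X (by omega) (hn₁ V z Zc hz X hdeg (by omega))
  set F : ℕ → Finset V := fun k => X.filter (fun v => ToSeed r z X S₀ (lb r L b k) (lc r k) v)
    with hF
  have hFmem : ∀ k v, v ∈ F k ↔ ToSeed r z X S₀ (lb r L b k) (lc r k) v := by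
    intro k v
    simp only [hF, Finset.mem_filter]
    exact ⟨fun h => h.2, fun h => ⟨h.1, h⟩⟩
  have hFmono : ∀ k, F k ⊆ F (k + 1) := by
    intro k v hv
    rw [hFmem] at hv ⊢
    exact hv.mono (lb_succ_le r L b k) (lc_mono r (Nat.le_succ k))
  have hFmono' : Monotone F := monotone_nat_of_le_succ hFmono
  have hFX : ∀ k, F k ⊆ X := fun k => Finset.filter_subset _ _
  have hsB : B + 2 ≤ s := by
    have h1 : 0 ≤ C₁ * (10 * Zc / ε + 1) * (10 / ε) := by positivity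
    have h2 : ((B : ℝ) + 2) ≤ s := by linarith
    exact_mod_cast h2
  have hS₀F : S₀ ⊆ F 0 := by
    intro p hp
    rw [hFmem]
    refine ⟨hS₀X hp, fun Y hY hpY => ?_⟩
    have h1 : ∃ w ∈ S₀, w ∉ insert p Y := by
      by_contra hno
      push Not at hno
      have h2 := Finset.card_le_card (fun w hw => hno w hw : S₀ ⊆ insert p Y)
      have h3 := Finset.card_insert_le p Y
      omega
    obtain ⟨w, hw, hwY⟩ := h1
    rw [Finset.mem_insert] at hwY
    push Not at hwY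
    obtain ⟨T, hT, hTc, hTY⟩ := hS₀ p hp w hw hwY.1.symm Y (by omega) hpY hwY.2
    exact ⟨w, hw, hwY.2, T, hT, hTc, hTY⟩
  have hS₀Fk : ∀ k, S₀ ⊆ F k := fun k => hS₀F.trans (hFmono' (Nat.zero_le k))
  obtain ⟨k, hkL, hk⟩ := chain_pigeon F hFmono X hFX hXne (ε / (10 * r)) L hLη hL0
  have hscard : (s : ℝ) ≤ (F k).card := by
    have h1 := Finset.card_le_card (hS₀Fk k)
    rw [hS₀c] at h1
    exact_mod_cast h1
  have hSX : ((F k).card : ℝ) ≤ X.card := by exact_mod_cast Finset.card_le_card (hFX k)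
  have hspos : (1 : ℝ) ≤ s := by
    have : 1 ≤ s := by omega
    exact_mod_cast this
  set β : ℝ := (10 * Zc / ε + 1) / s with hβ
  have hβ0 : 0 ≤ β := by rw [hβ]; positivity
  have hβ1 : Zc / (ε / 10 * X.card) + 1 / ((F k).card : ℝ) ≤ β := by
    have h1 : Zc / (ε / 10 * X.card) ≤ (10 * Zc / ε) / s := by
      have h2 : Zc / (ε / 10 * X.card) = (10 * Zc / ε) / X.card := by field_simp
      rw [h2]
      apply div_le_div_of_nonneg_left (by positivity) (by linarith) (by linarith)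
    have h3 : 1 / ((F k).card : ℝ) ≤ 1 / s :=
      one_div_le_one_div_of_le (by linarith) hscard
    rw [hβ, add_div]
    linarith
  have hCβ : C₁ * β ≤ ε / 10 := by
    rw [hβ, mul_div_assoc', div_le_iff₀ (by linarith)]
    have h1 : C₁ * (10 * Zc / ε + 1) = (C₁ * (10 * Zc / ε + 1) * (10 / ε)) * (ε / 10) := by
      field_simp
    rw [h1]
    have h2 : C₁ * (10 * Zc / ε + 1) * (10 / ε) ≤ s := by
      have : (0 : ℝ) ≤ B + 2 := by positivity
      linarith
    calc C₁ * (10 * Zc / ε + 1) * (10 / ε) * (ε / 10) ≤ s * (ε / 10) :=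
          mul_le_mul_of_nonneg_right h2 (by positivity)
      _ = ε / 10 * s := by ring
  have hn3 : 8 / ε * (Zc * B) + 8 / ε * (8 * Zc * B / ε) +
    10 / ε * (s₀ + 8 * Zc * B / ε) ≤ (X.card : ℝ) := by
    have h1 : (n₃ : ℝ) ≤ X.card := by
      have : n₃ ≤ X.card := by omega
      exact_mod_cast this
    linarith
  have p1 : 0 ≤ 8 / ε * (Zc * B) := by positivity
  have p2 : 0 ≤ 8 / ε * (8 * Zc * B / ε) := by positivity
  have p3 : 0 ≤ 10 / ε * (s₀ + 8 * Zc * B / ε) := by positivity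
  have q1 : Zc * B ≤ ε / 8 * X.card := by
    have h1 : 8 / ε * (Zc * B) ≤ X.card := by linarith
    have h2 := mul_le_mul_of_nonneg_left h1 (by positivity : 0 ≤ ε / 8)
    have h3 : ε / 8 * (8 / ε * (Zc * B)) = Zc * B := by field_simp
    linarith
  have q2 : 8 * Zc * B / ε ≤ ε / 8 * X.card := by
    have h1 : 8 / ε * (8 * Zc * B / ε) ≤ X.card := by linarith
    have h2 := mul_le_mul_of_nonneg_left h1 (by positivity : 0 ≤ ε / 8)
    have h3 : ε / 8 * (8 / ε * (8 * Zc * B / ε)) = 8 * Zc * B / ε := by field_simp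
    linarith
  have q3 : s₀ + 8 * Zc * B / ε ≤ ε / 10 * X.card := by
    have h1 : 10 / ε * (s₀ + 8 * Zc * B / ε) ≤ X.card := by linarith
    have h2 := mul_le_mul_of_nonneg_left h1 (by positivity : 0 ≤ ε / 10)
    have h3 : ε / 10 * (10 / ε * (s₀ + 8 * Zc * B / ε)) = s₀ + 8 * Zc * B / ε := by field_simp
    linarith
  have hlck : lc r k ≤ lc r L := lc_mono r hkL.le
  have hlbk := lb_succ r L b k hkL
  have hlb0 := lb_anti r L b k
  have hFF : ∀ x ∈ F k, ∀ y ∈ F k, x ≠ y → Linked r z X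
      (lb r L b (k + 1) + r + 2 + lc r k + r * (2 * lc r k + (r - 1) + 2 + 2))
      (2 * lc r k + (r - 1) + 2) x y := by
    intro x hx y hy hxy
    exact linked_of_toSeed hS₀X hS₀ hxy ((hFmem k x).mp hx) ((hFmem k y).mp hy)
      (by omega) (by omega)
  have hstep := link_step hr ε hε z Zc hz hZc s₀ (fun z' hz' X' hX' => hs₀ V z' hz' X' hX')
    X (F k) (F (k + 1)) (by
      rw [← Finset.card_pos]
      have h1 : (0 : ℝ) < (F k).card := by linarith
      exact_mod_cast h1) (hFmono k) (hFX (k + 1)) hdeg hk B (by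
      intro p hpX hp
      have h1 : ∃ Y : Finset V, Y.card ≤ lb r L b (k + 1) ∧ p ∉ Y ∧
          ¬ ∃ w ∈ S₀, w ∉ Y ∧ ∃ T, Link r z X T p w ∧ T.card ≤ lc r (k + 1) ∧ Disjoint T Y := by
        by_contra hno
        apply hp
        rw [hFmem]
        refine ⟨hpX, fun Y hY hpY => ?_⟩
        by_contra hno2
        exact hno ⟨Y, hY, hpY, hno2⟩
      obtain ⟨Y, hY, hpY, hno⟩ := h1
      refine ⟨Y, hY.trans (lb_anti r L b (k + 1)), hpY, ?_⟩
      intro K D W hK hKX hpK hKY hpD hDK hDF hWF hWD hWY hWK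
      by_contra hle
      push Not at hle
      apply hno
      obtain ⟨w, hw, hwY, T, hT, hTc, hTY⟩ := closure_rule (F k) (fun v hv => (hFmem k v).mp hv)
        hFF hK hKX hpK hKY hpD hDK hDF hWF hWD hWY hWK hle (by omega) (by omega)
      refine ⟨w, hw, hwY, T, hT, hTc.trans (le_of_eq ?_), hTY⟩
      show _ = 2 * r + r * (2 * lc r k + (r - 1) + 2) + lc r k
      rfl) q1 q2 q3 β hβ1 hCβ
  have hFL : X ⊆ F L := by
    rw [← hstep]
    exact hFmono' hkL
  intro x hx y hy hxy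
  have h1 := (hFmem L x).mp (hFL hx)
  have h2 := (hFmem L y).mp (hFL hy)
  have h3 := lb_L r L b
  have h4 := lb_anti r L b L
  exact linked_of_toSeed hS₀X hS₀ hxy h1 h2 (by omega) (by omega)

end Pool.Agent.Lib.MP_acd470_co
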