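import Mathlib

/-!
# Halving
-/

set_option autoImplicit false
set_option linter.unusedSectionVars false

namespace Pool.Agent.Lib.MP_acd470_co

open Finset

lemma coef_nonneg {d n s : ℝ} (hn : 0 < n) (h0 : 0 ≤ s) (h : s ≤ d * n) : 0 ≤ d := by
  by_contra hneg
  push Not at hneg
  nlinarith

lemma np_deg {ρ ε A X s : ℝ} (h1 : s ≤ (ρ - ε) * A) (h2 : X ≤ ε / 2 * A)
    (h3 : ρ - ε / 2 ≤ 1) (hX : 0 ≤ X) : s ≤ (ρ - ε / 2) * (A - X) := by
  have h4 : (ρ - ε / 2) * X ≤ 1 * X := mul_le_mul_of_nonneg_right h3 hX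
  nlinarith

lemma np_deg2 {ρ ε A X s : ℝ} (h1 : s ≤ (ρ - 2 * ε) * A) (h2 : X ≤ ε * A)
    (h3 : ρ - ε / 2 ≤ 1) (hX : 0 ≤ X) (hA : 0 ≤ ε * A) : s ≤ (ρ - ε / 2) * (A - X) := by
  have h4 : (ρ - ε / 2) * X ≤ 1 * X := mul_le_mul_of_nonneg_right h3 hX
  nlinarith

lemma np_deg3 {ρ ε A B s t Zc N : ℝ} (h1 : s ≤ (ρ - 2 * ε) * A) (h2 : t ≤ Zc * B)
    (h3 : B ≤ N) (hZ : 0 ≤ Zc) (h4 : N * Zc ≤ ε * A) (hB : 0 ≤ B) (hρ : 0 ≤ ρ - ε) :
    s + t ≤ (ρ - ε) * (A + B) := by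
  have h5 : Zc * B ≤ Zc * N := mul_le_mul_of_nonneg_left h3 hZ
  have h6 : 0 ≤ (ρ - ε) * B := mul_nonneg hρ hB
  nlinarith

/-- The fourth root. -/
noncomputable def q4 (m : ℝ) : ℝ := Real.sqrt (Real.sqrt m)

lemma q4_pow {m : ℝ} (hm : 0 ≤ m) : q4 m ^ 4 = m := by
  unfold q4
  have h1 := Real.sq_sqrt (Real.sqrt_nonneg m)
  have h2 := Real.sq_sqrt hm
  calc (Real.sqrt (Real.sqrt m)) ^ 4 = ((Real.sqrt (Real.sqrt m)) ^ 2) ^ 2 := by ring
    _ = m := by rw [h1, h2]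

lemma q4_sq {m : ℝ} : q4 m ^ 2 = Real.sqrt m := by
  unfold q4
  exact Real.sq_sqrt (Real.sqrt_nonneg m)

lemma q4_one_le {m : ℝ} (hm : 1 ≤ m) : 1 ≤ q4 m := by
  unfold q4
  rw [Real.one_le_sqrt, Real.one_le_sqrt]
  exact hm

lemma q4_mono {m m' : ℝ} (h : m ≤ m') : q4 m ≤ q4 m' := by
  unfold q4
  exact Real.sqrt_le_sqrt (Real.sqrt_le_sqrt h)

lemma q4_nonneg (m : ℝ) : 0 ≤ q4 m := Real.sqrt_nonneg _

section

variable {V : Type} [Fintype V] [DecidableEq V]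

lemma sum_exp (X : Finset V) (f : V → ℝ) (s : ℝ) :
    ∑ A ∈ X.powerset, Real.exp (s * (∑ v ∈ A, f v - ∑ v ∈ X \ A, f v)) =
      ∏ v ∈ X, (Real.exp (s * f v) + Real.exp (-(s * f v))) := by
  rw [Finset.prod_add]
  apply Finset.sum_congr rfl
  intro A _
  rw [← Real.exp_sum, ← Real.exp_sum, ← Real.exp_add]
  congr 1
  rw [Finset.sum_neg_distrib, ← Finset.mul_sum, ← Finset.mul_sum]
  ring

lemma prod_le (X : Finset V) (f : V → ℝ) (s Zc : ℝ) (hf : ∀ v, |f v| ≤ Zc) :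
    ∏ v ∈ X, (Real.exp (s * f v) + Real.exp (-(s * f v))) ≤
      2 ^ X.card * Real.exp (s ^ 2 * Zc ^ 2 / 2 * X.card) := by
  have h1 : ∀ v ∈ X, Real.exp (s * f v) + Real.exp (-(s * f v)) ≤
      2 * Real.exp (s ^ 2 * Zc ^ 2 / 2) := by
    intro v _
    have h2 : Real.exp (s * f v) + Real.exp (-(s * f v)) = 2 * Real.cosh (s * f v) := by
      rw [Real.cosh_eq]; ring
    rw [h2]
    apply mul_le_mul_of_nonneg_left _ (by norm_num)
    refine (Real.cosh_le_exp_half_sq _).trans ?_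
    apply Real.exp_le_exp.mpr
    have h3 : (f v) ^ 2 ≤ Zc ^ 2 := by
      rw [← sq_abs]
      exact pow_le_pow_left₀ (abs_nonneg _) (hf v) 2
    have h4 : (s * f v) ^ 2 ≤ s ^ 2 * Zc ^ 2 := by
      rw [mul_pow]
      exact mul_le_mul_of_nonneg_left h3 (sq_nonneg _)
    linarith
  calc ∏ v ∈ X, (Real.exp (s * f v) + Real.exp (-(s * f v)))
      ≤ ∏ _v ∈ X, (2 * Real.exp (s ^ 2 * Zc ^ 2 / 2)) := by
        apply Finset.prod_le_prod
        · intro v _; positivity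
        · exact h1
    _ = _ := by
        rw [Finset.prod_const, mul_pow, ← Real.exp_nat_mul]
        congr 2
        ring

/-- Balanced splitting of many functions simultaneously. -/
theorem halving (Zc : ℝ) (X : Finset V) (hX : X.Nonempty) (𝓕 : Finset (V → ℝ))
    (hcard : 𝓕.card ≤ 8 * X.card) (hb : ∀ f ∈ 𝓕, ∀ v, |f v| ≤ Zc) :
    ∃ A ⊆ X, ∀ f ∈ 𝓕, |∑ v ∈ A, f v - ∑ v ∈ X \ A, f v| ≤
      (8 + Zc ^ 2) * (X.card / q4 X.card) := by
  classical
  set m : ℝ := (X.card : ℝ) with hm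
  have hm1 : 1 ≤ m := by
    rw [hm]; exact_mod_cast Finset.card_pos.mpr hX
  set s : ℝ := 1 / Real.sqrt m with hs
  have hsm : 0 < Real.sqrt m := Real.sqrt_pos.mpr (by linarith)
  have hs0 : 0 < s := by rw [hs]; positivity
  have hs2 : s ^ 2 * m = 1 := by
    rw [hs, div_pow, one_pow, Real.sq_sqrt (by linarith)]
    field_simp
  set D : Finset V → (V → ℝ) → ℝ := fun A f => ∑ v ∈ A, f v - ∑ v ∈ X \ A, f v with hD
  set G : Finset V → ℝ := fun A => ∑ f ∈ 𝓕, (Real.exp (s * D A f) + Real.exp (-s * D A f)) with hG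
  have hE : Real.exp (s ^ 2 * Zc ^ 2 / 2 * X.card) = Real.exp (Zc ^ 2 / 2) := by
    congr 1
    have : s ^ 2 * Zc ^ 2 / 2 * (X.card : ℝ) = (s ^ 2 * m) * (Zc ^ 2 / 2) := by rw [hm]; ring
    rw [this, hs2, one_mul]
  have htot : ∑ A ∈ X.powerset, G A ≤ ∑ _A ∈ X.powerset, (2 * 𝓕.card * Real.exp (Zc ^ 2 / 2)) := by
    have h1 : ∑ A ∈ X.powerset, G A = ∑ f ∈ 𝓕, (∑ A ∈ X.powerset, Real.exp (s * D A f) +
        ∑ A ∈ X.powerset, Real.exp (-s * D A f)) := by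
      simp only [hG]
      rw [Finset.sum_comm]
      apply Finset.sum_congr rfl
      intro f _
      rw [Finset.sum_add_distrib]
    rw [h1]
    have h2 : ∀ f ∈ 𝓕, (∑ A ∈ X.powerset, Real.exp (s * D A f) +
        ∑ A ∈ X.powerset, Real.exp (-s * D A f)) ≤ 2 * (2 ^ X.card * Real.exp (Zc ^ 2 / 2)) := by
      intro f hf
      have h3 := sum_exp X f s
      have h4 := sum_exp X f (-s)
      have h5 := prod_le X f s Zc (hb f hf)
      have h6 := prod_le X f (-s) Zc (hb f hf)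
      rw [neg_sq] at h6
      rw [hE] at h5 h6
      simp only [hD]
      linarith
    calc ∑ f ∈ 𝓕, (∑ A ∈ X.powerset, Real.exp (s * D A f) +
        ∑ A ∈ X.powerset, Real.exp (-s * D A f))
        ≤ ∑ _f ∈ 𝓕, 2 * (2 ^ X.card * Real.exp (Zc ^ 2 / 2)) := Finset.sum_le_sum h2
      _ = ∑ _A ∈ X.powerset, (2 * 𝓕.card * Real.exp (Zc ^ 2 / 2)) := by
          rw [Finset.sum_const, Finset.sum_const, Finset.card_powerset, nsmul_eq_mul, nsmul_eq_mul]
          push_cast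
          ring
  obtain ⟨A, hA, hGA⟩ := Finset.exists_le_of_sum_le (Finset.powerset_nonempty X) htot
  refine ⟨A, Finset.mem_powerset.mp hA, ?_⟩
  intro f hf
  have hN : (1 : ℝ) ≤ 𝓕.card := by exact_mod_cast Finset.card_pos.mpr ⟨f, hf⟩
  have h1 : Real.exp (s * |D A f|) ≤ 2 * 𝓕.card * Real.exp (Zc ^ 2 / 2) := by
    refine le_trans ?_ hGA
    have h2 : Real.exp (s * D A f) + Real.exp (-s * D A f) ≤ G A := by
      simp only [hG]
      exact Finset.single_le_sum (f := fun f => Real.exp (s * D A f) + Real.exp (-s * D A f))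
        (fun f _ => by positivity) hf
    refine le_trans ?_ h2
    rcases abs_cases (D A f) with ⟨h, _⟩ | ⟨h, _⟩
    · rw [h]
      have := (Real.exp_pos (-s * D A f)).le
      linarith
    · rw [h]
      have h3 : s * -D A f = -s * D A f := by ring
      rw [h3]
      have := (Real.exp_pos (s * D A f)).le
      linarith
  have h2 : s * |D A f| ≤ Real.log (2 * 𝓕.card) + Zc ^ 2 / 2 := by
    have h3 := Real.log_le_log (Real.exp_pos _) h1
    rw [Real.log_exp, Real.log_mul (by positivity) (Real.exp_pos _).ne', Real.log_exp] at h3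
    exact h3
  set q : ℝ := q4 m with hq
  have hq1 : 1 ≤ q := q4_one_le hm1
  have hq4 : q ^ 4 = m := q4_pow (by linarith)
  have hq2 : q ^ 2 = Real.sqrt m := q4_sq
  have h3 : Real.log (2 * 𝓕.card) ≤ 8 * q := by
    have h4 : 2 * (𝓕.card : ℝ) ≤ (2 * q) ^ 4 := by
      have h5 : (𝓕.card : ℝ) ≤ 8 * m := by rw [hm]; exact_mod_cast hcard
      have h6 : (2 * q) ^ 4 = 16 * m := by rw [mul_pow, hq4]; norm_num
      rw [h6]; linarith
    have h5 := Real.log_le_log (by positivity) h4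
    rw [Real.log_pow] at h5
    have h6 := Real.log_le_sub_one_of_pos (by linarith : 0 < 2 * q)
    push_cast at h5
    linarith
  have h4 : |D A f| ≤ q ^ 2 * (8 * q + Zc ^ 2 / 2) := by
    have h5 : s * |D A f| ≤ 8 * q + Zc ^ 2 / 2 := by linarith
    have h6 := mul_le_mul_of_nonneg_left h5 (by positivity : 0 ≤ q ^ 2)
    have h7 : q ^ 2 * (s * |D A f|) = |D A f| := by
      rw [hq2, hs]; field_simp
    linarith
  have h5 : m / q = q ^ 3 := by
    rw [← hq4]; field_simp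
  show |D A f| ≤ (8 + Zc ^ 2) * (m / q)
  rw [h5]
  refine h4.trans ?_
  have h6 : q ^ 2 ≤ q ^ 3 := by
    have : q ^ 3 = q ^ 2 * q := by ring
    rw [this]
    exact le_mul_of_one_le_right (by positivity) hq1
  have h7 : 0 ≤ Zc ^ 2 := sq_nonneg _
  have h8 : q ^ 2 * (8 * q + Zc ^ 2 / 2) = 8 * q ^ 3 + q ^ 2 * (Zc ^ 2 / 2) := by ring
  rw [h8]
  have h9 : q ^ 2 * (Zc ^ 2 / 2) ≤ q ^ 3 * (Zc ^ 2 / 2) :=
    mul_le_mul_of_nonneg_right h6 (by positivity)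
  have h10 : 0 ≤ q ^ 3 * (Zc ^ 2 / 2) := by positivity
  nlinarith

/-- Consequence of halving, in terms of averages. -/
theorem halving_avg (Zc : ℝ) (hZc : 1 ≤ Zc) (X : Finset V) (hX : X.Nonempty)
    (𝓕 : Finset (V → ℝ)) (hcard : 𝓕.card + 1 ≤ 8 * X.card)
    (hb : ∀ f ∈ 𝓕, ∀ v, 0 ≤ f v ∧ f v ≤ Zc)
    (hq : 3 * (8 + Zc ^ 2) ≤ q4 X.card) (d : ℝ) (hd0 : 0 ≤ d) (hd1 : d ≤ 1)
    (hf : ∀ f ∈ 𝓕, ∑ v ∈ X, f v ≤ d * X.card) :
    ∃ A ⊆ X, ((X.card : ℝ) ≤ 3 * A.card ∧ 3 * (A.card : ℝ) ≤ 2 * X.card) ∧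
      ((X.card : ℝ) ≤ 3 * (X \ A).card ∧ 3 * ((X \ A).card : ℝ) ≤ 2 * X.card) ∧
      ∀ f ∈ 𝓕, ∑ v ∈ A, f v ≤ (d + 4 * (8 + Zc ^ 2) / q4 X.card) * A.card ∧
        ∑ v ∈ X \ A, f v ≤ (d + 4 * (8 + Zc ^ 2) / q4 X.card) * (X \ A).card := by
  classical
  obtain ⟨A, hA, hbal⟩ := halving Zc X hX (insert (fun _ => 1) 𝓕)
    ((Finset.card_insert_le _ _).trans hcard) (by
      intro f hf v
      rw [Finset.mem_insert] at hf
      rcases hf with rfl | hf
      · simp [hZc]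
      · rw [abs_of_nonneg (hb f hf v).1]
        exact (hb f hf v).2)
  set m : ℝ := (X.card : ℝ) with hm
  have hm1 : 1 ≤ m := by
    rw [hm]; exact_mod_cast Finset.card_pos.mpr hX
  set q : ℝ := q4 m with hqdef
  set C : ℝ := 8 + Zc ^ 2 with hC
  have hC0 : 0 < C := by rw [hC]; positivity
  have hq0 : 0 < q := by linarith
  set E : ℝ := C * (m / q) with hE
  have hE0 : 0 ≤ E := by rw [hE]; positivity
  have hE3 : 3 * E ≤ m := by
    rw [hE, mul_div_assoc', mul_div_assoc', div_le_iff₀ hq0]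
    nlinarith
  have h1 := hbal (fun _ => 1) (Finset.mem_insert_self _ _)
  simp only [Finset.sum_const, nsmul_eq_mul, mul_one] at h1
  rw [abs_le] at h1
  have hsum : (A.card : ℝ) + (X \ A).card = m := by
    have := Finset.card_sdiff_add_card_eq_card hA
    rw [hm]
    have h2 : ((X \ A).card : ℝ) + A.card = X.card := by exact_mod_cast this
    linarith
  have hA1 : (m - E) / 2 ≤ A.card := by linarith
  have hA2 : (A.card : ℝ) ≤ (m + E) / 2 := by linarith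
  have hB1 : (m - E) / 2 ≤ (X \ A).card := by linarith
  have hB2 : ((X \ A).card : ℝ) ≤ (m + E) / 2 := by linarith
  have hkey : (d * m + E) / 2 ≤ (d + 4 * C / q) * ((m - E) / 2) := by
    have h2 : 4 * C / q * m = 4 * E := by rw [hE]; ring
    have h3 : 0 ≤ 4 * C / q := by positivity
    have h4 : 4 * C / q * E ≤ 4 * C / q * (m / 3) := mul_le_mul_of_nonneg_left (by linarith) h3
    have h5 : d * E ≤ 1 * E := mul_le_mul_of_nonneg_right hd1 hE0
    nlinarith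
  refine ⟨A, hA, ⟨by linarith, by linarith⟩, ⟨by linarith, by linarith⟩, ?_⟩
  intro f hfF
  have h2 := hbal f (Finset.mem_insert_of_mem hfF)
  rw [abs_le] at h2
  have h3 : ∑ v ∈ A, f v + ∑ v ∈ X \ A, f v = ∑ v ∈ X, f v := by
    rw [← Finset.sum_sdiff hA]; ring
  have h4 := hf f hfF
  have hpos : 0 ≤ d + 4 * C / q := by positivity
  constructor
  · have h5 : ∑ v ∈ A, f v ≤ (d * m + E) / 2 := by linarith
    refine h5.trans (hkey.trans ?_)
    exact mul_le_mul_of_nonneg_left hA1 hpos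
  · have h5 : ∑ v ∈ X \ A, f v ≤ (d * m + E) / 2 := by linarith
    refine h5.trans (hkey.trans ?_)
    exact mul_le_mul_of_nonneg_left hB1 hpos

/-- The slack is increased when passing to a set of size at most `2/3`. -/
lemma slack_step {n n₁ K C : ℝ} (hn₁ : 0 < n₁) (h : 3 * n₁ ≤ 2 * n) (hK : 10 * C ≤ K)
    (hC : 0 ≤ C) : (K + C) / q4 n ≤ K / q4 n₁ := by
  have hn : 0 < n := by linarith
  have hq : 0 < q4 n := by
    unfold q4; exact Real.sqrt_pos.mpr (Real.sqrt_pos.mpr hn)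
  have hq₁ : 0 < q4 n₁ := by
    unfold q4; exact Real.sqrt_pos.mpr (Real.sqrt_pos.mpr hn₁)
  have h1 : 11 / 10 * q4 n₁ ≤ q4 n := by
    by_contra hlt
    push Not at hlt
    have h2 : q4 n ^ 4 < (11 / 10 * q4 n₁) ^ 4 := pow_lt_pow_left₀ hlt hq.le (by norm_num)
    rw [mul_pow, q4_pow hn.le, q4_pow hn₁.le] at h2
    norm_num at h2
    linarith
  rw [div_le_div_iff₀ hq hq₁]
  nlinarith

end

end Pool.Agent.Lib.MP_acd470_co
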