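import Mathlib
import Pool.Agent.Lib.MP_acd470_co.Link2
import Pool.Agent.Lib.MP_acd470_co.Halving

/-!
# The vortex
-/

set_option autoImplicit false
set_option linter.unusedSectionVars false

namespace Pool.Agent.Lib.MP_acd470_co

open Finset

lemma extension_unif {V : Type} [Fintype V] [DecidableEq V] {r : ℕ} (hr : 2 ≤ r) (ε : ℝ)
    (z : V → V → ℝ) (Zc : ℝ) (hz : IsCost Zc z) (O : Finset V)
    (hO : O.Nonempty) (hOdeg : ∀ v ∈ O, ∑ u ∈ O, z v u ≤ (1 - 1 / (r : ℝ) - ε) * O.card)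
    (p : V) (hp : ∑ u ∈ O, z p u ≤ (1 - 1 / (r : ℝ) - ε) * O.card) (Forb : Finset V)
    (hF : (r : ℝ) * (Forb.card + 1) + r ^ 2 ≤ ε * O.card) :
    ∃ W : Finset V, W ⊆ O ∧ W.card = r - 1 ∧ p ∉ W ∧ Good r z (insert p W) ∧ Disjoint W Forb := by
  have hr2 : (2 : ℝ) ≤ r := by exact_mod_cast hr
  have hOc : (0 : ℝ) < O.card := by exact_mod_cast Finset.card_pos.mpr hO
  have hsym : ∀ v, ∑ u ∈ O, z u v = ∑ u ∈ O, z v u := fun v =>
    Finset.sum_congr rfl fun u _ => hz.symm u v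
  have h1 := unif_self_le (z := z) hO (d := 1 - 1 / (r : ℝ) - ε)
    (fun v hv => by rw [hsym]; exact hOdeg v hv)
  have h2 := unif_avg_le (z := z) hO (d := 1 - 1 / (r : ℝ) - ε) (k := p) (by rw [hsym]; exact hp)
  obtain ⟨W, hW1, hW2, hW3, hW4, hW5, _⟩ := exists_extension_of_mu hr z Zc hz O (unif O)
    (unif_nonneg O) (unif_supp O) (unif_sum O hO) (1 / (O.card : ℝ)) (unif_le O) Forb
    (fun v => {v}) 1 (fun v => by simp) (fun v => Finset.mem_singleton_self v) p (by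
      have h3 : ((r : ℝ) - 2) * (∑ v, unif O v * ∑ u, unif O u * z u v) ≤
          (r - 2) * (1 - 1 / (r : ℝ) - ε) := mul_le_mul_of_nonneg_left h1 (by linarith only [hr2])
      have h4 : (r : ℝ) * (1 - 1 / (r : ℝ) - ε) = r - 1 - r * ε := by field_simp
      have h5 : ((r : ℝ) * (Forb.card + 1) * (1 / (O.card : ℝ)) +
          r ^ 2 * ((1 : ℕ) : ℝ) * (1 / (O.card : ℝ))) ≤ ε := by
        have h6 : ((r : ℝ) * (Forb.card + 1) * (1 / (O.card : ℝ)) +
          r ^ 2 * ((1 : ℕ) : ℝ) * (1 / (O.card : ℝ))) =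
          ((r : ℝ) * (Forb.card + 1) + r ^ 2) / O.card := by push_cast; field_simp
        rw [h6, div_le_iff₀ hOc]
        exact hF
      have h7 : (r : ℝ) * ((r : ℝ) * (Forb.card + 1) * (1 / (O.card : ℝ)) +
          r ^ 2 * ((1 : ℕ) : ℝ) * (1 / (O.card : ℝ))) ≤ r * ε :=
        mul_le_mul_of_nonneg_left h5 (by linarith only [hr2])
      rw [mul_sub, mul_one]
      linarith only [h3, h2, h4, h7])
  exact ⟨W, hW1, hW2, hW3, hW4, hW5⟩

/-- Completing leftover vertices using `O`. -/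
theorem complete_leftover {V : Type} [Fintype V] [DecidableEq V] {r : ℕ} (hr : 2 ≤ r) (ε : ℝ)
    (z : V → V → ℝ) (Zc : ℝ) (hz : IsCost Zc z) (O : Finset V)
    (hO : O.Nonempty) (hOdeg : ∀ v ∈ O, ∑ u ∈ O, z v u ≤ (1 - 1 / (r : ℝ) - ε) * O.card)
    (s : ℕ) (hlarge : (r : ℝ) * (r * s + 1) + r ^ 2 ≤ ε * O.card) (U : Finset V) :
    U.card ≤ s → Disjoint U O →
    (∀ u ∈ U, ∑ v ∈ O, z u v ≤ (1 - 1 / (r : ℝ) - ε) * O.card) →
    ∃ (M : Finset (Finset V)) (X₁ : Finset V), X₁ ⊆ O ∧ X₁.card ≤ r * U.card ∧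
      IsMatching r z (U ∪ X₁) M ∧ cov M = U ∪ X₁ := by
  classical
  induction U using Finset.induction_on with
  | empty =>
    intro _ _ _
    exact ⟨∅, ∅, by simp, by simp, isMatching_empty _ _ _, by simp [cov_empty]⟩
  | insert u U hu ih =>
    intro hUs hUO hU
    rw [Finset.card_insert_of_notMem hu] at hUs
    rw [Finset.disjoint_insert_left] at hUO
    obtain ⟨M, X₁, hX₁O, hX₁c, hM, hMc⟩ := ih (by omega) hUO.2
      (fun v hv => hU v (Finset.mem_insert_of_mem hv))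
    obtain ⟨W, hWO, hWc, huW, hWg, hWX⟩ := extension_unif hr ε z Zc hz O hO hOdeg u
      (hU u (Finset.mem_insert_self _ _)) X₁ (by
        refine le_trans ?_ hlarge
        have h1 : (X₁.card : ℝ) ≤ r * s := by
          have h2 : r * U.card ≤ r * s := Nat.mul_le_mul_left _ (by omega)
          exact_mod_cast hX₁c.trans h2
        have h3 : (r : ℝ) * (X₁.card + 1) ≤ r * (r * s + 1) :=
          mul_le_mul_of_nonneg_left (by linarith only [h1]) (by positivity)
        linarith only [h3])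
    have hdis : Disjoint (U ∪ X₁) (insert u W) := by
      rw [Finset.disjoint_insert_right, Finset.mem_union, Finset.disjoint_union_left]
      push Not
      refine ⟨⟨hu, fun h => hUO.1 (hX₁O h)⟩, ?_, hWX.symm⟩
      exact Finset.disjoint_of_subset_right hWO hUO.2
    have hset : U ∪ X₁ ∪ insert u W = insert u U ∪ (X₁ ∪ W) := by
      ext v; simp only [Finset.mem_union, Finset.mem_insert]; tauto
    refine ⟨M ∪ {insert u W}, X₁ ∪ W, Finset.union_subset hX₁O hWO, ?_, ?_, ?_⟩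
    · rw [Finset.card_insert_of_notMem hu]
      have h1 := Finset.card_union_le X₁ W
      have h2 : r * (U.card + 1) = r * U.card + r := by ring
      rw [h2]; omega
    · rw [← hset]
      exact hM.union (isMatching_singleton hWg) hdis
    · rw [cov_union, hMc, cov_singleton, hset]

lemma q4_ge {T m : ℝ} (hT : 0 ≤ T) (h : T ^ 4 ≤ m) : T ≤ q4 m := by
  have h1 := q4_mono h
  have h2 : q4 (T ^ 4) = T := by
    unfold q4
    have h3 : T ^ 4 = (T ^ 2) ^ 2 := by ring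
    rw [h3, Real.sqrt_sq (by positivity), Real.sqrt_sq hT]
  rwa [h2] at h1

/-- **The vortex lemma.** -/
theorem vortex (r : ℕ) (hr : 2 ≤ r) (ε : ℝ) (hε : 0 < ε) (Zc : ℝ) (hZc : 1 ≤ Zc) (s₀ : ℕ)
    (hs₀ : ∀ (V : Type) [Fintype V] [DecidableEq V] (z : V → V → ℝ), IsCost Zc z →
      ∀ X : Finset V, (∀ v ∈ X, ∑ u ∈ X, z v u ≤ (1 - 1 / (r : ℝ) - ε / 2) * X.card) →
      ∃ M, IsMatching r z X M ∧ (X \ cov M).card ≤ s₀) (N₀ : ℕ) :
    ∃ N₂ : ℕ, N₀ ≤ N₂ ∧ ∀ (V : Type) [Fintype V] [DecidableEq V] (z : V → V → ℝ),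
      IsCost Zc z → ∀ n : ℕ, ∀ R : Finset V, R.card = n → N₂ ≤ n →
      ∀ 𝓕 : Finset (V → ℝ), 𝓕.card ≤ 4 * n → (∀ f ∈ 𝓕, ∀ v, 0 ≤ f v ∧ f v ≤ Zc) →
      (∀ f ∈ 𝓕, ∑ v ∈ R, f v ≤
        (1 - 1 / (r : ℝ) - 2 * ε + 40 * (8 + Zc ^ 2) / q4 n) * n) →
      (∀ v ∈ R, ∑ u ∈ R, z v u ≤
        (1 - 1 / (r : ℝ) - 2 * ε + 40 * (8 + Zc ^ 2) / q4 n) * n) →
      ∃ O B : Finset V, O ⊆ R ∧ B ⊆ R ∧ B.card ≤ 3 * N₂ ∧ N₂ ≤ O.card ∧
        (∀ f ∈ 𝓕, ∑ v ∈ O, f v ≤ (1 - 1 / (r : ℝ) - ε) * O.card) ∧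
        (∀ v ∈ R, ∑ u ∈ O, z v u ≤ (1 - 1 / (r : ℝ) - ε) * O.card) ∧
        ∀ X ⊆ O, X.card ≤ r * s₀ →
          ∃ M, IsMatching r z (R \ X) M ∧ (R \ X) \ B ⊆ cov M := by
  classical
  have hr2 : (2 : ℝ) ≤ r := by exact_mod_cast hr
  set C : ℝ := 8 + Zc ^ 2 with hC
  have hC0 : 0 < C := by rw [hC]; positivity
  set T : ℝ := 50 * C / ε + 3 * C with hT
  have hT0 : 0 < T := by rw [hT]; positivity
  obtain ⟨N₂, hN₂⟩ := exists_nat_ge (T ^ 4 + 2 / ε * (r * s₀) +
    1 / ε * ((r : ℝ) * (r * s₀ + 1) + r ^ 2) + N₀ + 1)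
  have p1 : 0 ≤ T ^ 4 := by positivity
  have p2 : 0 ≤ 2 / ε * ((r : ℝ) * s₀) := by positivity
  have p3 : 0 ≤ 1 / ε * ((r : ℝ) * (r * s₀ + 1) + r ^ 2) := by positivity
  have p4 : (0 : ℝ) ≤ N₀ := by positivity
  have hN0 : N₀ ≤ N₂ := by
    have : (N₀ : ℝ) ≤ N₂ := by linarith only [hN₂, p1, p2, p3]
    exact_mod_cast this
  have hN1 : (1 : ℝ) ≤ N₂ := by linarith only [hN₂, p1, p2, p3, p4]
  have hN1' : 1 ≤ N₂ := by exact_mod_cast hN1
  have hNs : (r : ℝ) * s₀ ≤ ε / 2 * N₂ := by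
    have h1 : 2 / ε * ((r : ℝ) * s₀) ≤ N₂ := by linarith only [hN₂, p1, p3, p4]
    have h2 := mul_le_mul_of_nonneg_left h1 (by positivity : 0 ≤ ε / 2)
    have h3 : ε / 2 * (2 / ε * ((r : ℝ) * s₀)) = r * s₀ := by field_simp
    linarith only [h2, h3]
  have hNl : (r : ℝ) * (r * s₀ + 1) + r ^ 2 ≤ ε * N₂ := by
    have h1 : 1 / ε * ((r : ℝ) * (r * s₀ + 1) + r ^ 2) ≤ N₂ := by linarith only [hN₂, p1, p2, p4]
    have h2 := mul_le_mul_of_nonneg_left h1 hε.le
    have h3 : ε * (1 / ε * ((r : ℝ) * (r * s₀ + 1) + r ^ 2)) =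
      (r : ℝ) * (r * s₀ + 1) + r ^ 2 := by field_simp
    linarith only [h2, h3]
  have hq : ∀ n : ℕ, N₂ ≤ n → T ≤ q4 n := by
    intro n hn
    apply q4_ge hT0.le
    have : (N₂ : ℝ) ≤ n := by exact_mod_cast hn
    linarith only [hN₂, p2, p3, p4, this]
  have hslack : ∀ n : ℕ, N₂ ≤ n → 44 * C / q4 n ≤ ε := by
    intro n hn
    have h1 := hq n hn
    have h2 : 0 < q4 n := by linarith only [h1, hT0]
    rw [div_le_iff₀ h2]
    have h3 : ε * T ≤ ε * q4 n := mul_le_mul_of_nonneg_left h1 hε.le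
    have h4 : ε * T = 50 * C + 3 * C * ε := by rw [hT]; field_simp
    have h5 : 0 < C * ε := by positivity
    linarith only [h3, h4, h5, hC0]
  refine ⟨N₂, hN0, ?_⟩
  clear hN₂ p1 p2 p3 p4 hN0
  intro V _ _ z hz n
  induction n using Nat.strong_induction_on with
  | _ n ih =>
  intro R hR hn 𝓕 h𝓕c h𝓕b h𝓕 hdeg
  have hnR : (1 : ℝ) ≤ n := by exact_mod_cast hN1'.trans hn
  have hqn : T ≤ q4 n := hq n hn
  have hqpos : 0 < q4 n := by linarith only [hqn, hT0]
  have hsl := hslack n hn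
  have h40 : 40 * C / q4 n ≤ 44 * C / q4 n := by
    apply div_le_div_of_nonneg_right _ hqpos.le
    linarith only [hC0]
  have hd1 : 1 - 1 / (r : ℝ) - 2 * ε + 40 * C / q4 n ≤ 1 - 1 / (r : ℝ) - ε := by linarith only [h40, hsl]
  rcases Nat.lt_or_ge (3 * N₂) n with hbig | hsmall
  · have hRne : R.Nonempty := by rw [← Finset.card_pos]; omega
    have hrpos : 0 < 1 / (r : ℝ) := by positivity
    set d : ℝ := 1 - 1 / (r : ℝ) - 2 * ε + 40 * C / q4 n with hd
    have hd0 : 0 ≤ d := by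
      obtain ⟨v, hv⟩ := hRne
      have e1 := hdeg v hv
      have e2 : 0 ≤ ∑ u ∈ R, z v u := Finset.sum_nonneg fun u _ => hz.nonneg _ _
      exact coef_nonneg (by linarith only [hnR]) e2 e1
    obtain ⟨A, hAR, ⟨hA1, hA2⟩, ⟨hB1, hB2⟩, hAf⟩ := halving_avg Zc hZc R hRne (𝓕 ∪ R.image z) (by
        have h1 := Finset.card_union_le 𝓕 (R.image z)
        have h2 : (R.image z).card ≤ R.card := Finset.card_image_le
        omega) (by
        intro f hf v
        rcases Finset.mem_union.mp hf with h | h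
        · exact h𝓕b f h v
        · rw [Finset.mem_image] at h
          obtain ⟨w, _, rfl⟩ := h
          exact ⟨hz.nonneg _ _, hz.le _ _⟩) (by
        rw [hR]
        have : 0 < 50 * C / ε := by positivity
        linarith only [this, hqn, hT, hC]) d hd0 (by linarith only [hd1, hrpos, hε]) (by
        intro f hf
        rw [hR]
        rcases Finset.mem_union.mp hf with h | h
        · exact h𝓕 f h
        · rw [Finset.mem_image] at h
          obtain ⟨w, hw, rfl⟩ := h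
          exact hdeg w hw)
    rw [hR] at hA1 hA2 hB1 hB2 hAf
    set R₁ : Finset V := R \ A with hR₁
    have hR₁R : R₁ ⊆ R := Finset.sdiff_subset
    have hdisA : Disjoint A R₁ := Finset.disjoint_sdiff
    have hB1' : n ≤ 3 * R₁.card := by exact_mod_cast hB1
    have hB2' : 3 * R₁.card ≤ 2 * n := by exact_mod_cast hB2
    have hA1' : n ≤ 3 * A.card := by exact_mod_cast hA1
    have hA2' : 3 * A.card ≤ 2 * n := by exact_mod_cast hA2
    have hR₁pos : (0 : ℝ) < R₁.card := by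
      have : 0 < R₁.card := by omega
      exact_mod_cast this
    have hstep := slack_step (n := (n : ℝ)) (n₁ := (R₁.card : ℝ)) (K := 40 * C) (C := 4 * C)
      hR₁pos hB2 (by linarith only [hC0]) (by linarith only [hC0])
    have hR₁f : ∀ f ∈ 𝓕 ∪ R.image z, ∑ v ∈ R₁, f v ≤
        (1 - 1 / (r : ℝ) - 2 * ε + 40 * C / q4 R₁.card) * R₁.card := by
      intro f hf
      refine (hAf f hf).2.trans ?_
      apply mul_le_mul_of_nonneg_right _ hR₁pos.le
      have e1 : d + 4 * C / q4 n = 1 - 1 / (r : ℝ) - 2 * ε + (40 * C + 4 * C) / q4 n := by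
        rw [hd]; ring
      rw [e1]; linarith only [hstep]
    have hAf' : ∀ f ∈ 𝓕 ∪ R.image z, ∑ v ∈ A, f v ≤ (1 - 1 / (r : ℝ) - ε) * A.card := by
      intro f hf
      refine (hAf f hf).1.trans ?_
      apply mul_le_mul_of_nonneg_right _ (by positivity)
      have e1 : d + 4 * C / q4 n = 1 - 1 / (r : ℝ) - 2 * ε + 44 * C / q4 n := by
        rw [hd]; ring
      rw [e1]; linarith only [hsl]
    obtain ⟨O₁, B₁, hO₁R, hB₁R, hB₁c, hO₁c, hO₁f, hO₁z, hO₁M⟩ := ih R₁.card (by omega) R₁ rfl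
      (by omega) (R.image z) (by
        have h2 : (R.image z).card ≤ R.card := Finset.card_image_le
        omega) (by
        intro f hf v
        rw [Finset.mem_image] at hf
        obtain ⟨w, _, rfl⟩ := hf
        exact ⟨hz.nonneg _ _, hz.le _ _⟩)
      (fun f hf => hR₁f f (Finset.mem_union_right _ hf))
      (fun v hv => hR₁f (z v) (Finset.mem_union_right _
        (Finset.mem_image_of_mem z (hR₁R hv))))
    refine ⟨A, B₁, hAR, hB₁R.trans hR₁R, hB₁c, by omega,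
      fun f hf => hAf' f (Finset.mem_union_left _ hf),
      fun v hv => hAf' (z v) (Finset.mem_union_right _ (Finset.mem_image_of_mem z hv)), ?_⟩
    intro X hXA hXc
    have hAcard : (N₂ : ℝ) ≤ A.card := by
      have : N₂ ≤ A.card := by omega
      exact_mod_cast this
    have hXc' : (X.card : ℝ) ≤ r * s₀ := by exact_mod_cast hXc
    obtain ⟨M₀, hM₀, hM₀c⟩ := hs₀ V z hz (A \ X) (by
      intro v hv
      rw [Finset.mem_sdiff] at hv
      have e1 : ∑ u ∈ A \ X, z v u ≤ ∑ u ∈ A, z v u :=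
        Finset.sum_le_sum_of_subset_of_nonneg Finset.sdiff_subset (fun u _ _ => hz.nonneg _ _)
      have e2 := hAf' (z v) (Finset.mem_union_right _ (Finset.mem_image_of_mem z (hAR hv.1)))
      have e3 : ((A \ X).card : ℝ) = A.card - X.card := by
        have := Finset.card_sdiff_add_card_eq_card hXA
        have e11 : ((A \ X).card : ℝ) + X.card = A.card := by exact_mod_cast this
        linarith only [e11]
      rw [e3]
      have e4 : (X.card : ℝ) ≤ ε / 2 * A.card := by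
        have : ε / 2 * (N₂ : ℝ) ≤ ε / 2 * A.card :=
          mul_le_mul_of_nonneg_left hAcard (by positivity)
        linarith only [this, hNs, hXc']
      exact np_deg (e1.trans e2) e4 (by linarith only [hrpos, hε]) (by positivity))
    set U : Finset V := (A \ X) \ cov M₀ with hU
    have hUA : U ⊆ A := Finset.sdiff_subset.trans Finset.sdiff_subset
    have hO₁card : (N₂ : ℝ) ≤ O₁.card := by exact_mod_cast hO₁c
    obtain ⟨M₁, X₁, hX₁O, hX₁c, hM₁, hM₁c⟩ := complete_leftover hr ε z Zc hz O₁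
      (by rw [← Finset.card_pos]; omega) (fun v hv => hO₁z v (hO₁R hv)) s₀ (by
        have : ε * (N₂ : ℝ) ≤ ε * O₁.card := mul_le_mul_of_nonneg_left hO₁card hε.le
        linarith only [this, hNl]) U hM₀c
      (Finset.disjoint_of_subset_left hUA (Finset.disjoint_of_subset_right hO₁R hdisA))
      (fun u hu => hO₁f (z u) (Finset.mem_image_of_mem z (hAR (hUA hu))))
    obtain ⟨M₂, hM₂, hM₂c⟩ := hO₁M X₁ hX₁O (hX₁c.trans (Nat.mul_le_mul_left _ hM₀c))
    have hX₁R : X₁ ⊆ R₁ := hX₁O.trans hO₁R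
    have hM₀' : IsMatching r z (cov M₀) M₀ :=
      ⟨hM₀.good, fun K hK v hv => mem_cov.mpr ⟨K, hK, hv⟩, hM₀.disj⟩
    have hcA : cov M₀ ⊆ A := hM₀.cov_sub.trans Finset.sdiff_subset
    have hd01 : Disjoint (cov M₀) (U ∪ X₁) := by
      rw [Finset.disjoint_union_right]
      refine ⟨Finset.disjoint_sdiff, ?_⟩
      exact Finset.disjoint_of_subset_left hcA (Finset.disjoint_of_subset_right hX₁R hdisA)
    have hd2 : Disjoint (cov M₀ ∪ (U ∪ X₁)) (R₁ \ X₁) := by
      rw [Finset.disjoint_union_left, Finset.disjoint_union_left]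
      refine ⟨?_, ?_, Finset.disjoint_sdiff⟩
      · exact Finset.disjoint_of_subset_left hcA
          (Finset.disjoint_of_subset_right Finset.sdiff_subset hdisA)
      · exact Finset.disjoint_of_subset_left hUA
          (Finset.disjoint_of_subset_right Finset.sdiff_subset hdisA)
    refine ⟨(M₀ ∪ M₁) ∪ M₂, ((hM₀'.union hM₁ hd01).union hM₂ hd2).mono ?_, ?_⟩
    · intro v hv
      rw [Finset.mem_sdiff]
      simp only [Finset.mem_union] at hv
      rcases hv with (h | h | h) | h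
      · have h1 := hM₀.cov_sub h
        rw [Finset.mem_sdiff] at h1
        exact ⟨hAR h1.1, h1.2⟩
      · rw [hU, Finset.mem_sdiff, Finset.mem_sdiff] at h
        exact ⟨hAR h.1.1, h.1.2⟩
      · refine ⟨hR₁R (hX₁R h), fun hX => ?_⟩
        exact Finset.disjoint_left.mp hdisA (hXA hX) (hX₁R h)
      · rw [Finset.mem_sdiff] at h
        refine ⟨hR₁R h.1, fun hX => ?_⟩
        exact Finset.disjoint_left.mp hdisA (hXA hX) h.1
    · intro v hv
      rw [Finset.mem_sdiff, Finset.mem_sdiff] at hv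
      rw [cov_union, cov_union, hM₁c, Finset.mem_union, Finset.mem_union, Finset.mem_union]
      by_cases hvA : v ∈ A
      · by_cases hvc : v ∈ cov M₀
        · exact Or.inl (Or.inl hvc)
        · left; right; left
          rw [hU, Finset.mem_sdiff, Finset.mem_sdiff]
          exact ⟨⟨hvA, hv.1.2⟩, hvc⟩
      · by_cases hvX₁ : v ∈ X₁
        · exact Or.inl (Or.inr (Or.inr hvX₁))
        · right
          apply hM₂c
          rw [Finset.mem_sdiff, Finset.mem_sdiff, hR₁, Finset.mem_sdiff]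
          exact ⟨⟨⟨hv.1.1, hvA⟩, hvX₁⟩, hv.2⟩
  · refine ⟨R, R, Finset.Subset.refl _, Finset.Subset.refl _, by omega, by omega, ?_, ?_, ?_⟩
    · intro f hf
      rw [hR]
      exact (h𝓕 f hf).trans (mul_le_mul_of_nonneg_right hd1 (by linarith only [hnR]))
    · intro v hv
      rw [hR]
      exact (hdeg v hv).trans (mul_le_mul_of_nonneg_right hd1 (by linarith only [hnR]))
    · intro X _ _
      refine ⟨∅, isMatching_empty _ _ _, ?_⟩
      intro v hv
      rw [Finset.mem_sdiff, Finset.mem_sdiff] at hv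
      exact absurd hv.1.1 hv.2

end Pool.Agent.Lib.MP_acd470_co
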