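import Mathlib
import Pool.Agent.Lib.MP_acd470_co.Link4
import Pool.Agent.Lib.MP_acd470_co.Vortex

/-!
# Perfect tilings
-/

set_option autoImplicit false
set_option linter.unusedSectionVars false

namespace Pool.Agent.Lib.MP_acd470_co

open Finset

section

variable {V : Type} [Fintype V] [DecidableEq V]

lemma tileable_biUnion {ι : Type*} [DecidableEq ι] {r : ℕ} {z : V → V → ℝ} (s : Finset ι)
    (T : ι → Finset V) (hT : ∀ i ∈ s, Tileable r z (T i))
    (hd : ∀ i ∈ s, ∀ j ∈ s, i ≠ j → Disjoint (T i) (T j)) : Tileable r z (s.biUnion T) := by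
  induction s using Finset.induction_on with
  | empty => simpa using tileable_empty r z
  | insert i s hi ih =>
    rw [Finset.biUnion_insert]
    apply (hT i (Finset.mem_insert_self _ _)).union (ih
      (fun j hj => hT j (Finset.mem_insert_of_mem hj))
      (fun j hj k hk => hd j (Finset.mem_insert_of_mem hj) k (Finset.mem_insert_of_mem hk)))
    rw [Finset.disjoint_biUnion_right]
    intro j hj
    apply hd i (Finset.mem_insert_self _ _) j (Finset.mem_insert_of_mem hj)
    rintro rfl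
    exact hi hj

/-- Partition of a set into sets of size `r`. -/
lemma exists_partition {r : ℕ} (k : ℕ) : ∀ L : Finset V, L.card = r * k →
    ∃ P : Finset (Finset V), (∀ Q ∈ P, Q ⊆ L ∧ Q.card = r) ∧
      (∀ Q ∈ P, ∀ Q' ∈ P, Q ≠ Q' → Disjoint Q Q') ∧ P.biUnion id = L := by
  induction k with
  | zero =>
    intro L hL
    rw [Nat.mul_zero, Finset.card_eq_zero] at hL
    subst hL
    exact ⟨∅, by simp, by simp, by simp⟩
  | succ k ih =>
    intro L hL
    obtain ⟨Q, hQL, hQ⟩ := Finset.exists_subset_card_eq (s := L) (n := r)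
      (by rw [hL, Nat.mul_succ]; omega)
    obtain ⟨P, hP1, hP2, hP3⟩ := ih (L \ Q) (by
      have := Finset.card_sdiff_add_card_eq_card hQL
      rw [Nat.mul_succ] at hL
      omega)
    refine ⟨insert Q P, ?_, ?_, ?_⟩
    · intro Q' hQ'
      rcases Finset.mem_insert.mp hQ' with rfl | h
      · exact ⟨hQL, hQ⟩
      · exact ⟨(hP1 Q' h).1.trans Finset.sdiff_subset, (hP1 Q' h).2⟩
    · intro Q₁ h₁ Q₂ h₂ hne
      rcases Finset.mem_insert.mp h₁ with e₁ | e₁ <;> rcases Finset.mem_insert.mp h₂ with e₂ | e₂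
      · exact absurd (e₁.trans e₂.symm) hne
      · rw [e₁]
        exact Finset.disjoint_of_subset_right (hP1 Q₂ e₂).1 Finset.disjoint_sdiff
      · rw [e₂]
        exact Finset.disjoint_of_subset_left (hP1 Q₁ e₁).1 Finset.sdiff_disjoint
      · exact hP2 Q₁ e₁ Q₂ e₂ hne
    · rw [Finset.biUnion_insert, hP3]
      simp only [id]
      exact Finset.union_sdiff_of_subset hQL

/-- Absorbers. -/
lemma absorber {r : ℕ} (hr : 2 ≤ r) (ε : ℝ) (z : V → V → ℝ) (Zc : ℝ)
    (hz : IsCost Zc z) (X : Finset V)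
    (hdeg : ∀ v ∈ X, ∑ u ∈ X, z v u ≤ (1 - 1 / (r : ℝ) - ε) * X.card) (b c : ℕ)
    (hlink : ∀ x ∈ X, ∀ y ∈ X, x ≠ y → Linked r z X b c x y) (Q Y : Finset V) (hQX : Q ⊆ X)
    (hQ : Q.card = r) (hYQ : Disjoint Y Q) (hb : Y.card + r * (c + 2) ≤ b)
    (hlarge : (r : ℝ) * (Y.card + r) + r ^ 2 ≤ ε * X.card) :
    ∃ A : Finset V, A ⊆ X ∧ Disjoint A Y ∧ Disjoint A Q ∧ A.card ≤ r + r * c ∧
      Tileable r z A ∧ Tileable r z (A ∪ Q) := by
  classical
  have hr2 : (2 : ℝ) ≤ r := by exact_mod_cast hr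
  have hXne : X.Nonempty := by
    obtain ⟨x, hx⟩ := Finset.card_pos.mp (by omega : 0 < Q.card)
    exact ⟨x, hQX hx⟩
  have hn : (0 : ℝ) < X.card := by exact_mod_cast Finset.card_pos.mpr hXne
  have hsym : ∀ v, ∑ u ∈ X, z u v = ∑ u ∈ X, z v u := fun v =>
    Finset.sum_congr rfl fun u _ => hz.symm u v
  have h1 := unif_self_le (z := z) hXne (d := 1 - 1 / (r : ℝ) - ε)
    (fun v hv => by rw [hsym]; exact hdeg v hv)
  obtain ⟨G, hGX, hG, hGd, _⟩ := exists_good_of_mu hr z Zc hz X (unif X) (unif_nonneg X)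
    (unif_supp X) (unif_sum X hXne) (1 / (X.card : ℝ)) (unif_le X) (Y ∪ Q) (fun v => {v}) 1
    (fun v => by simp) (fun v => Finset.mem_singleton_self v) (by
      have h2 : (((Y ∪ Q).card : ℕ) : ℝ) ≤ Y.card + r := by
        rw [← hQ]; exact_mod_cast Finset.card_union_le Y Q
      have h3 : ((r : ℝ) * (Y ∪ Q).card * (1 / (X.card : ℝ)) +
          r ^ 2 * ((1 : ℕ) : ℝ) * (1 / (X.card : ℝ))) ≤ ε := by
        have h6 : ((r : ℝ) * (Y ∪ Q).card * (1 / (X.card : ℝ)) +
          r ^ 2 * ((1 : ℕ) : ℝ) * (1 / (X.card : ℝ))) =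
          ((r : ℝ) * (Y ∪ Q).card + r ^ 2) / X.card := by push_cast; field_simp
        rw [h6, div_le_iff₀ hn]
        have h7 : (r : ℝ) * (Y ∪ Q).card ≤ r * (Y.card + r) :=
          mul_le_mul_of_nonneg_left h2 (by linarith)
        linarith
      have h4 : 0 < 1 / (r : ℝ) := by positivity
      linarith)
  rw [Finset.disjoint_union_right] at hGd
  obtain ⟨T, hTX, hTc, hTY, hTQ, hTG, hTtQ, hTtG⟩ := set_link (r := r) (z := z) (X := X)
    (b := b) (c := c) Q G (by rw [hG.1, hQ]) hGd.2.symm (by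
      intro d hd w hw
      apply hlink d (hQX hd) w (hGX hw)
      rintro rfl
      exact Finset.disjoint_left.mp hGd.2 hw hd) Y (by rw [hQ]; exact hb) hYQ hGd.1.symm
  refine ⟨T ∪ G, Finset.union_subset hTX hGX, ?_, ?_, ?_, hTtG, ?_⟩
  · rw [Finset.disjoint_union_left]; exact ⟨hTY, hGd.1⟩
  · rw [Finset.disjoint_union_left]; exact ⟨hTQ, hGd.2⟩
  · have h5 := Finset.card_union_le T G
    rw [hG.1] at h5
    rw [hQ] at hTc
    omega
  · have e1 : T ∪ G ∪ Q = (T ∪ Q) ∪ G := by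
      ext v; simp only [Finset.mem_union]; tauto
    rw [e1]
    apply hTtQ.union hG.tileable
    rw [Finset.disjoint_union_left]
    exact ⟨hTG, hGd.2.symm⟩

/-- A disjoint family of absorbers. -/
lemma absorber_family {r : ℕ} (hr : 2 ≤ r) (ε : ℝ) (z : V → V → ℝ) (Zc : ℝ)
    (hz : IsCost Zc z) (X B : Finset V) (hBX : B ⊆ X)
    (hdeg : ∀ v ∈ X, ∑ u ∈ X, z v u ≤ (1 - 1 / (r : ℝ) - ε) * X.card) (b c : ℕ)
    (hlink : ∀ x ∈ X, ∀ y ∈ X, x ≠ y → Linked r z X b c x y) (Qs : Finset (Finset V)) :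
    (∀ Q ∈ Qs, Q ⊆ B ∧ Q.card = r) →
    B.card + Qs.card * (r + r * c) + r * (c + 2) ≤ b →
    (r : ℝ) * ((B.card + Qs.card * (r + r * c)) + r) + r ^ 2 ≤ ε * X.card →
    ∃ g : Finset V → Finset V, (∀ Q ∈ Qs, g Q ⊆ X \ B ∧ (g Q).card ≤ r + r * c ∧
      Tileable r z (g Q) ∧ Tileable r z (g Q ∪ Q)) ∧
      (∀ Q ∈ Qs, ∀ Q' ∈ Qs, Q ≠ Q' → Disjoint (g Q) (g Q')) := by
  classical
  induction Qs using Finset.induction_on with
  | empty =>
    intro _ _ _
    exact ⟨fun _ => ∅, by simp, by simp⟩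
  | insert Q Qs hQ ih =>
    intro hQB hb hlarge
    rw [Finset.card_insert_of_notMem hQ] at hb hlarge
    have hmul : (Qs.card + 1) * (r + r * c) = Qs.card * (r + r * c) + (r + r * c) := by ring
    rw [hmul] at hb
    push_cast at hlarge
    have hc0 : (0 : ℝ) ≤ r + r * c := by positivity
    have hr0 : (0 : ℝ) ≤ r := by positivity
    have hle : (r : ℝ) * ((B.card + Qs.card * (r + r * c)) + r) + r ^ 2 ≤ ε * X.card := by
      refine le_trans ?_ hlarge
      have : (r : ℝ) * ((B.card + Qs.card * (r + r * c)) + r) ≤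
        r * ((B.card + (Qs.card + 1) * (r + r * c)) + r) := by
        apply mul_le_mul_of_nonneg_left _ hr0
        nlinarith
      linarith
    obtain ⟨g, hg1, hg2⟩ := ih (fun Q' hQ' => hQB Q' (Finset.mem_insert_of_mem hQ'))
      (by omega) hle
    obtain ⟨hQB', hQc⟩ := hQB Q (Finset.mem_insert_self _ _)
    set Y : Finset V := (B \ Q) ∪ Qs.biUnion g with hY
    have hYc : Y.card ≤ B.card + Qs.card * (r + r * c) := by
      have h1 := Finset.card_union_le (B \ Q) (Qs.biUnion g)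
      have h2 : (B \ Q).card ≤ B.card := Finset.card_le_card Finset.sdiff_subset
      have h3 := Finset.card_biUnion_le_card_mul Qs g (r + r * c) (fun Q' hQ' => (hg1 Q' hQ').2.1)
      rw [← hY] at h1
      omega
    have hYQ : Disjoint Y Q := by
      rw [hY, Finset.disjoint_union_left, Finset.disjoint_biUnion_left]
      refine ⟨Finset.sdiff_disjoint, fun Q' hQ' => ?_⟩
      apply Finset.disjoint_of_subset_left (hg1 Q' hQ').1
      exact Finset.disjoint_of_subset_right hQB' Finset.sdiff_disjoint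
    obtain ⟨A, hAX, hAY, hAQ, hAc, hAt, hAtQ⟩ := absorber hr ε z Zc hz X hdeg b c hlink Q Y
      (hQB'.trans hBX) hQc hYQ (by omega) (by
        refine le_trans ?_ hle
        have h1 : (Y.card : ℝ) ≤ B.card + Qs.card * (r + r * c) := by exact_mod_cast hYc
        have h2 : (r : ℝ) * (Y.card + r) ≤ r * ((B.card + Qs.card * (r + r * c)) + r) :=
          mul_le_mul_of_nonneg_left (by linarith) hr0
        linarith)
    rw [hY, Finset.disjoint_union_right, Finset.disjoint_biUnion_right] at hAY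
    refine ⟨fun Q' => if Q' = Q then A else g Q', ?_, ?_⟩
    · intro Q' hQ'
      by_cases h : Q' = Q
      · subst h
        simp only [if_true]
        refine ⟨?_, hAc, hAt, hAtQ⟩
        intro v hv
        rw [Finset.mem_sdiff]
        refine ⟨hAX hv, fun hvB => ?_⟩
        by_cases hvQ : v ∈ Q'
        · exact Finset.disjoint_left.mp hAQ hv hvQ
        · exact Finset.disjoint_left.mp hAY.1 hv (Finset.mem_sdiff.mpr ⟨hvB, hvQ⟩)
      · simp only [h, if_false]
        exact hg1 Q' (Finset.mem_of_mem_insert_of_ne hQ' h)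
    · intro Q₁ h₁ Q₂ h₂ hne
      by_cases e₁ : Q₁ = Q <;> by_cases e₂ : Q₂ = Q
      · exact absurd (e₁.trans e₂.symm) hne
      · simp only [e₁, e₂, if_true, if_false]
        exact hAY.2 Q₂ (Finset.mem_of_mem_insert_of_ne h₂ e₂)
      · simp only [e₁, e₂, if_true, if_false]
        exact (hAY.2 Q₁ (Finset.mem_of_mem_insert_of_ne h₁ e₁)).symm
      · simp only [e₁, e₂, if_false]
        exact hg2 Q₁ (Finset.mem_of_mem_insert_of_ne h₁ e₁) Q₂
          (Finset.mem_of_mem_insert_of_ne h₂ e₂) hne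

end

/-- The combinatorial assembly of the perfect tiling. -/
lemma assembly {V : Type} [Fintype V] [DecidableEq V] {r : ℕ} (z : V → V → ℝ)
    (hdvd : r ∣ Fintype.card V) (A R B : Finset V) (hR : R = Finset.univ \ A)
    (hdisA : Disjoint A R) (Qs : Finset (Finset V))
    (hQsmem : ∀ Q, Q ∈ Qs ↔ Q ⊆ B ∧ Q.card = r) (g : Finset V → Finset V)
    (hg1 : ∀ Q ∈ Qs, Disjoint (g Q) B ∧
      Tileable r z (g Q) ∧ Tileable r z (g Q ∪ Q))
    (hg2 : ∀ Q ∈ Qs, ∀ Q' ∈ Qs, Q ≠ Q' → Disjoint (g Q) (g Q'))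
    (Abs : Finset V) (hAbs : Abs = Qs.biUnion g) (hAbsA : Abs ⊆ A)
    (M₀ M₁ M₂ : Finset (Finset V)) (U X₁ : Finset V)
    (hM₀ : IsMatching r z (A \ Abs) M₀) (hU : U = (A \ Abs) \ cov M₀) (hUA : U ⊆ A)
    (hM₁ : IsMatching r z (U ∪ X₁) M₁) (hM₁c : cov M₁ = U ∪ X₁) (hX₁R : X₁ ⊆ R)
    (hM₂ : IsMatching r z (R \ X₁) M₂) (hM₂c : (R \ X₁) \ B ⊆ cov M₂) :
    Tileable r z (Finset.univ : Finset V) := by
  classical
  have hcardU : (Finset.univ : Finset V).card = Fintype.card V := Finset.card_univ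
  -- the big tileable part
  have hcA : cov M₀ ⊆ A \ Abs := hM₀.cov_sub
  have hcA' : cov M₀ ⊆ A := hcA.trans Finset.sdiff_subset
  have hc2 : cov M₂ ⊆ R \ X₁ := hM₂.cov_sub
  have hd01 : Disjoint (cov M₀) (U ∪ X₁) := by
    rw [Finset.disjoint_union_right]
    refine ⟨by rw [hU]; exact Finset.disjoint_sdiff, ?_⟩
    exact Finset.disjoint_of_subset_left hcA' (Finset.disjoint_of_subset_right hX₁R hdisA)
  have hd2 : Disjoint (cov M₀ ∪ (U ∪ X₁)) (cov M₂) := by
    apply Finset.disjoint_of_subset_right hc2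
    rw [Finset.disjoint_union_left, Finset.disjoint_union_left]
    refine ⟨?_, ?_, Finset.disjoint_sdiff⟩
    · exact Finset.disjoint_of_subset_left hcA'
        (Finset.disjoint_of_subset_right Finset.sdiff_subset hdisA)
    · exact Finset.disjoint_of_subset_left hUA
        (Finset.disjoint_of_subset_right Finset.sdiff_subset hdisA)
  set Big : Finset V := (cov M₀ ∪ (U ∪ X₁)) ∪ cov M₂ with hBig
  have hBigt : Tileable r z Big := by
    have h1 : Tileable r z (U ∪ X₁) := by rw [← hM₁c]; exact hM₁.tileable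
    exact (hM₀.tileable.union h1 hd01).union hM₂.tileable hd2
  have hBigAbs : Disjoint Big Abs := by
    rw [hBig, Finset.disjoint_union_left, Finset.disjoint_union_left, Finset.disjoint_union_left]
    refine ⟨⟨?_, ?_, ?_⟩, ?_⟩
    · exact Finset.disjoint_of_subset_left hcA Finset.sdiff_disjoint
    · rw [hU]
      exact Finset.disjoint_of_subset_left Finset.sdiff_subset Finset.sdiff_disjoint
    · exact (Finset.disjoint_of_subset_left hAbsA
        (Finset.disjoint_of_subset_right hX₁R hdisA)).symm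
    · exact (Finset.disjoint_of_subset_left hAbsA
        (Finset.disjoint_of_subset_right (hc2.trans Finset.sdiff_subset) hdisA)).symm
  have hAbst : Tileable r z Abs := by
    rw [hAbs]
    exact tileable_biUnion Qs g (fun Q hQ => (hg1 Q hQ).2.1) hg2
  set L : Finset V := Finset.univ \ (Big ∪ Abs) with hL
  have hLB : L ⊆ B := by
    intro v hv
    rw [hL, Finset.mem_sdiff] at hv
    by_contra hvB
    apply hv.2
    rw [hBig, Finset.mem_union, Finset.mem_union, Finset.mem_union, Finset.mem_union]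
    by_cases hvA : v ∈ A
    · by_cases hvAbs : v ∈ Abs
      · exact Or.inr hvAbs
      · by_cases hvc : v ∈ cov M₀
        · exact Or.inl (Or.inl (Or.inl hvc))
        · left; left; right; left
          rw [hU, Finset.mem_sdiff, Finset.mem_sdiff]
          exact ⟨⟨hvA, hvAbs⟩, hvc⟩
    · have hvR : v ∈ R := by
        rw [hR]; exact Finset.mem_sdiff.mpr ⟨Finset.mem_univ v, hvA⟩
      by_cases hvX₁ : v ∈ X₁
      · exact Or.inl (Or.inl (Or.inr (Or.inr hvX₁)))
      · left; right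
        apply hM₂c
        rw [Finset.mem_sdiff, Finset.mem_sdiff]
        exact ⟨⟨hvR, hvX₁⟩, hvB⟩
  have hLdvd : r ∣ L.card := by
    have h1 := (hBigt.union hAbst hBigAbs).dvd
    have h2 := Finset.card_sdiff_add_card_eq_card (Finset.subset_univ (Big ∪ Abs))
    rw [hcardU, ← hL] at h2
    have h3 : r ∣ L.card + (Big ∪ Abs).card := by rw [h2]; exact hdvd
    exact (Nat.dvd_add_left h1).mp h3
  obtain ⟨k, hk⟩ := hLdvd
  obtain ⟨P, hP1, hP2, hP3⟩ := exists_partition k L hk
  have hPQ : ∀ Q ∈ P, Q ∈ Qs := fun Q hQ =>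
    (hQsmem Q).mpr ⟨(hP1 Q hQ).1.trans hLB, (hP1 Q hQ).2⟩
  set H : Finset V → Finset V := fun Q => if Q ∈ P then g Q ∪ Q else g Q with hH
  have hHt : Tileable r z (Qs.biUnion H) := by
    apply tileable_biUnion Qs H
    · intro Q hQ
      simp only [hH]
      split_ifs
      · exact (hg1 Q hQ).2.2
      · exact (hg1 Q hQ).2.1
    · intro Q hQ Q' hQ' hne
      have hgB : ∀ Q₁ ∈ Qs, ∀ Q₂ ∈ Qs, Disjoint (g Q₁) Q₂ := by
        intro Q₁ h₁ Q₂ h₂
        exact Finset.disjoint_of_subset_right ((hQsmem Q₂).mp h₂).1 (hg1 Q₁ h₁).1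
      have h1 := hg2 Q hQ Q' hQ' hne
      have h2 := hgB Q hQ Q' hQ'
      have h3 := hgB Q' hQ' Q hQ
      simp only [hH]
      by_cases e1 : Q ∈ P <;> by_cases e2 : Q' ∈ P
      · rw [if_pos e1, if_pos e2, Finset.disjoint_union_left, Finset.disjoint_union_right,
          Finset.disjoint_union_right]
        exact ⟨⟨h1, h2⟩, h3.symm, hP2 Q e1 Q' e2 hne⟩
      · rw [if_pos e1, if_neg e2, Finset.disjoint_union_left]
        exact ⟨h1, h3.symm⟩
      · rw [if_neg e1, if_pos e2, Finset.disjoint_union_right]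
        exact ⟨h1, h2⟩
      · rw [if_neg e1, if_neg e2]
        exact h1
  have hHset : Qs.biUnion H = Abs ∪ L := by
    ext v
    rw [Finset.mem_biUnion, Finset.mem_union]
    constructor
    · rintro ⟨Q, hQ, hv⟩
      simp only [hH] at hv
      by_cases e : Q ∈ P
      · rw [if_pos e, Finset.mem_union] at hv
        rcases hv with h | h
        · exact Or.inl (by rw [hAbs]; exact Finset.mem_biUnion.mpr ⟨Q, hQ, h⟩)
        · exact Or.inr ((hP1 Q e).1 h)
      · rw [if_neg e] at hv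
        exact Or.inl (by rw [hAbs]; exact Finset.mem_biUnion.mpr ⟨Q, hQ, hv⟩)
    · rintro (h | h)
      · rw [hAbs, Finset.mem_biUnion] at h
        obtain ⟨Q, hQ, hv⟩ := h
        refine ⟨Q, hQ, ?_⟩
        simp only [hH]
        split_ifs
        · exact Finset.mem_union_left _ hv
        · exact hv
      · rw [← hP3, Finset.mem_biUnion] at h
        obtain ⟨Q, hQ, hv⟩ := h
        refine ⟨Q, hPQ Q hQ, ?_⟩
        simp only [hH]
        rw [if_pos hQ]
        exact Finset.mem_union_right _ hv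
  have hfin : (Finset.univ : Finset V) = Big ∪ Qs.biUnion H := by
    rw [hHset]
    ext v
    simp only [Finset.mem_univ, true_iff]
    by_cases hv : v ∈ Big ∪ Abs
    · rw [Finset.mem_union] at hv
      rcases hv with h | h
      · exact Finset.mem_union_left _ h
      · exact Finset.mem_union_right _ (Finset.mem_union_left _ h)
    · exact Finset.mem_union_right _ (Finset.mem_union_right _
        (Finset.mem_sdiff.mpr ⟨Finset.mem_univ v, hv⟩))
  rw [hfin]
  apply hBigt.union hHt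
  rw [hHset, Finset.disjoint_union_right]
  refine ⟨hBigAbs, ?_⟩
  rw [hL]
  exact Finset.disjoint_of_subset_left Finset.subset_union_left Finset.disjoint_sdiff

/-- **The perfect tiling theorem for costs.** -/
theorem factor_cost (r : ℕ) (hr : 2 ≤ r) (ε : ℝ) (hε : 0 < ε) (Zc : ℝ)
    (hZc : (r : ℝ) ^ 2 ≤ Zc) :
    ∃ n₀ : ℕ, ∀ (V : Type) [Fintype V] [DecidableEq V] (z : V → V → ℝ), IsCost Zc z →
      n₀ ≤ Fintype.card V → r ∣ Fintype.card V →
      (∀ v, ∑ u, z v u ≤ (1 - 1 / (r : ℝ) - 3 * ε) * Fintype.card V) →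
      Tileable r z (Finset.univ : Finset V) := by
  classical
  have hr1 : 1 ≤ r := by omega
  have hr2 : (2 : ℝ) ≤ r := by exact_mod_cast hr
  have hZ1 : 1 ≤ Zc := by nlinarith only [hr2, hZc]
  have hrho : 0 < 1 / (r : ℝ) := by positivity
  obtain ⟨s₀, hs₀⟩ := near_perfect r hr (ε / 2) (by positivity) Zc (by linarith only [hZ1])
  obtain ⟨N₂, _, hvor⟩ := vortex r hr ε hε Zc hZ1 s₀ hs₀
    ⌈((r : ℝ) * (r * s₀ + 1) + r ^ 2) / ε⌉₊
  rename_i hN₀
  have hN₂l : (r : ℝ) * (r * s₀ + 1) + r ^ 2 ≤ ε * N₂ := by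
    have h1 : ((r : ℝ) * (r * s₀ + 1) + r ^ 2) / ε ≤ N₂ :=
      (Nat.le_ceil _).trans (by exact_mod_cast hN₀)
    rw [div_le_iff₀ hε] at h1
    linarith only [h1]
  obtain ⟨c, hlinkc⟩ := linking r hr ε hε Zc hZc
  set a : ℕ := 2 ^ (3 * N₂) * (r + r * c) with ha
  obtain ⟨n₁, hlinkn⟩ := hlinkc (3 * N₂ + a + r * (c + 2))
  set C : ℝ := 8 + Zc ^ 2 with hC
  have hC0 : 0 < C := by rw [hC]; positivity
  set T : ℝ := 4 * C / ε + 3 * C with hT
  have hT0 : 0 < T := by rw [hT]; positivity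
  set Kb : ℝ := n₁ + N₂ + 3 * N₂ * Zc / ε + a / ε +
    ((r : ℝ) * ((3 * N₂ + a) + r) + r ^ 2) / ε + 1 with hKb
  have p1 : (0 : ℝ) ≤ n₁ := by positivity
  have p2 : (0 : ℝ) ≤ N₂ := by positivity
  have p3 : 0 ≤ 3 * N₂ * Zc / ε := by positivity
  have p4 : 0 ≤ (a : ℝ) / ε := by positivity
  have p5 : 0 ≤ ((r : ℝ) * ((3 * N₂ + a) + r) + r ^ 2) / ε := by positivity
  have k0 : 1 ≤ Kb := by rw [hKb]; linarith only [p1, p2, p3, p4, p5]
  have k1 : (n₁ : ℝ) ≤ Kb := by rw [hKb]; linarith only [p1, p2, p3, p4, p5]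
  have k2 : (N₂ : ℝ) ≤ Kb := by rw [hKb]; linarith only [p1, p2, p3, p4, p5]
  have k3 : 3 * N₂ * Zc / ε ≤ Kb := by rw [hKb]; linarith only [p1, p2, p3, p4, p5]
  have k4 : (a : ℝ) / ε ≤ Kb := by rw [hKb]; linarith only [p1, p2, p3, p4, p5]
  have k5 : ((r : ℝ) * ((3 * N₂ + a) + r) + r ^ 2) / ε ≤ Kb := by
    rw [hKb]; linarith only [p1, p2, p3, p4, p5]
  clear_value Kb
  clear hKb p1 p2 p3 p4 p5
  obtain ⟨n₀, hn₀⟩ := exists_nat_ge (3 * Kb + T ^ 4)
  refine ⟨n₀, ?_⟩
  intro V _ _ z hz hVn hdvd hdeg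
  set n : ℕ := Fintype.card V with hn
  have hnn₀ : (n₀ : ℝ) ≤ n := by exact_mod_cast hVn
  have hT4 : 0 ≤ T ^ 4 := by positivity
  have hnK : 3 * Kb ≤ n := by linarith only [hn₀, hT4, hnn₀]
  have hcardU : (Finset.univ : Finset V).card = n := Finset.card_univ
  have hUne : (Finset.univ : Finset V).Nonempty := by
    rw [← Finset.card_pos, hcardU]
    have : (0 : ℝ) < n := by linarith only [k0, hnK]
    exact_mod_cast this
  have hqn : T ≤ q4 n := q4_ge hT0.le (by linarith only [hn₀, hnn₀, k0])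
  have hqpos : 0 < q4 n := by linarith only [hqn, hT0]
  have hsl : 4 * C / q4 n ≤ ε := by
    rw [div_le_iff₀ hqpos]
    have h3 : ε * T ≤ ε * q4 n := mul_le_mul_of_nonneg_left hqn hε.le
    have h4 : ε * T = 4 * C + 3 * C * ε := by rw [hT]; field_simp
    have h5 : 0 < C * ε := by positivity
    linarith only [h3, h4, h5]
  have hnpos : (0 : ℝ) < n := by linarith only [k0, hnK]
  set d : ℝ := 1 - 1 / (r : ℝ) - 3 * ε with hd
  have hd0 : 0 ≤ d := by
    obtain ⟨v, _⟩ := hUne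
    have e1 := hdeg v
    have e2 : 0 ≤ ∑ u, z v u := Finset.sum_nonneg fun u _ => hz.nonneg _ _
    exact coef_nonneg hnpos e2 e1
  -- first halving
  obtain ⟨A, _, ⟨hA1, hA2⟩, ⟨hB1, hB2⟩, hAf⟩ := halving_avg Zc hZ1 (Finset.univ : Finset V) hUne
    (Finset.univ.image z) (by
      have h2 : ((Finset.univ : Finset V).image z).card ≤ (Finset.univ : Finset V).card :=
        Finset.card_image_le
      have h3 : 1 ≤ (Finset.univ : Finset V).card := Finset.card_pos.mpr hUne
      omega) (by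
      intro f hf v
      rw [Finset.mem_image] at hf
      obtain ⟨w, _, rfl⟩ := hf
      exact ⟨hz.nonneg _ _, hz.le _ _⟩) (by
      rw [hcardU]
      have : 0 < 4 * C / ε := by positivity
      linarith only [this, hqn, hT, hC]) d hd0 (by linarith only [hd, hrho, hε]) (by
      intro f hf
      rw [hcardU]
      rw [Finset.mem_image] at hf
      obtain ⟨w, _, rfl⟩ := hf
      exact hdeg w)
  rw [hcardU] at hA1 hA2 hB1 hB2 hAf
  set R : Finset V := Finset.univ \ A with hR
  have hdisA : Disjoint A R := Finset.disjoint_sdiff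
  have hAKb : Kb ≤ A.card := by linarith only [hnK, hA1]
  have hRKb : Kb ≤ R.card := by linarith only [hnK, hB1]
  have hAz : ∀ v, ∑ u ∈ A, z v u ≤ (1 - 1 / (r : ℝ) - 2 * ε) * A.card := by
    intro v
    refine (hAf (z v) (Finset.mem_image_of_mem z (Finset.mem_univ v))).1.trans ?_
    apply mul_le_mul_of_nonneg_right _ (by positivity)
    rw [hd]; linarith only [hsl]
  have hRz : ∀ v, ∑ u ∈ R, z v u ≤ (1 - 1 / (r : ℝ) - 2 * ε) * R.card := by
    intro v
    refine (hAf (z v) (Finset.mem_image_of_mem z (Finset.mem_univ v))).2.trans ?_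
    apply mul_le_mul_of_nonneg_right _ (by positivity)
    rw [hd]; linarith only [hsl]
  have hRz' : ∀ v, ∑ u ∈ R, z v u ≤
      (1 - 1 / (r : ℝ) - 2 * ε + 40 * (8 + Zc ^ 2) / q4 R.card) * R.card := by
    intro v
    refine (hRz v).trans ?_
    apply mul_le_mul_of_nonneg_right _ (by positivity)
    have : 0 ≤ 40 * (8 + Zc ^ 2) / q4 R.card := div_nonneg (by positivity) (q4_nonneg _)
    linarith only [this]
  -- vortex in R
  obtain ⟨O, B, hOR, hBR, hBc, hOc, hOf, hOz, hOM⟩ := hvor V z hz R.card R rfl (by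
      have : (N₂ : ℝ) ≤ R.card := k2.trans hRKb
      exact_mod_cast this) (Finset.univ.image z) (by
      have h2 : ((Finset.univ : Finset V).image z).card ≤ (Finset.univ : Finset V).card :=
        Finset.card_image_le
      have h3 : n ≤ 3 * R.card := by exact_mod_cast hB1
      omega) (by
      intro f hf v
      rw [Finset.mem_image] at hf
      obtain ⟨w, _, rfl⟩ := hf
      exact ⟨hz.nonneg _ _, hz.le _ _⟩) (by
      intro f hf
      rw [Finset.mem_image] at hf
      obtain ⟨w, _, rfl⟩ := hf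
      exact hRz' w) (fun v _ => hRz' v)
  have hdisAB : Disjoint A B := Finset.disjoint_of_subset_right hBR hdisA
  have hBcR : (B.card : ℝ) ≤ 3 * N₂ := by exact_mod_cast hBc
  -- absorbers
  set X : Finset V := A ∪ B with hX
  have hXc : (X.card : ℝ) = A.card + B.card := by
    rw [hX, Finset.card_union_of_disjoint hdisAB]; push_cast; ring
  have hXA : (A.card : ℝ) ≤ X.card := by
    rw [hXc]; exact le_add_of_nonneg_right (Nat.cast_nonneg _)
  have hεA : 3 * N₂ * Zc ≤ ε * A.card := by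
    have h1 : 3 * N₂ * Zc / ε ≤ A.card := k3.trans hAKb
    rw [div_le_iff₀ hε] at h1
    linarith only [h1]
  have hXdeg : ∀ v ∈ X, ∑ u ∈ X, z v u ≤ (1 - 1 / (r : ℝ) - ε) * X.card := by
    intro v _
    rw [hX, Finset.sum_union hdisAB, ← hX, hXc]
    have h1 := hAz v
    have h2 : ∑ u ∈ B, z v u ≤ Zc * B.card := by
      calc ∑ u ∈ B, z v u ≤ ∑ _u ∈ B, Zc := Finset.sum_le_sum fun u _ => hz.le _ _
        _ = Zc * B.card := by rw [Finset.sum_const, nsmul_eq_mul]; ring
    exact np_deg3 h1 h2 hBcR (by linarith only [hZ1]) hεA (by positivity)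
      (by linarith only [hd0, hd, hε])
  have hlink := hlinkn V z hz X hXdeg (by
    have : (n₁ : ℝ) ≤ X.card := (k1.trans hAKb).trans hXA
    exact_mod_cast this)
  set Qs : Finset (Finset V) := B.powersetCard r with hQs
  have hQsmem : ∀ Q, Q ∈ Qs ↔ Q ⊆ B ∧ Q.card = r := fun Q => Finset.mem_powersetCard
  have hQsc : Qs.card ≤ 2 ^ (3 * N₂) := by
    rw [hQs, Finset.card_powersetCard]
    exact (Nat.choose_le_two_pow _ _).trans (Nat.pow_le_pow_right (by norm_num) hBc)
  have hQsa : Qs.card * (r + r * c) ≤ a := Nat.mul_le_mul_right _ hQsc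
  obtain ⟨g, hg1, hg2⟩ := absorber_family hr ε z Zc hz X B Finset.subset_union_right hXdeg
    (3 * N₂ + a + r * (c + 2)) c hlink Qs (fun Q hQ => (hQsmem Q).mp hQ) (by omega) (by
      have h1 : (Qs.card : ℝ) * (r + r * c) ≤ a := by exact_mod_cast hQsa
      have h2 : ((r : ℝ) * ((3 * N₂ + a) + r) + r ^ 2) / ε ≤ X.card :=
        (k5.trans hAKb).trans hXA
      rw [div_le_iff₀ hε] at h2
      have h3 : (r : ℝ) * ((B.card + Qs.card * (r + r * c)) + r) ≤
          r * ((3 * N₂ + a) + r) := by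
        apply mul_le_mul_of_nonneg_left _ (by linarith only [hr2])
        linarith only [h1, hBcR]
      linarith only [h2, h3])
  set Abs : Finset V := Qs.biUnion g with hAbs
  have hXB : X \ B ⊆ A := by
    intro v hv
    rw [Finset.mem_sdiff, hX, Finset.mem_union] at hv
    rcases hv.1 with h | h
    · exact h
    · exact absurd h hv.2
  have hAbsA : Abs ⊆ A := by
    rw [hAbs, Finset.biUnion_subset]
    intro Q hQ
    exact (hg1 Q hQ).1.trans hXB
  have hAbsc : Abs.card ≤ a :=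
    (Finset.card_biUnion_le_card_mul Qs g (r + r * c) (fun Q hQ => (hg1 Q hQ).2.1)).trans hQsa
  -- near perfect matching in the rest of A
  obtain ⟨M₀, hM₀, hM₀c⟩ := hs₀ V z hz (A \ Abs) (by
    intro v hv
    have e1 : ∑ u ∈ A \ Abs, z v u ≤ ∑ u ∈ A, z v u :=
      Finset.sum_le_sum_of_subset_of_nonneg Finset.sdiff_subset (fun u _ _ => hz.nonneg _ _)
    have e2 := hAz v
    have e3 : ((A \ Abs).card : ℝ) = A.card - Abs.card := by
      have := Finset.card_sdiff_add_card_eq_card hAbsA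
      have e11 : ((A \ Abs).card : ℝ) + Abs.card = A.card := by exact_mod_cast this
      linarith only [e11]
    rw [e3]
    have e4 : (Abs.card : ℝ) ≤ ε * A.card := by
      have h1 : (a : ℝ) / ε ≤ A.card := k4.trans hAKb
      rw [div_le_iff₀ hε] at h1
      have h2 : (Abs.card : ℝ) ≤ a := by exact_mod_cast hAbsc
      linarith only [h1, h2]
    exact np_deg2 (e1.trans e2) e4 (by linarith only [hrho, hε]) (by positivity) (by positivity))
  set U : Finset V := (A \ Abs) \ cov M₀ with hU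
  have hUA : U ⊆ A := Finset.sdiff_subset.trans Finset.sdiff_subset
  have hOcard : (N₂ : ℝ) ≤ O.card := by exact_mod_cast hOc
  have hN₂pos : (0 : ℝ) < N₂ := by
    have h1 : 0 < (r : ℝ) * (r * s₀ + 1) + r ^ 2 := by positivity
    by_contra h
    push Not at h
    have : ε * N₂ ≤ 0 := mul_nonpos_of_nonneg_of_nonpos hε.le h
    linarith only [this, hN₂l, h1]
  obtain ⟨M₁, X₁, hX₁O, hX₁c, hM₁, hM₁c⟩ := complete_leftover hr ε z Zc hz O
    (by
      rw [← Finset.card_pos]
      have : (0 : ℝ) < O.card := hN₂pos.trans_le hOcard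
      exact_mod_cast this) (fun v hv => hOz v (hOR hv)) s₀ (by
      have : ε * (N₂ : ℝ) ≤ ε * O.card := mul_le_mul_of_nonneg_left hOcard hε.le
      linarith only [this, hN₂l]) U hM₀c
    (Finset.disjoint_of_subset_left hUA (Finset.disjoint_of_subset_right hOR hdisA))
    (fun u _ => hOf (z u) (Finset.mem_image_of_mem z (Finset.mem_univ u)))
  obtain ⟨M₂, hM₂, hM₂c⟩ := hOM X₁ hX₁O (hX₁c.trans (Nat.mul_le_mul_left _ hM₀c))
  exact assembly z hdvd A R B hR hdisA Qs hQsmem g
    (fun Q hQ => ⟨Finset.disjoint_of_subset_left (hg1 Q hQ).1 Finset.sdiff_disjoint,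
      (hg1 Q hQ).2.2.1, (hg1 Q hQ).2.2.2⟩) hg2 Abs hAbs hAbsA M₀ M₁ M₂ U X₁ hM₀ hU hUA hM₁ hM₁c
    (hX₁O.trans hOR) hM₂ hM₂c

end Pool.Agent.Lib.MP_acd470_co
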